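import Pool.Agent.R667.TP.Stm

/-! Trace polynomials of random words, piece ALG (helper91). -/

set_option autoImplicit false

namespace Pool.Agent.R667.TP

namespace ALG

abbrev M2 := Matrix (Fin 2) (Fin 2) ℂ

lemma mul_bound {X Y : M2} {x y : ℝ} (hx0 : 0 ≤ x) (hX : ∀ a b, ‖X a b‖ ≤ x) (hY : ∀ a b, ‖Y a b‖ ≤ y)
    (a b : Fin 2) : ‖(X * Y) a b‖ ≤ 2 * x * y := by
  rw [Matrix.mul_apply, Fin.sum_univ_two]
  have h1 : ‖X a 0 * Y 0 b‖ ≤ x * y := by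
    rw [norm_mul]; exact mul_le_mul (hX _ _) (hY _ _) (norm_nonneg _) hx0
  have h2 : ‖X a 1 * Y 1 b‖ ≤ x * y := by
    rw [norm_mul]; exact mul_le_mul (hX _ _) (hY _ _) (norm_nonneg _) hx0
  have h3 := norm_add_le (X a 0 * Y 0 b) (X a 1 * Y 1 b)
  linarith

lemma inv_bound {A : SL} {m : ℝ} (h : ∀ a b, ‖A.1 a b‖ ≤ m) (a b : Fin 2) : ‖(A⁻¹).1 a b‖ ≤ m := by
  have h1 : (A⁻¹).1 = A.1.adjugate := Matrix.SpecialLinearGroup.coe_inv A
  rw [h1, Matrix.adjugate_fin_two]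
  fin_cases a <;> fin_cases b <;> simp [h]

lemma one_bound (a b : Fin 2) : ‖(1 : M2) a b‖ ≤ 1 := by
  fin_cases a <;> fin_cases b <;> simp

variable {A B : SL}

lemma letter_bound (hA : ∀ a b, ‖A.1 a b‖ ≤ 2) (hB : ∀ a b, ‖B.1 a b‖ ≤ 2) (l : Letter) (a b : Fin 2) :
    ‖(cond l.2 ((![A, B] : Fin 2 → SL) l.1) ((![A, B] : Fin 2 → SL) l.1)⁻¹).1 a b‖ ≤ 2 := by
  obtain ⟨i, s⟩ := l
  fin_cases i <;> cases s
  · exact inv_bound hA a b
  · exact hA a b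
  · exact inv_bound hB a b
  · exact hB a b

lemma word_bound (hA : ∀ a b, ‖A.1 a b‖ ≤ 2) (hB : ∀ a b, ‖B.1 a b‖ ≤ 2) (L : List Letter) :
    ∀ a b : Fin 2, ‖(wordAt (FreeGroup.mk L) A B).1 a b‖ ≤ 4 ^ L.length := by
  induction L with
  | nil =>
    intro a b
    have : wordAt (FreeGroup.mk []) A B = 1 := by
      rw [wordAt, FreeGroup.lift_mk]; rfl
    rw [this]
    simpa using one_bound a b
  | cons l L ih =>
    intro a b
    have h1 : wordAt (FreeGroup.mk (l :: L)) A B =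
        (cond l.2 ((![A, B] : Fin 2 → SL) l.1) ((![A, B] : Fin 2 → SL) l.1)⁻¹) *
          wordAt (FreeGroup.mk L) A B := by
      rw [wordAt, wordAt, FreeGroup.lift_mk, FreeGroup.lift_mk, List.map_cons, List.prod_cons]
    rw [h1]
    have h2 := mul_bound (by norm_num) (letter_bound hA hB l) ih a b
    have h3 : (2 * 2 * 4 ^ L.length : ℝ) = 4 ^ (l :: L).length := by
      rw [List.length_cons, pow_succ]; ring
    rw [← h3]
    exact h2

lemma wordAt_mul (u v : F2) : wordAt (u * v) A B = wordAt u A B * wordAt v A B := by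
  rw [wordAt, map_mul]; rfl

lemma wordAt_inv (u : F2) : wordAt u⁻¹ A B = (wordAt u A B)⁻¹ := by
  rw [wordAt, map_inv]; rfl

lemma Eb_bound (hA : ∀ a b, ‖A.1 a b‖ ≤ 2) (hB : ∀ a b, ‖B.1 a b‖ ≤ 2) (j : Fin 4) (a b : Fin 2) :
    ‖Eb A B j a b‖ ≤ 8 := by
  fin_cases j
  · exact (one_bound a b).trans (by norm_num)
  · exact (hA a b).trans (by norm_num)
  · exact (hB a b).trans (by norm_num)
  · exact (mul_bound (by norm_num) hA hB a b).trans (by norm_num)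

lemma ev_mul (ξ : Fin 3 → ℂ) (f g : Rg) : ev ξ (f * g) = ev ξ f * ev ξ g := map_mul _ _ _
lemma ev_add (ξ : Fin 3 → ℂ) (f g : Rg) : ev ξ (f + g) = ev ξ f + ev ξ g := map_add _ _ _
lemma ev_sub (ξ : Fin 3 → ℂ) (f g : Rg) : ev ξ (f - g) = ev ξ f - ev ξ g := map_sub _ _ _
lemma ev_pow (ξ : Fin 3 → ℂ) (f : Rg) (n : ℕ) : ev ξ (f ^ n) = ev ξ f ^ n := map_pow _ _ _
lemma ev_four (ξ : Fin 3 → ℂ) : ev ξ 4 = 4 := map_ofNat _ 4

end ALG

open ALG in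
theorem alg (hPT : S_PT) (hREL : S_REL) (hFRT : S_FRT) (hMAT : S_MAT) (hCRA : S_CRA) : S_ALG := by
  refine ⟨10 ^ 17, by norm_num, ?_⟩
  intro ξ hξ i U V1 V2 V3 hV1 hV2 hV3 τ hτ h1 h2 h3 a b
  obtain ⟨A, B, hAB, hA, hB⟩ := hPT ξ hξ
  have htr : ∀ w : F2, ev ξ (fr w) = (wordAt w A B).1.trace := by
    intro w
    rw [hFRT.1 w A B, ← hAB]; rfl
  set u := wordAt (U * FreeGroup.mk V1) A B with hu
  set g := wordAt ((FreeGroup.mk V1)⁻¹ * FreeGroup.mk V2) A B with hg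
  set h := wordAt ((FreeGroup.mk V1)⁻¹ * FreeGroup.mk V3) A B with hh
  have hug : u * g = wordAt (U * FreeGroup.mk V2) A B := by
    rw [hu, hg, ← wordAt_mul]; congr 1; group
  have huh : u * h = wordAt (U * FreeGroup.mk V3) A B := by
    rw [hu, hh, ← wordAt_mul]; congr 1; group
  set M : ℝ := 2 * 4 ^ i * 4 ^ i with hM
  have h4i : (1 : ℝ) ≤ 4 ^ i := one_le_pow₀ (by norm_num)
  have hM1 : 1 ≤ M := by rw [hM]; nlinarith
  have hw1 : ∀ a b, ‖(wordAt (FreeGroup.mk V1)⁻¹ A B).1 a b‖ ≤ 4 ^ i := by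
    intro a b
    rw [wordAt_inv]
    refine inv_bound (fun a b => ?_) a b
    rw [← hV1]; exact word_bound hA hB V1 a b
  have hgM : ∀ a b, ‖g.1 a b‖ ≤ M := by
    intro a b
    rw [hg, wordAt_mul]
    refine mul_bound (by positivity) hw1 (fun a b => ?_) a b
    rw [← hV2]; exact word_bound hA hB V2 a b
  have hhM : ∀ a b, ‖h.1 a b‖ ≤ M := by
    intro a b
    rw [hh, wordAt_mul]
    refine mul_bound (by positivity) hw1 (fun a b => ?_) a b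
    rw [← hV3]; exact word_bound hA hB V3 a b
  set κ : ℂ := g.1.trace ^ 2 + h.1.trace ^ 2 + (g * h).1.trace ^ 2
      - g.1.trace * h.1.trace * (g * h).1.trace - 4 with hκ
  have hkap : ev ξ (kap ((FreeGroup.mk V1)⁻¹ * FreeGroup.mk V2)
      ((FreeGroup.mk V1)⁻¹ * FreeGroup.mk V3)) = κ := by
    rw [kap, ev_sub, ev_sub, ev_add, ev_add, ev_mul, ev_mul, ev_pow, ev_pow, ev_pow, ev_four, htr, htr,
      htr, wordAt_mul ((FreeGroup.mk V1)⁻¹ * FreeGroup.mk V2)]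
  set Bd : ℝ := 10 ^ 6 * M ^ 10 * (1 + τ) with hBd
  have hBd0 : 0 ≤ Bd := by positivity
  have hu1 : ∀ a b, ‖κ * u.1 a b‖ ≤ Bd := by
    apply hMAT u g h M τ hM1 hτ hgM hhM
    · rw [← htr]; exact h1
    · rw [hug, ← htr]; exact h2
    · rw [huh, ← htr]; exact h3
  -- the matrix `κ U E_b`
  set Y : M2 := (κ • u.1) * ((wordAt (FreeGroup.mk V1)⁻¹ A B).1 * Eb A B b) with hY
  have hYb : ∀ a' b', ‖Y a' b'‖ ≤ 2 * Bd * (2 * 4 ^ i * 8) := by
    intro a' b'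
    refine mul_bound hBd0 (fun a1 b1 => ?_) (fun a1 b1 => ?_) a' b'
    · rw [Matrix.smul_apply, smul_eq_mul]; exact hu1 a1 b1
    · exact mul_bound (by positivity) hw1 (Eb_bound hA hB b) a1 b1
  have hYE : Y = ∑ i, (κ * ev ξ (Mw U i b)) • Eb A B i := by
    have e1 : (wordAt U A B).1 = u.1 * (wordAt (FreeGroup.mk V1)⁻¹ A B).1 := by
      have : wordAt U A B = u * wordAt (FreeGroup.mk V1)⁻¹ A B := by
        rw [hu, ← wordAt_mul]; congr 1; group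
      rw [this]; rfl
    have e2 := hREL U A B b
    rw [e1, Matrix.mul_assoc, hAB] at e2
    rw [hY, Matrix.smul_mul, e2, Finset.smul_sum]
    refine Finset.sum_congr rfl fun i _ => ?_
    rw [smul_smul]
  have hfin := hCRA A B Y (fun i => κ * ev ξ (Mw U i b)) _ hA hB hYE hYb a
  rw [hAB] at hfin
  rw [hkap, mul_assoc]
  refine hfin.trans ?_
  have e1 : (4 : ℝ) ^ i = 2 ^ (2 * i) := by rw [pow_mul]; norm_num
  have e2 : (10 : ℝ) ^ 6 * (2 * Bd * (2 * 4 ^ i * 8)) =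
      (32 * 1024 * 10 ^ 12) * ((2 : ℝ) ^ 42) ^ i * (1 + τ) := by
    rw [hBd, hM, e1, ← pow_mul, show (2 : ℝ) ^ (42 * i) = 2 ^ (2 * i) * (2 ^ (2 * i)) ^ 20 by
      rw [← pow_mul, ← pow_add]; congr 1; ring]
    ring
  rw [e2]
  have e3 : ((2 : ℝ) ^ 42) ^ i ≤ (10 ^ 17) ^ i := pow_le_pow_left₀ (by positivity) (by norm_num) i
  calc (32 * 1024 * 10 ^ 12) * ((2 : ℝ) ^ 42) ^ i * (1 + τ)
      ≤ 10 ^ 17 * (10 ^ 17) ^ i * (1 + τ) := by
        gcongr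
        norm_num
    _ = (10 ^ 17) ^ (i + 1) * (1 + τ) := by rw [pow_succ]; ring

end Pool.Agent.R667.TP
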