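import Pool.Agent.R667.TP.Stm

/-! Trace polynomials of random words: the Borel-Cantelli step. -/

set_option autoImplicit false

open MeasureTheory Filter Topology

namespace Pool.Agent.R667.TP.BC

/-- extension of a finite word -/
def ext (n : ℕ) (c : Fin n → Letter) : ℕ → Letter :=
  fun k => if h : k < n then c ⟨k, h⟩ else (0, true)

/-- the cylinder -/
def cyl (n : ℕ) (u : ℕ → Letter) : Set (ℕ → Letter) := {x | ∀ k < n, x k = u k}

lemma meas_cyl (n : ℕ) (u : ℕ → Letter) : MeasurableSet (cyl n u) := by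
  have : cyl n u = ⋂ k ∈ Finset.range n, (fun x : ℕ → Letter => x k) ⁻¹' {u k} := by
    ext x
    simp [cyl]
  rw [this]
  refine Finset.measurableSet_biInter _ fun k _ => ?_
  exact (measurable_pi_apply k) (measurableSet_singleton _)

lemma sum_cyl (m : Measure (ℕ → Letter)) [IsProbabilityMeasure m] (n : ℕ) :
    ∑ c : Fin n → Letter, m (cyl n (ext n c)) ≤ 1 := by
  rw [← measure_biUnion_finset]
  · exact prob_le_one
  · intro c _ d _ hcd
    refine Set.disjoint_left.2 fun x hx hy => hcd ?_
    funext k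
    have h1 := hx k k.2
    have h2 := hy k k.2
    rw [h1] at h2
    simpa [ext] using h2
  · intro c _
    exact meas_cyl n _

/-- the last `i` letters -/
def blk (n i : ℕ) (x : ℕ → Letter) : List Letter :=
  (List.range i).map fun j => x (n - i + j)

lemma wd_split (x : ℕ → Letter) (n i : ℕ) (hi : i ≤ n) :
    wd x n = wd x (n - i) * FreeGroup.mk (blk n i x) := by
  unfold wd blk
  rw [FreeGroup.mul_mk]
  congr 1
  conv_lhs => rw [show n = (n - i) + i by omega]
  rw [List.range_add, List.map_append, List.map_map]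
  rfl

lemma wd_congr (x y : ℕ → Letter) (n : ℕ) (h : ∀ k < n, x k = y k) : wd x n = wd y n := by
  unfold wd
  congr 1
  refine List.map_congr_left fun k hk => h k (List.mem_range.1 hk)

lemma blk_red (n i : ℕ) (x : ℕ → Letter)
    (h : ∀ k, k + 1 < n → x (k + 1) ≠ invL (x k)) (hi : i ≤ n) :
    FreeGroup.IsReduced (blk n i x) := by
  unfold FreeGroup.IsReduced blk
  rw [List.isChain_iff_getElem]
  intro j hj
  simp only [List.length_map, List.length_range] at hj
  simp only [List.getElem_map, List.getElem_range]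
  intro h1
  by_contra h2
  refine h (n - i + j) (by omega) ?_
  rw [show n - i + j + 1 = n - i + (j + 1) by omega]
  refine Prod.ext_iff.2 ⟨h1.symm, ?_⟩
  simp only [invL]
  revert h2
  cases (x (n - i + j)).2 <;> cases (x (n - i + (j + 1))).2 <;> simp

lemma blk_len (n i : ℕ) (x : ℕ → Letter) : (blk n i x).length = i := by
  simp [blk]

lemma norm_blk (n i : ℕ) (x : ℕ → Letter) (h : FreeGroup.IsReduced (blk n i x)) :
    (FreeGroup.mk (blk n i x)).norm = i := by
  unfold FreeGroup.norm
  rw [FreeGroup.toWord_mk, h.reduce_eq, blk_len]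

lemma blk_inj (n i : ℕ) (hi : i ≤ n) (x y : ℕ → Letter) (hx : FreeGroup.IsReduced (blk n i x))
    (hy : FreeGroup.IsReduced (blk n i y))
    (h : FreeGroup.mk (blk n i x) = FreeGroup.mk (blk n i y)) (j : ℕ) (hj : j < i) :
    x (n - i + j) = y (n - i + j) := by
  have h1 := congrArg FreeGroup.toWord h
  rw [FreeGroup.toWord_mk, FreeGroup.toWord_mk, hx.reduce_eq, hy.reduce_eq] at h1
  unfold blk at h1
  have h2 := List.map_inj_left.1 h1 j (List.mem_range.2 hj)
  exact h2

/-- the summable bound -/
lemma summ (ρ : ℝ) (h0 : 0 < ρ) (h1 : ρ < 1) :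
    Summable fun n : ℕ => (4 * (n.sqrt : ℝ) + 1) * ρ ^ n.sqrt := by
  have ht := tendsto_pow_const_mul_const_pow_of_abs_lt_one 5 (r := ρ) (by rw [abs_of_pos h0]; exact h1)
  obtain ⟨K, hK⟩ := ht.bddAbove_range
  have hK' : ∀ i : ℕ, (i : ℝ) ^ 5 * ρ ^ i ≤ K := fun i => hK ⟨i, rfl⟩
  have hb : Summable fun n : ℕ => (4 * K / ρ) * (1 / ((n + 1 : ℕ) : ℝ) ^ 2) := by
    refine Summable.mul_left _ ?_
    exact (summable_nat_add_iff (f := fun n : ℕ => 1 / (n : ℝ) ^ 2) 1).2
      (Real.summable_one_div_nat_pow.2 (by norm_num))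
  refine Summable.of_nonneg_of_le (fun n => by positivity) (fun n => ?_) hb
  set i := n.sqrt with hi
  have hn : n + 1 ≤ (i + 1) ^ 2 := by
    have := Nat.lt_succ_sqrt n
    rw [pow_two]
    exact this
  have hnr : ((n + 1 : ℕ) : ℝ) ^ 2 ≤ ((i : ℝ) + 1) ^ 4 := by
    have h2 : ((n + 1 : ℕ) : ℝ) ≤ ((i : ℝ) + 1) ^ 2 := by exact_mod_cast hn
    calc ((n + 1 : ℕ) : ℝ) ^ 2 ≤ (((i : ℝ) + 1) ^ 2) ^ 2 := by
          exact pow_le_pow_left₀ (by positivity) h2 2
      _ = ((i : ℝ) + 1) ^ 4 := by ring
  have h5 := hK' (i + 1)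
  push_cast at h5
  have h6 : ((i : ℝ) + 1) ^ 5 * ρ ^ i ≤ K / ρ := by
    rw [le_div_iff₀ h0]
    calc ((i : ℝ) + 1) ^ 5 * ρ ^ i * ρ = ((i : ℝ) + 1) ^ 5 * ρ ^ (i + 1) := by ring
      _ ≤ K := h5
  have hpos : (0 : ℝ) < ((n + 1 : ℕ) : ℝ) ^ 2 := by positivity
  rw [mul_one_div, le_div_iff₀ hpos]
  calc (4 * (i : ℝ) + 1) * ρ ^ i * ((n + 1 : ℕ) : ℝ) ^ 2
      ≤ (4 * ((i : ℝ) + 1)) * ρ ^ i * ((i : ℝ) + 1) ^ 4 := by
        refine mul_le_mul (mul_le_mul_of_nonneg_right (by linarith) (by positivity)) hnr
          (by positivity) (by positivity)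
    _ = 4 * (((i : ℝ) + 1) ^ 5 * ρ ^ i) := by ring
    _ ≤ 4 * (K / ρ) := by linarith
    _ = 4 * K / ρ := by ring

end Pool.Agent.R667.TP.BC

namespace Pool.Agent.R667.TP

open BC

theorem t_BC (hC : S_COMB) : S_BC := by
  classical
  intro m ρ hm
  obtain ⟨C, hC1, hC⟩ := hC
  refine ⟨C, hC1, ?_⟩
  haveI := hm.prob
  -- the inequality
  let bad : ℕ → (ℕ → Letter) → Prop := fun n x =>
    Real.exp (C * (n.sqrt + 1) * Real.log (n + 2)) * (1 + Ln (fr (wd x n))) <
      (Nn (wd x (n - n.sqrt)) : ℝ)
  let B : ℕ → Set (ℕ → Letter) := fun n =>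
    {x | (∀ k, x (k + 1) ≠ invL (x k)) ∧ bad n x}
  have key : ∀ n : ℕ, m (B n) ≤ ENNReal.ofReal ((4 * (n.sqrt : ℝ) + 1) * ρ ^ n.sqrt) := by
    intro n
    set i := n.sqrt with hi
    have hin : i ≤ n := Nat.sqrt_le_self n
    let W : Finset (Fin n → Letter) := Finset.univ.filter fun c =>
      FreeGroup.IsReduced (blk n i (ext n c)) ∧ bad n (ext n c)
    have hsub : B n ⊆ ⋃ c ∈ W, cyl n (ext n c) := by
      intro x hx
      let c : Fin n → Letter := fun k => x k
      have hc : ∀ k < n, x k = ext n c k := by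
        intro k hk
        simp [ext, hk, c]
      have hblk : blk n i (ext n c) = blk n i x := by
        unfold blk
        refine List.map_congr_left fun j hj => (hc _ ?_).symm
        have := List.mem_range.1 hj
        omega
      refine Set.mem_biUnion (x := c) ?_ hc
      simp only [W, Finset.coe_filter, Finset.mem_univ, true_and, Set.mem_setOf_eq]
      refine ⟨?_, ?_⟩
      · rw [hblk]
        exact blk_red n i x (fun k _ => hx.1 k) hin
      · have h2 := hx.2
        show bad n (ext n c)
        simp only [bad] at h2 ⊢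
        rw [← wd_congr x (ext n c) n hc, ← wd_congr x (ext n c) (n - n.sqrt)
          (fun k hk => hc k (by omega))]
        exact h2
    let r : (Fin n → Letter) → (Fin (n - i) → Letter) := fun c k => c ⟨k, by omega⟩
    have hcyl : ∀ c, cyl (n - i) (ext n c) = cyl (n - i) (ext (n - i) (r c)) := by
      intro c
      ext x
      simp only [cyl, Set.mem_setOf_eq]
      refine forall₂_congr fun k hk => ?_
      rw [show ext n c k = ext (n - i) (r c) k by
        simp [ext, hk, r, show k < n by omega]]
    have hcard : ∀ u : Fin (n - i) → Letter, (W.filter fun c => r c = u).card ≤ 4 * i + 1 := by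
      intro u
      let LU : List Letter := (List.range (n - i)).map (ext (n - i) u)
      let S : Finset F2 := (W.filter fun c => r c = u).image
        fun c => FreeGroup.mk (blk n i (ext n c))
      have hS : S.card = (W.filter fun c => r c = u).card := by
        refine Finset.card_image_of_injOn ?_
        intro c hc d hd hcd
        simp only [W, Finset.coe_filter, Finset.mem_filter, Finset.mem_univ, true_and,
          Set.mem_setOf_eq] at hc hd
        have hi1 := blk_inj n i hin _ _ hc.1.1 hd.1.1 hcd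
        funext k
        by_cases hk : (k : ℕ) < n - i
        · have e := congrFun (hc.2.trans hd.2.symm) ⟨k, hk⟩
          exact e
        · have e := hi1 ((k : ℕ) - (n - i)) (by have := k.2; omega)
          rw [show n - i + ((k : ℕ) - (n - i)) = k by omega] at e
          simpa [ext] using e
      rw [← hS]
      refine hC n i hin LU (by simp [LU]) S ?_ ?_
      · intro v hv
        obtain ⟨c, hc, rfl⟩ := Finset.mem_image.1 hv
        simp only [W, Finset.mem_filter, Finset.mem_univ, true_and] at hc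
        exact norm_blk n i _ hc.1.1
      · intro v hv
        obtain ⟨c, hc, rfl⟩ := Finset.mem_image.1 hv
        simp only [W, Finset.mem_filter, Finset.mem_univ, true_and] at hc
        have hLU : FreeGroup.mk LU = wd (ext n c) (n - i) := by
          have : wd (ext n c) (n - i) = wd (ext (n - i) u) (n - i) := by
            refine wd_congr _ _ _ fun k hk => ?_
            rw [← hc.2]
            simp [ext, hk, r, show k < n by omega]
          rw [this]
          rfl
        rw [hLU, ← wd_split _ n i hin]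
        exact hc.1.2
    have hsum : ∑ c ∈ W, m (cyl (n - i) (ext n c)) ≤ ((4 * i + 1 : ℕ) : ENNReal) := by
      calc ∑ c ∈ W, m (cyl (n - i) (ext n c))
          = ∑ c ∈ W, m (cyl (n - i) (ext (n - i) (r c))) :=
            Finset.sum_congr rfl fun c _ => by rw [hcyl c]
        _ = ∑ u, ∑ c ∈ W.filter (fun c => r c = u), m (cyl (n - i) (ext (n - i) (r c))) :=
            (Finset.sum_fiberwise _ _ _).symm
        _ = ∑ u : Fin (n - i) → Letter, ((W.filter fun c => r c = u).card : ENNReal) *
              m (cyl (n - i) (ext (n - i) u)) := by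
            refine Finset.sum_congr rfl fun u _ => ?_
            rw [Finset.sum_congr rfl (g := fun _ => m (cyl (n - i) (ext (n - i) u)))
              (fun c hc => by rw [(Finset.mem_filter.1 hc).2])]
            rw [Finset.sum_const, nsmul_eq_mul]
        _ ≤ ∑ u : Fin (n - i) → Letter, ((4 * i + 1 : ℕ) : ENNReal) *
              m (cyl (n - i) (ext (n - i) u)) := by
            refine Finset.sum_le_sum fun u _ => ?_
            gcongr
            exact_mod_cast hcard u
        _ = ((4 * i + 1 : ℕ) : ENNReal) * ∑ u : Fin (n - i) → Letter,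
              m (cyl (n - i) (ext (n - i) u)) := by rw [Finset.mul_sum]
        _ ≤ ((4 * i + 1 : ℕ) : ENNReal) * 1 := by
            gcongr
            exact sum_cyl m _
        _ = ((4 * i + 1 : ℕ) : ENNReal) := mul_one _
    calc m (B n) ≤ m (⋃ c ∈ W, cyl n (ext n c)) := measure_mono hsub
      _ ≤ ∑ c ∈ W, m (cyl n (ext n c)) := measure_biUnion_finset_le _ _
      _ ≤ ∑ c ∈ W, ENNReal.ofReal (ρ ^ i) * m (cyl (n - i) (ext n c)) := by
          refine Finset.sum_le_sum fun c _ => ?_
          have h := hm.spread (n - i) i (ext n c)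
          rw [show n - i + i = n by omega] at h
          exact h
      _ = ENNReal.ofReal (ρ ^ i) * ∑ c ∈ W, m (cyl (n - i) (ext n c)) := by
          rw [Finset.mul_sum]
      _ ≤ ENNReal.ofReal (ρ ^ i) * ((4 * i + 1 : ℕ) : ENNReal) := by gcongr
      _ = ENNReal.ofReal ((4 * (i : ℝ) + 1) * ρ ^ i) := by
          rw [mul_comm (4 * (i : ℝ) + 1), ENNReal.ofReal_mul (pow_nonneg hm.rho0.le _)]
          congr 1
          rw [← ENNReal.ofReal_natCast]
          congr 1
          push_cast
          ring
  have hfin : ∑' n, m (B n) ≠ ⊤ := by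
    refine ne_top_of_le_ne_top ?_ (ENNReal.tsum_le_tsum key)
    exact (summ ρ hm.rho0 hm.rho1).tsum_ofReal_ne_top
  filter_upwards [ae_eventually_notMem hfin, hm.red] with x hx hr
  filter_upwards [hx] with n hn
  by_contra hcon
  refine hn ⟨hr, ?_⟩
  simp only [bad]
  exact not_le.1 hcon

end Pool.Agent.R667.TP
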