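import Pool.Agent.R667.TP.Stm

/-! Trace polynomials of random words (MP_170125_pr): pieces COEF, EV, HT. -/

set_option autoImplicit false

open Finset

namespace Pool.Agent.R667.TP

lemma ev_eq (ξ : Fin 3 → ℂ) (f : Rg) :
    ev ξ f = ∑ m ∈ f.support, ((f.coeff m : ℤ) : ℂ) * ∏ i, ξ i ^ m i := by
  unfold ev
  rw [MvPolynomial.aeval_def, MvPolynomial.eval₂_eq']
  simp

theorem ev_thm : S_EV := by
  intro ξ hξ f
  rw [ev_eq]
  refine (norm_sum_le _ _).trans ?_
  unfold Ln
  push_cast
  refine Finset.sum_le_sum fun m _ => ?_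
  rw [norm_mul, norm_prod]
  have h1 : ∏ i, ‖ξ i ^ m i‖ = 1 := by
    refine Finset.prod_eq_one fun i _ => ?_
    rw [norm_pow, hξ i, one_pow]
  rw [h1, mul_one, Complex.norm_intCast, Nat.cast_natAbs, Int.cast_abs]

lemma card_supp (p : Rg) (d : ℕ) (h : ∀ k, p.degreeOf k ≤ d) : p.support.card ≤ (d + 1) ^ 3 := by
  classical
  have h1 : p.support.card ≤ (Fintype.piFinset (fun _ : Fin 3 => range (d + 1))).card := by
    refine Finset.card_le_card_of_injOn (fun m => (fun i => m i)) ?_ ?_
    · intro m hm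
      simp only [Finset.mem_coe, Fintype.mem_piFinset, Finset.mem_range]
      intro i
      have := (MvPolynomial.degreeOf_le_iff.1 (h i)) m hm
      omega
    · intro m _ m' _ he
      ext i
      exact congrFun he i
  rw [Fintype.card_piFinset] at h1
  simpa using h1

theorem ht_thm : S_HT := by
  intro p d hd
  constructor
  · unfold Ht Ln
    refine Finset.sup_le fun m hm => ?_
    exact Finset.single_le_sum (f := fun m => (p.coeff m).natAbs) (fun _ _ => Nat.zero_le _) hm
  · unfold Ln
    calc ∑ m ∈ p.support, (p.coeff m).natAbs ≤ ∑ _m ∈ p.support, Ht p := by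
          refine Finset.sum_le_sum fun m hm => ?_
          exact Finset.le_sup (f := fun m => (p.coeff m).natAbs) hm
      _ = p.support.card * Ht p := by rw [Finset.sum_const, smul_eq_mul]
      _ ≤ (d + 1) ^ 3 * Ht p := Nat.mul_le_mul_right _ (card_supp p d hd)

/-- sums of powers of a primitive root of unity -/
lemma root_sum {N : ℕ} {ζ : ℂ} (hζ : IsPrimitiveRoot ζ N) {a b : ℕ} (ha : a < N) (hb : b < N) :
    ∑ j ∈ range N, (ζ ^ j) ^ a * (ζ ^ j) ^ (N - b) = if a = b then (N : ℂ) else 0 := by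
  have h1 : ∀ j, (ζ ^ j) ^ a * (ζ ^ j) ^ (N - b) = (ζ ^ (a + (N - b))) ^ j := by
    intro j
    rw [← pow_add, ← pow_mul, ← pow_mul, mul_comm]
  simp_rw [h1]
  split_ifs with hab
  · subst hab
    have : a + (N - a) = N := by omega
    rw [this, hζ.pow_eq_one]
    simp
  · have hne : ζ ^ (a + (N - b)) ≠ 1 := by
      intro h
      have hd := (hζ.pow_eq_one_iff_dvd _).1 h
      obtain ⟨c, hc⟩ := hd
      have hc1 : c = 1 := by
        rcases Nat.lt_or_ge c 1 with h0 | h0
        · have : c = 0 := by omega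
          subst this
          omega
        · rcases Nat.lt_or_ge 1 c with h2 | h2
          · have : N * 2 ≤ N * c := Nat.mul_le_mul_left _ h2
            omega
          · omega
      subst hc1
      omega
    have h2 : (ζ ^ (a + (N - b))) ^ N = 1 := by
      rw [← pow_mul, mul_comm, pow_mul, hζ.pow_eq_one, one_pow]
    have h3 := mul_neg_geom_sum (ζ ^ (a + (N - b))) N
    rw [h2, sub_self] at h3
    rcases mul_eq_zero.1 h3 with h4 | h4
    · exact absurd (sub_eq_zero.1 h4).symm hne
    · exact h4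

lemma coef_bound (p : Rg) (d : ℕ) (S : ℝ) (hd : ∀ k, p.degreeOf k ≤ d)
    (hS : ∀ ξ : Fin 3 → ℂ, OnT ξ → ‖ev ξ p‖ ≤ S) (m : Fin 3 →₀ ℕ) (hm : m ∈ p.support) :
    ‖((p.coeff m : ℤ) : ℂ)‖ ≤ S := by
  classical
  set N := d + 1 with hN
  have hN0 : N ≠ 0 := by omega
  obtain ⟨ζ, hζ⟩ : ∃ ζ : ℂ, IsPrimitiveRoot ζ N := ⟨_, Complex.isPrimitiveRoot_exp N hN0⟩
  have hζ1 : ‖ζ‖ = 1 := hζ.norm'_eq_one hN0
  have hlt : ∀ m' ∈ p.support, ∀ i, m' i < N := by
    intro m' hm' i
    have := (MvPolynomial.degreeOf_le_iff.1 (hd i)) m' hm'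
    omega
  have hmain : ∑ j ∈ Fintype.piFinset (fun _ : Fin 3 => range N),
      ev (fun i => ζ ^ j i) p * ∏ i, (ζ ^ j i) ^ (N - m i) = (N : ℂ) ^ 3 * ((p.coeff m : ℤ) : ℂ) := by
    calc ∑ j ∈ Fintype.piFinset (fun _ : Fin 3 => range N),
          ev (fun i => ζ ^ j i) p * ∏ i, (ζ ^ j i) ^ (N - m i)
        = ∑ j ∈ Fintype.piFinset (fun _ : Fin 3 => range N), ∑ m' ∈ p.support,
            ((p.coeff m' : ℤ) : ℂ) * ∏ i, ((ζ ^ j i) ^ m' i * (ζ ^ j i) ^ (N - m i)) := by
          refine Finset.sum_congr rfl fun j _ => ?_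
          rw [ev_eq, Finset.sum_mul]
          refine Finset.sum_congr rfl fun m' _ => ?_
          rw [Finset.prod_mul_distrib, mul_assoc]
      _ = ∑ m' ∈ p.support, ((p.coeff m' : ℤ) : ℂ) *
            ∏ i, ∑ j ∈ range N, ((ζ ^ j) ^ m' i * (ζ ^ j) ^ (N - m i)) := by
          rw [Finset.sum_comm]
          refine Finset.sum_congr rfl fun m' _ => ?_
          rw [← Finset.mul_sum, Finset.prod_univ_sum]
      _ = ∑ m' ∈ p.support, ((p.coeff m' : ℤ) : ℂ) * (if m' = m then (N : ℂ) ^ 3 else 0) := by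
          refine Finset.sum_congr rfl fun m' hm' => ?_
          congr 1
          have h1 : ∀ i, ∑ j ∈ range N, ((ζ ^ j) ^ m' i * (ζ ^ j) ^ (N - m i)) =
              if m' i = m i then (N : ℂ) else 0 := fun i =>
            root_sum hζ (hlt m' hm' i) (hlt m hm i)
          simp_rw [h1]
          split_ifs with he
          · subst he
            simp
          · obtain ⟨i, hi⟩ : ∃ i, m' i ≠ m i := by
              by_contra hcon
              push Not at hcon
              exact he (Finsupp.ext hcon)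
            exact Finset.prod_eq_zero (Finset.mem_univ i) (if_neg hi)
      _ = (N : ℂ) ^ 3 * ((p.coeff m : ℤ) : ℂ) := by
          rw [Finset.sum_eq_single m]
          · rw [if_pos rfl, mul_comm]
          · intro m' _ hne
            rw [if_neg hne, mul_zero]
          · intro h
            exact absurd hm h
  have hle : ‖(N : ℂ) ^ 3 * ((p.coeff m : ℤ) : ℂ)‖ ≤ (N : ℝ) ^ 3 * S := by
    rw [← hmain]
    refine (norm_sum_le _ _).trans ?_
    calc ∑ j ∈ Fintype.piFinset (fun _ : Fin 3 => range N),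
          ‖ev (fun i => ζ ^ j i) p * ∏ i, (ζ ^ j i) ^ (N - m i)‖
        ≤ ∑ _j ∈ Fintype.piFinset (fun _ : Fin 3 => range N), S := by
          refine Finset.sum_le_sum fun j _ => ?_
          rw [norm_mul, norm_prod]
          have h1 : ∏ i, ‖(ζ ^ j i) ^ (N - m i)‖ = 1 := by
            refine Finset.prod_eq_one fun i _ => ?_
            rw [norm_pow, norm_pow, hζ1, one_pow, one_pow]
          rw [h1, mul_one]
          refine hS _ fun i => ?_
          simp only [norm_pow, hζ1, one_pow]
      _ = (N : ℝ) ^ 3 * S := by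
          rw [Finset.sum_const, Fintype.card_piFinset]
          simp
  rw [norm_mul, norm_pow, Complex.norm_natCast] at hle
  have hpos : (0 : ℝ) < (N : ℝ) ^ 3 := by positivity
  exact le_of_mul_le_mul_left hle hpos

theorem coef_thm : S_COEF := by
  intro p d S hd hS
  have hS0 : 0 ≤ S := (norm_nonneg _).trans (hS (fun _ => 1) fun i => by simp)
  unfold Ln
  push_cast
  calc ∑ m ∈ p.support, (((p.coeff m).natAbs : ℕ) : ℝ) ≤ ∑ _m ∈ p.support, S := by
        refine Finset.sum_le_sum fun m hm => ?_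
        have := coef_bound p d S hd hS m hm
        rwa [Complex.norm_intCast, ← Int.cast_abs, ← Nat.cast_natAbs] at this
    _ = p.support.card * S := by rw [Finset.sum_const, nsmul_eq_mul]
    _ ≤ ((d : ℝ) + 1) ^ 3 * S := by
        refine mul_le_mul_of_nonneg_right ?_ hS0
        have := card_supp p d hd
        exact_mod_cast this

end Pool.Agent.R667.TP
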