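import Pool.Agent.R667.TP.Stm

/-! TP-COMB (MP_170125_pr): the combination of KEY, NC and COMM. -/

set_option autoImplicit false

open MeasureTheory Filter Topology

namespace Pool.Agent.R667.TP

theorem comb (hK : S_KEY) (hN : S_NC) (hC : S_COMM) : S_COMB := by
  obtain ⟨C, hC1, hK⟩ := hK
  refine ⟨C, hC1, ?_⟩
  intro n i hin LU hLU S hS hlt
  refine hC i S hS ?_
  intro v1 h1 v2 h2 v3 h3
  by_contra hne
  have hkap := hN _ _ hne
  have e : ∀ v : F2, FreeGroup.mk v.toWord = v := fun v => FreeGroup.mk_toWord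
  have hlen : ∀ v ∈ S, v.toWord.length = i := fun v hv => hS v hv
  have main := hK n i LU v1.toWord v2.toWord v3.toWord hin hLU (hlen v1 h1) (hlen v2 h2)
    (hlen v3 h3) (by rw [e, e, e]; exact hkap)
  rw [e, e, e] at main
  have l1 := hlt v1 h1
  have l2 := hlt v2 h2
  have l3 := hlt v3 h3
  have hex := Real.exp_pos (C * (i + 1) * Real.log (n + 2))
  set t1 : ℝ := (Ln (fr (FreeGroup.mk LU * v1)) : ℝ)
  set t2 : ℝ := (Ln (fr (FreeGroup.mk LU * v2)) : ℝ)
  set t3 : ℝ := (Ln (fr (FreeGroup.mk LU * v3)) : ℝ)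
  have m := main (max t1 (max t2 t3)) (le_max_left _ _)
    ((le_max_left _ _).trans (le_max_right _ _)) ((le_max_right _ _).trans (le_max_right _ _))
  rcases max_choice t1 (max t2 t3) with h | h
  · rw [h] at m
    exact absurd m (not_le.2 l1)
  · rw [h] at m
    rcases max_choice t2 t3 with h' | h'
    · rw [h'] at m
      exact absurd m (not_le.2 l2)
    · rw [h'] at m
      exact absurd m (not_le.2 l3)

end Pool.Agent.R667.TP
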