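import Pool.Agent.R667.TP.Stm

/-! TP-COMM: commuting differences in the free group (MP_170125_pr). -/

set_option autoImplicit false

namespace Pool.Agent.R667.TP

namespace CommAux

open FreeGroup

theorem cyc_ne (c : F2) (hc : c ≠ 1) : reduceCyclically c.toWord ≠ [] := by
  intro h
  apply hc
  have h1 := reduceCyclically.conj_conjugator_reduceCyclically c.toWord
  rw [h, List.append_nil] at h1
  have h2 : c = mk c.toWord := mk_toWord.symm
  rw [h2, ← h1, ← mul_mk, ← inv_mk, mul_inv_cancel]

theorem norm_pow_ge (c : F2) (hc : c ≠ 1) (n : ℕ) : n ≤ (c ^ n).norm := by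
  rw [FreeGroup.norm, toWord_pow, reduceCyclically.reduce_flatten_replicate isReduced_toWord]
  split_ifs with h
  · omega
  · have h1 : 1 ≤ (reduceCyclically c.toWord).length :=
      List.length_pos_of_ne_nil (cyc_ne c hc)
    have h2 : n ≤ n * (reduceCyclically c.toWord).length := Nat.le_mul_of_pos_right n h1
    simp only [List.length_append, List.length_flatten, List.map_replicate, List.sum_replicate,
      smul_eq_mul]
    omega

theorem norm_zpow_ge (c : F2) (hc : c ≠ 1) (k : ℤ) : |k| ≤ (c ^ k).norm := by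
  obtain ⟨n, rfl | rfl⟩ := k.eq_nat_or_neg
  · rw [zpow_natCast, Nat.abs_cast]
    exact_mod_cast norm_pow_ge c hc n
  · rw [zpow_neg, norm_inv_eq, zpow_natCast, abs_neg, Nat.abs_cast]
    exact_mod_cast norm_pow_ge c hc n

/-- a commutative subgroup of a free group is cyclic -/
theorem cyc_of_comm (H : Subgroup F2) (hcomm : ∀ x y : H, x * y = y * x) :
    ∃ c : F2, ∀ x ∈ H, ∃ k : ℤ, x = c ^ k := by
  have hsub : ∀ s t : IsFreeGroup.Generators H, s = t := by
    intro s t
    by_contra hst
    classical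
    let f : IsFreeGroup.Generators H → Equiv.Perm (Fin 3) :=
      fun u => if u = s then Equiv.swap 0 1 else Equiv.swap 1 2
    have h1 := congrArg (IsFreeGroup.lift f) (hcomm (IsFreeGroup.of s) (IsFreeGroup.of t))
    rw [_root_.map_mul, _root_.map_mul, IsFreeGroup.lift_of, IsFreeGroup.lift_of] at h1
    simp only [f, if_true, if_neg (Ne.symm hst)] at h1
    exact absurd h1 (by decide)
  have hcyc : ∃ c : H, ∀ x : H, ∃ k : ℤ, x = c ^ k := by
    let e := IsFreeGroup.toFreeGroup H
    by_cases hne : Nonempty (IsFreeGroup.Generators H)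
    · obtain ⟨s⟩ := hne
      refine ⟨e.symm (FreeGroup.of s), ?_⟩
      have h2 : ∀ w : FreeGroup (IsFreeGroup.Generators H), ∃ k : ℤ, w = FreeGroup.of s ^ k := by
        intro w
        induction w using FreeGroup.induction_on with
        | C1 => exact ⟨0, by simp⟩
        | of x => exact ⟨1, by rw [hsub x s]; simp⟩
        | inv_of x _ => exact ⟨-1, by rw [hsub x s]; simp⟩
        | mul x y hx hy =>
          obtain ⟨k, rfl⟩ := hx
          obtain ⟨l, rfl⟩ := hy
          exact ⟨k + l, by rw [_root_.zpow_add]⟩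
      intro x
      obtain ⟨k, hk⟩ := h2 (e x)
      refine ⟨k, ?_⟩
      rw [← map_zpow, ← hk, MulEquiv.symm_apply_apply]
    · refine ⟨1, fun x => ⟨0, ?_⟩⟩
      have h2 : ∀ w : FreeGroup (IsFreeGroup.Generators H), w = 1 := by
        intro w
        induction w using FreeGroup.induction_on with
        | C1 => rfl
        | of x => exact absurd ⟨x⟩ hne
        | inv_of x _ => exact absurd ⟨x⟩ hne
        | mul x y hx hy => rw [hx, hy, one_mul]
      have h3 := h2 (e x)
      rw [zpow_zero]
      exact e.injective (h3.trans (_root_.map_one e).symm)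
  obtain ⟨c, hc⟩ := hcyc
  refine ⟨c, fun x hx => ?_⟩
  obtain ⟨k, hk⟩ := hc ⟨x, hx⟩
  refine ⟨k, ?_⟩
  have := congrArg Subtype.val hk
  simpa using this

end CommAux

open CommAux in
theorem comm : S_COMM := by
  intro i S hn hcomm
  rcases S.eq_empty_or_nonempty with rfl | ⟨v1, hv1⟩
  · simp
  have hk : ∀ x ∈ ((fun v => v1⁻¹ * v) '' (S : Set F2)), ∀ y ∈ ((fun v => v1⁻¹ * v) '' (S : Set F2)),
      x * y = y * x := by
    rintro _ ⟨v2, h2, rfl⟩ _ ⟨v3, h3, rfl⟩
    exact hcomm v1 hv1 v2 h2 v3 h3
  have hcl := Subgroup.isMulCommutative_closure hk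
  obtain ⟨c, hc⟩ := cyc_of_comm (Subgroup.closure ((fun v => v1⁻¹ * v) '' (S : Set F2)))
    (fun x y => hcl.is_comm.comm x y)
  have hex : ∀ v ∈ S, ∃ k : ℤ, v1⁻¹ * v = c ^ k := fun v hv =>
    hc _ (Subgroup.subset_closure ⟨v, hv, rfl⟩)
  by_cases hc1 : c = 1
  · have : S ⊆ {v1} := by
      intro v hv
      obtain ⟨k, hk⟩ := hex v hv
      rw [hc1, one_zpow] at hk
      rw [Finset.mem_singleton]
      exact (inv_mul_eq_one.1 hk).symm
    have := Finset.card_le_card this
    rw [Finset.card_singleton] at this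
    omega
  · choose! k hk using hex
    have hmaps : ∀ v ∈ S, k v ∈ Finset.Icc (-(2 * i : ℤ)) (2 * i) := by
      intro v hv
      have h1 := norm_zpow_ge c hc1 (k v)
      rw [← hk v hv] at h1
      have h2 := FreeGroup.norm_mul_le v1⁻¹ v
      rw [FreeGroup.norm_inv_eq, hn v1 hv1, hn v hv] at h2
      have h3 : |k v| ≤ 2 * i := by
        refine h1.trans ?_
        have : ((v1⁻¹ * v).norm : ℤ) ≤ (i + i : ℕ) := by exact_mod_cast h2
        push_cast at this
        linarith
      rw [Finset.mem_Icc]
      exact abs_le.1 h3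
    have hinj : Set.InjOn k (S : Set F2) := by
      intro v hv v' hv' h
      have h1 := hk v hv
      have h2 := hk v' hv'
      rw [h, ← h2] at h1
      exact mul_left_cancel h1
    have hcard := Finset.card_le_card_of_injOn k hmaps hinj
    rw [Int.card_Icc] at hcard
    omega

end Pool.Agent.R667.TP
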