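import Pool.Agent.R667.TP.Stm

/-! TP-CRA (MP_170125_pr): Cramer rule in the basis `1, A, B, AB`. -/

set_option autoImplicit false

open MeasureTheory Filter Topology

namespace Pool.Agent.R667.TP

namespace CRA

/-- determinant of three rows -/
def d3 (u1 u2 u3 v1 v2 v3 w1 w2 w3 : ℂ) : ℂ :=
  u1 * (v2 * w3 - v3 * w2) - u2 * (v1 * w3 - v3 * w1) + u3 * (v1 * w2 - v2 * w1)

/-- determinant of four matrices -/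
def D4 (Y P Q R : Matrix (Fin 2) (Fin 2) ℂ) : ℂ :=
  Y 0 0 * d3 (P 1 0) (P 0 1) (P 1 1) (Q 1 0) (Q 0 1) (Q 1 1) (R 1 0) (R 0 1) (R 1 1) -
  Y 1 0 * d3 (P 0 0) (P 0 1) (P 1 1) (Q 0 0) (Q 0 1) (Q 1 1) (R 0 0) (R 0 1) (R 1 1) +
  Y 0 1 * d3 (P 0 0) (P 1 0) (P 1 1) (Q 0 0) (Q 1 0) (Q 1 1) (R 0 0) (R 1 0) (R 1 1) -
  Y 1 1 * d3 (P 0 0) (P 1 0) (P 0 1) (Q 0 0) (Q 1 0) (Q 0 1) (R 0 0) (R 1 0) (R 0 1)

lemma nmul {x y : ℂ} {a b : ℝ} (hx : ‖x‖ ≤ a) (hy : ‖y‖ ≤ b) : ‖x * y‖ ≤ a * b := by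
  rw [norm_mul]
  exact mul_le_mul hx hy (norm_nonneg _) ((norm_nonneg _).trans hx)

lemma nsub {x y : ℂ} {a b : ℝ} (hx : ‖x‖ ≤ a) (hy : ‖y‖ ≤ b) : ‖x - y‖ ≤ a + b :=
  (norm_sub_le _ _).trans (add_le_add hx hy)

lemma nadd {x y : ℂ} {a b : ℝ} (hx : ‖x‖ ≤ a) (hy : ‖y‖ ≤ b) : ‖x + y‖ ≤ a + b :=
  (norm_add_le _ _).trans (add_le_add hx hy)

lemma d3_le {u1 u2 u3 v1 v2 v3 w1 w2 w3 : ℂ} (h1 : ‖u1‖ ≤ 8) (h2 : ‖u2‖ ≤ 8) (h3 : ‖u3‖ ≤ 8)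
    (h4 : ‖v1‖ ≤ 8) (h5 : ‖v2‖ ≤ 8) (h6 : ‖v3‖ ≤ 8) (h7 : ‖w1‖ ≤ 8) (h8 : ‖w2‖ ≤ 8)
    (h9 : ‖w3‖ ≤ 8) : ‖d3 u1 u2 u3 v1 v2 v3 w1 w2 w3‖ ≤ 3072 := by
  unfold d3
  have := nadd (nsub (nmul h1 (nsub (nmul h5 h9) (nmul h6 h8)))
    (nmul h2 (nsub (nmul h4 h9) (nmul h6 h7)))) (nmul h3 (nsub (nmul h4 h8) (nmul h5 h7)))
  refine this.trans ?_
  norm_num

lemma D4_le {Y P Q R : Matrix (Fin 2) (Fin 2) ℂ} {y : ℝ} (hY : ∀ a b, ‖Y a b‖ ≤ y)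
    (hP : ∀ a b, ‖P a b‖ ≤ 8) (hQ : ∀ a b, ‖Q a b‖ ≤ 8) (hR : ∀ a b, ‖R a b‖ ≤ 8) :
    ‖D4 Y P Q R‖ ≤ 10 ^ 6 * y := by
  have hy : 0 ≤ y := (norm_nonneg _).trans (hY 0 0)
  unfold D4
  have h := nsub (nadd (nsub
    (nmul (hY 0 0) (d3_le (hP 1 0) (hP 0 1) (hP 1 1) (hQ 1 0) (hQ 0 1) (hQ 1 1) (hR 1 0) (hR 0 1)
      (hR 1 1)))
    (nmul (hY 1 0) (d3_le (hP 0 0) (hP 0 1) (hP 1 1) (hQ 0 0) (hQ 0 1) (hQ 1 1) (hR 0 0) (hR 0 1)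
      (hR 1 1))))
    (nmul (hY 0 1) (d3_le (hP 0 0) (hP 1 0) (hP 1 1) (hQ 0 0) (hQ 1 0) (hQ 1 1) (hR 0 0) (hR 1 0)
      (hR 1 1))))
    (nmul (hY 1 1) (d3_le (hP 0 0) (hP 1 0) (hP 0 1) (hQ 0 0) (hQ 1 0) (hQ 0 1) (hR 0 0) (hR 1 0)
      (hR 0 1)))
  refine h.trans ?_
  linarith

end CRA

open CRA

theorem cra : S_CRA := by
  intro A B Y c y hA hB hY hy
  have hev : ev (trc A B) kap0 = A.1.trace ^ 2 + B.1.trace ^ 2 + (A * B).1.trace ^ 2 -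
      A.1.trace * B.1.trace * (A * B).1.trace - 4 := by
    simp [ev, kap0, trc]
  have hAB : (A * B).1 = A.1 * B.1 := rfl
  have dA := A.2
  have dB := B.2
  rw [Matrix.det_fin_two] at dA dB
  have h1 : ∀ a b, ‖(1 : Matrix (Fin 2) (Fin 2) ℂ) a b‖ ≤ 8 := by
    intro a b
    rw [Matrix.one_apply]
    split_ifs <;> norm_num
  have hA' : ∀ a b, ‖A.1 a b‖ ≤ 8 := fun a b => (hA a b).trans (by norm_num)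
  have hB' : ∀ a b, ‖B.1 a b‖ ≤ 8 := fun a b => (hB a b).trans (by norm_num)
  have hAB' : ∀ a b, ‖(A.1 * B.1) a b‖ ≤ 8 := by
    intro a b
    rw [Matrix.mul_apply, Fin.sum_univ_two]
    refine (nadd (nmul (hA a 0) (hB 0 b)) (nmul (hA a 1) (hB 1 b))).trans ?_
    norm_num
  have hYe : ∀ a b, Y a b = c 0 * (1 : Matrix (Fin 2) (Fin 2) ℂ) a b + c 1 * A.1 a b +
      c 2 * B.1 a b + c 3 * (A.1 * B.1) a b := by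
    intro a b
    rw [hY, Fin.sum_univ_four]
    simp [Eb, Matrix.add_apply, Matrix.smul_apply]
  have hY00 := hYe 0 0
  have hY01 := hYe 0 1
  have hY10 := hYe 1 0
  have hY11 := hYe 1 1
  simp only [Matrix.mul_apply, Fin.sum_univ_two, Matrix.one_apply_eq, ne_eq, zero_ne_one,
    not_false_eq_true, Matrix.one_apply_ne, one_ne_zero, mul_one, mul_zero] at hY00 hY01 hY10 hY11
  rw [hev, hAB, Matrix.trace_fin_two, Matrix.trace_fin_two, Matrix.trace_fin_two]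
  simp only [Matrix.mul_apply, Fin.sum_univ_two]
  have key0 : (((A.1 0 0 + A.1 1 1) ^ 2 + (B.1 0 0 + B.1 1 1) ^ 2 +
      (A.1 0 0 * B.1 0 0 + A.1 0 1 * B.1 1 0 + (A.1 1 0 * B.1 0 1 + A.1 1 1 * B.1 1 1)) ^ 2 -
      (A.1 0 0 + A.1 1 1) * (B.1 0 0 + B.1 1 1) *
        (A.1 0 0 * B.1 0 0 + A.1 0 1 * B.1 1 0 + (A.1 1 0 * B.1 0 1 + A.1 1 1 * B.1 1 1)) - 4) *
      c 0) = D4 Y A.1 B.1 (A.1 * B.1) := by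
    unfold D4 d3
    rw [hY00, hY01, hY10, hY11]
    simp only [Matrix.mul_apply, Fin.sum_univ_two]
    linear_combination c 0 * (-(A.1 0 0 + A.1 1 1) ^ 2 + 4 * (A.1 0 0 * A.1 1 1 -
      A.1 0 1 * A.1 1 0)) * dB + c 0 * (-(B.1 0 0 + B.1 1 1) ^ 2 + 4) * dA
  have key1 : (((A.1 0 0 + A.1 1 1) ^ 2 + (B.1 0 0 + B.1 1 1) ^ 2 +
      (A.1 0 0 * B.1 0 0 + A.1 0 1 * B.1 1 0 + (A.1 1 0 * B.1 0 1 + A.1 1 1 * B.1 1 1)) ^ 2 -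
      (A.1 0 0 + A.1 1 1) * (B.1 0 0 + B.1 1 1) *
        (A.1 0 0 * B.1 0 0 + A.1 0 1 * B.1 1 0 + (A.1 1 0 * B.1 0 1 + A.1 1 1 * B.1 1 1)) - 4) *
      c 1) = -D4 Y 1 B.1 (A.1 * B.1) := by
    unfold D4 d3
    rw [hY00, hY01, hY10, hY11]
    simp only [Matrix.mul_apply, Fin.sum_univ_two, Matrix.one_apply_eq, ne_eq, zero_ne_one,
      not_false_eq_true, Matrix.one_apply_ne, one_ne_zero]
    linear_combination c 1 * (-(A.1 0 0 + A.1 1 1) ^ 2 + 4 * (A.1 0 0 * A.1 1 1 -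
      A.1 0 1 * A.1 1 0)) * dB + c 1 * (-(B.1 0 0 + B.1 1 1) ^ 2 + 4) * dA
  have key2 : (((A.1 0 0 + A.1 1 1) ^ 2 + (B.1 0 0 + B.1 1 1) ^ 2 +
      (A.1 0 0 * B.1 0 0 + A.1 0 1 * B.1 1 0 + (A.1 1 0 * B.1 0 1 + A.1 1 1 * B.1 1 1)) ^ 2 -
      (A.1 0 0 + A.1 1 1) * (B.1 0 0 + B.1 1 1) *
        (A.1 0 0 * B.1 0 0 + A.1 0 1 * B.1 1 0 + (A.1 1 0 * B.1 0 1 + A.1 1 1 * B.1 1 1)) - 4) *
      c 2) = D4 Y 1 A.1 (A.1 * B.1) := by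
    unfold D4 d3
    rw [hY00, hY01, hY10, hY11]
    simp only [Matrix.mul_apply, Fin.sum_univ_two, Matrix.one_apply_eq, ne_eq, zero_ne_one,
      not_false_eq_true, Matrix.one_apply_ne, one_ne_zero]
    linear_combination c 2 * (-(A.1 0 0 + A.1 1 1) ^ 2 + 4 * (A.1 0 0 * A.1 1 1 -
      A.1 0 1 * A.1 1 0)) * dB + c 2 * (-(B.1 0 0 + B.1 1 1) ^ 2 + 4) * dA
  have key3 : (((A.1 0 0 + A.1 1 1) ^ 2 + (B.1 0 0 + B.1 1 1) ^ 2 +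
      (A.1 0 0 * B.1 0 0 + A.1 0 1 * B.1 1 0 + (A.1 1 0 * B.1 0 1 + A.1 1 1 * B.1 1 1)) ^ 2 -
      (A.1 0 0 + A.1 1 1) * (B.1 0 0 + B.1 1 1) *
        (A.1 0 0 * B.1 0 0 + A.1 0 1 * B.1 1 0 + (A.1 1 0 * B.1 0 1 + A.1 1 1 * B.1 1 1)) - 4) *
      c 3) = -D4 Y 1 A.1 B.1 := by
    unfold D4 d3
    rw [hY00, hY01, hY10, hY11]
    simp only [Matrix.one_apply_eq, ne_eq, zero_ne_one,
      not_false_eq_true, Matrix.one_apply_ne, one_ne_zero]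
    linear_combination c 3 * (-(A.1 0 0 + A.1 1 1) ^ 2 + 4 * (A.1 0 0 * A.1 1 1 -
      A.1 0 1 * A.1 1 0)) * dB + c 3 * (-(B.1 0 0 + B.1 1 1) ^ 2 + 4) * dA
  intro i
  fin_cases i
  · show ‖_ * c 0‖ ≤ _
    rw [key0]
    exact D4_le hy hA' hB' hAB'
  · show ‖_ * c 1‖ ≤ _
    rw [key1, norm_neg]
    exact D4_le hy h1 hB' hAB'
  · show ‖_ * c 2‖ ≤ _
    rw [key2]
    exact D4_le hy h1 hA' hAB'
  · show ‖_ * c 3‖ ≤ _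
    rw [key3, norm_neg]
    exact D4_le hy h1 hA' hB'

end Pool.Agent.R667.TP
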