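import Pool.Agent.R667.TP.Stm

/-! Trace polynomials of random words (MP_170125_pr): piece DEG (helper92), degree bounds. -/

set_option autoImplicit false

open MvPolynomial

namespace Pool.Agent.R667.TP.DEG

variable {k : Fin 3} {d e : ℕ} {p q : Rg}

lemma dadd (hp : p.degreeOf k ≤ d) (hq : q.degreeOf k ≤ d) : (p + q).degreeOf k ≤ d :=
  (degreeOf_add_le k p q).trans (max_le hp hq)

lemma dneg (hp : p.degreeOf k ≤ d) : (-p).degreeOf k ≤ d := by
  rw [degreeOf_eq_sup, support_neg, ← degreeOf_eq_sup]; exact hp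

lemma dsub (hp : p.degreeOf k ≤ d) (hq : q.degreeOf k ≤ d) : (p - q).degreeOf k ≤ d := by
  rw [sub_eq_add_neg]; exact dadd hp (dneg hq)

lemma dmul (hp : p.degreeOf k ≤ d) (hq : q.degreeOf k ≤ e) : (p * q).degreeOf k ≤ d + e :=
  (degreeOf_mul_le k p q).trans (add_le_add hp hq)

lemma dX (j : Fin 3) : (X j : Rg).degreeOf k ≤ 1 := by
  rw [degreeOf_X]; split_ifs <;> omega

lemma d0 : (0 : Rg).degreeOf k ≤ d := by rw [degreeOf_zero]; exact Nat.zero_le _

lemma d1 : (1 : Rg).degreeOf k ≤ d := by rw [degreeOf_one]; exact Nat.zero_le _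

lemma dXX : (X 2 - X 0 * X 1 : Rg).degreeOf k ≤ 1 := by
  refine dsub (dX 2) ?_
  refine (degreeOf_mul_le k _ _).trans ?_
  rw [degreeOf_X, degreeOf_X]
  fin_cases k <;> simp

lemma La_deg (i j : Fin 4) : (La i j).degreeOf k ≤ 1 := by
  fin_cases i <;> fin_cases j
  exacts [d0, dneg d1, d0, d0, d1, dX 0, d0, d0, d0, d0, d0, dneg d1, d0, d0, d1, dX 0]

lemma La'_deg (i j : Fin 4) : (La' i j).degreeOf k ≤ 1 := by
  fin_cases i <;> fin_cases j
  exacts [dX 0, d1, d0, d0, dneg d1, d0, d0, d0, d0, d0, dX 0, d1, d0, d0, dneg d1, d0]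

lemma Lb_deg (i j : Fin 4) : (Lb i j).degreeOf k ≤ 1 := by
  fin_cases i <;> fin_cases j
  exacts [d0, dXX, dneg d1, dneg (dX 0), d0, dX 1, d0, d1, d1, dX 0, dX 1, dX 2,
    d0, dneg d1, d0, d0]

lemma Lb'_deg (i j : Fin 4) : (Lb' i j).degreeOf k ≤ 1 := by
  fin_cases i <;> fin_cases j
  exacts [dX 1, dneg dXX, d1, dX 0, d0, d0, d0, dneg d1, dneg d1, dneg (dX 0), d0, dneg (dX 2),
    d0, d1, d0, dX 1]

lemma Mw_mul (u v : F2) : Mw (u * v) = Mw u * Mw v := by
  unfold Mw; rw [map_mul, Units.val_mul]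

lemma Mw_one : Mw (1 : F2) = 1 := by
  unfold Mw; rw [map_one, Units.val_one]

lemma letter_deg (l : Letter) (i j : Fin 4) : (Mw (FreeGroup.mk [l]) i j).degreeOf k ≤ 1 := by
  obtain ⟨x, b⟩ := l
  have h : Mw (FreeGroup.mk [(x, b)]) = ((cond b ((![uA, uB] : Fin 2 → _) x)
      ((![uA, uB] : Fin 2 → _) x)⁻¹ : (Matrix (Fin 4) (Fin 4) Rg)ˣ) : Matrix (Fin 4) (Fin 4) Rg) := by
    unfold Mw Mrep
    rw [FreeGroup.lift_mk]
    simp
  rw [h]
  fin_cases x <;> cases b
  · exact La'_deg i j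
  · exact La_deg i j
  · exact Lb'_deg i j
  · exact Lb_deg i j

lemma word_deg (L : List Letter) (i j : Fin 4) : (Mw (FreeGroup.mk L) i j).degreeOf k ≤ L.length := by
  induction L generalizing i j with
  | nil =>
    have : Mw (FreeGroup.mk []) = 1 := Mw_one
    rw [this, Matrix.one_apply]
    split_ifs
    · exact d1
    · exact d0
  | cons l L ih =>
    have h : (FreeGroup.mk (l :: L) : F2) = FreeGroup.mk [l] * FreeGroup.mk L := by
      rw [FreeGroup.mul_mk]; rfl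
    rw [h, Mw_mul, Matrix.mul_apply]
    refine (degreeOf_sum_le k _ _).trans ?_
    refine Finset.sup_le fun m _ => ?_
    rw [List.length_cons, add_comm]
    exact dmul (letter_deg l i m) (ih m j)

theorem deg : S_DEG := by
  intro L k
  refine ⟨fun i j => word_deg L i j, ?_⟩
  unfold fr
  have h2 : (2 : Rg).degreeOf k ≤ 0 := by
    have : (2 : Rg) = C 2 := by simp
    rw [this, degreeOf_C]
  have hx : ∀ j m, (X j * Mw (FreeGroup.mk L) m 0 : Rg).degreeOf k ≤ L.length + 1 := by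
    intro j m
    rw [add_comm]
    exact dmul (dX j) (word_deg L m 0)
  refine dadd (dadd (dadd ?_ (hx 0 1)) (hx 1 2)) (hx 2 3)
  have := dmul h2 (word_deg (k := k) L 0 0)
  omega

end Pool.Agent.R667.TP.DEG
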