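import Pool.Agent.R667.TP.Stm

/-! Trace polynomials of random words (MP_170125_pr): piece DIV (helper92), division lemma. -/

set_option autoImplicit false

open Polynomial

namespace Pool.Agent.R667.TP.DIV

lemma iter_deriv (g : ℂ[X]) (j : ℕ) :
    iteratedDeriv j (fun z => g.eval z) = fun z => (derivative^[j] g).eval z := by
  induction j with
  | zero => simp
  | succ j ih =>
    rw [iteratedDeriv_succ, ih]
    funext z
    rw [Function.iterate_succ_apply', Polynomial.deriv]

lemma coeff_le (g : ℂ[X]) (S : ℝ) (h : ∀ t : ℂ, ‖t‖ = 1 → ‖g.eval t‖ ≤ S) (j : ℕ) :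
    ‖g.coeff j‖ ≤ S := by
  have h1 := Complex.norm_iteratedDeriv_le_of_forall_mem_sphere_norm_le (c := 0) (R := 1)
    (C := S) (f := fun z => g.eval z) j one_pos g.differentiable.diffContOnCl
    (by intro z hz; apply h; simpa using hz)
  rw [iter_deriv] at h1
  simp only [one_pow, div_one] at h1
  rw [← coeff_zero_eq_eval_zero, coeff_iterate_derivative, zero_add, Nat.descFactorial_self,
    nsmul_eq_mul, norm_mul, Complex.norm_natCast] at h1
  have hf : (0 : ℝ) < (j.factorial : ℝ) := by exact_mod_cast Nat.factorial_pos j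
  exact le_of_mul_le_mul_left h1 hf

lemma one_var (q : ℂ[X]) (m : ℕ) (hq : q.natDegree ≤ m) (α : ℂ) (S : ℝ)
    (h : ∀ t : ℂ, ‖t‖ = 1 → ‖(t - α) * q.eval t‖ ≤ S) (t : ℂ) (ht : ‖t‖ = 1) :
    ‖q.eval t‖ ≤ ((m : ℝ) + 1) ^ 2 * S := by
  obtain ⟨g, hgdef⟩ : ∃ g, g = (X - C α) * q := ⟨_, rfl⟩
  have hg : ∀ j, ‖g.coeff j‖ ≤ S := coeff_le g S (by
    intro t ht
    have := h t ht
    rw [hgdef, eval_mul, eval_sub, eval_X, eval_C]; exact this)
  have hS : 0 ≤ S := (norm_nonneg _).trans (hg 0)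
  have hrec : ∀ k, g.coeff (k + 1) = q.coeff k - α * q.coeff (k + 1) := by
    intro k
    rw [hgdef, sub_mul, coeff_sub, coeff_X_mul, coeff_C_mul]
  have h0 : g.coeff 0 = -(α * q.coeff 0) := by
    rw [hgdef, sub_mul, coeff_sub, coeff_C_mul, mul_coeff_zero, coeff_X_zero]
    ring
  have hk : ∀ k, k ≤ m → ‖q.coeff k‖ ≤ ((m : ℝ) + 1) * S := by
    rcases le_total ‖α‖ 1 with ha | ha
    · have key : ∀ j k, k + j = m + 1 → ‖q.coeff k‖ ≤ (j : ℝ) * S := by
        intro j
        induction j with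
        | zero =>
          intro k hk
          rw [coeff_eq_zero_of_natDegree_lt (by omega)]; simp
        | succ j ih =>
          intro k hk
          have e : q.coeff k = g.coeff (k + 1) + α * q.coeff (k + 1) := by rw [hrec k]; ring
          rw [e]
          calc ‖g.coeff (k + 1) + α * q.coeff (k + 1)‖
              ≤ ‖g.coeff (k + 1)‖ + ‖α‖ * ‖q.coeff (k + 1)‖ := by
                rw [← norm_mul]; exact norm_add_le _ _
            _ ≤ S + 1 * (j * S) :=
                add_le_add (hg _) (mul_le_mul ha (ih (k + 1) (by omega)) (norm_nonneg _) zero_le_one)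
            _ = ((j + 1 : ℕ) : ℝ) * S := by push_cast; ring
      intro k hkm
      refine (key (m + 1 - k) k (by omega)).trans ?_
      apply mul_le_mul_of_nonneg_right _ hS
      have : m + 1 - k ≤ m + 1 := Nat.sub_le _ _
      exact_mod_cast this
    · have key : ∀ k : ℕ, ‖q.coeff k‖ ≤ ((k : ℝ) + 1) * S := by
        intro k
        induction k with
        | zero =>
          have h1 : ‖α‖ * ‖q.coeff 0‖ ≤ S := by
            rw [← norm_mul, ← norm_neg, ← h0]; exact hg 0
          have h2 : ‖q.coeff 0‖ ≤ ‖α‖ * ‖q.coeff 0‖ := le_mul_of_one_le_left (norm_nonneg _) ha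
          simpa using h2.trans h1
        | succ k ih =>
          have e : α * q.coeff (k + 1) = q.coeff k - g.coeff (k + 1) := by rw [hrec k]; ring
          have h1 : ‖α‖ * ‖q.coeff (k + 1)‖ ≤ ((k : ℝ) + 1) * S + S := by
            rw [← norm_mul, e]; exact (norm_sub_le _ _).trans (add_le_add ih (hg _))
          have h2 : ‖q.coeff (k + 1)‖ ≤ ‖α‖ * ‖q.coeff (k + 1)‖ :=
            le_mul_of_one_le_left (norm_nonneg _) ha
          refine (h2.trans h1).trans (le_of_eq ?_)
          push_cast; ring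
      intro k hkm
      refine (key k).trans ?_
      apply mul_le_mul_of_nonneg_right _ hS
      have : (k : ℝ) ≤ m := by exact_mod_cast hkm
      linarith
  rw [eval_eq_sum_range' (Nat.lt_succ_of_le hq)]
  refine (norm_sum_le _ _).trans ?_
  calc ∑ i ∈ Finset.range m.succ, ‖q.coeff i * t ^ i‖
      ≤ ∑ _i ∈ Finset.range m.succ, ((m : ℝ) + 1) * S := by
        apply Finset.sum_le_sum
        intro i hi
        rw [norm_mul, norm_pow, ht, one_pow, mul_one]
        exact hk i (Nat.lt_succ_iff.mp (Finset.mem_range.mp hi))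
    _ = ((m : ℝ) + 1) ^ 2 * S := by
        rw [Finset.sum_const, Finset.card_range, nsmul_eq_mul]; push_cast; ring

lemma multi (s : Multiset ℂ) : ∀ (q : ℂ[X]) (m : ℕ), q.natDegree ≤ m → ∀ S : ℝ,
    (∀ t : ℂ, ‖t‖ = 1 → ‖(s.map fun a => t - a).prod * q.eval t‖ ≤ S) →
    ∀ t : ℂ, ‖t‖ = 1 → ‖q.eval t‖ ≤ ((m : ℝ) + Multiset.card s) ^ (2 * Multiset.card s) * S := by
  induction s using Multiset.induction_on with
  | empty =>
    intro q m _ S h t ht
    simpa using h t ht
  | cons a s ih =>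
    intro q m hq S h t ht
    have hS : 0 ≤ S := (norm_nonneg _).trans (h t ht)
    have hdeg : ((X - C a) * q).natDegree ≤ m + 1 := by
      refine natDegree_mul_le.trans ?_
      rw [natDegree_X_sub_C, add_comm]
      exact Nat.add_le_add_right hq 1
    have h1 := ih ((X - C a) * q) (m + 1) hdeg S (by
      intro t ht
      have := h t ht
      rw [Multiset.map_cons, Multiset.prod_cons] at this
      rw [eval_mul, eval_sub, eval_X, eval_C]
      rwa [← mul_assoc, mul_comm (Multiset.prod _) (t - a)])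
    have h2 := one_var q m hq a _ (by
      intro t ht
      have := h1 t ht
      rwa [eval_mul, eval_sub, eval_X, eval_C] at this) t ht
    refine h2.trans ?_
    rw [Multiset.card_cons, ← mul_assoc]
    apply mul_le_mul_of_nonneg_right _ hS
    push_cast
    have e : 2 * (Multiset.card s + 1) = 2 + 2 * Multiset.card s := by ring
    rw [e, pow_add]
    have hc : (0 : ℝ) ≤ (Multiset.card s : ℝ) := Nat.cast_nonneg _
    have hm : (0 : ℝ) ≤ (m : ℝ) := Nat.cast_nonneg _
    apply mul_le_mul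
    · apply pow_le_pow_left₀ (by linarith); linarith
    · apply pow_le_pow_left₀ (by linarith); linarith
    · positivity
    · positivity

lemma lead (F0 q : ℂ[X]) (d D n : ℕ) (hd : F0.natDegree ≤ d) (hdD : d ≤ D) (hq : q.natDegree ≤ n)
    (S : ℝ) (h : ∀ t : ℂ, ‖t‖ = 1 → ‖F0.eval t * q.eval t‖ ≤ S) (t : ℂ) (ht : ‖t‖ = 1) :
    ‖F0.coeff d * q.eval t‖ ≤ ((n : ℝ) + D + 1) ^ (2 * D) * S := by
  have hS : 0 ≤ S := (norm_nonneg _).trans (h t ht)
  by_cases h0 : F0.coeff d = 0
  · rw [h0, zero_mul, norm_zero]; positivity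
  have hdeg : F0.natDegree = d := le_antisymm hd (le_natDegree_of_ne_zero h0)
  have hsp : F0.Splits := IsAlgClosed.splits F0
  have hcard : Multiset.card F0.roots = d := by rw [← hsp.natDegree_eq_card_roots, hdeg]
  have hlc : F0.leadingCoeff = F0.coeff d := by rw [leadingCoeff, hdeg]
  have hq' : (C (F0.coeff d) * q).natDegree ≤ n := (natDegree_C_mul_le _ _).trans hq
  have h1 := multi F0.roots (C (F0.coeff d) * q) n hq' S (by
    intro t ht
    have := h t ht
    rw [hsp.eval_eq_prod_roots, hlc] at this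
    rw [eval_mul, eval_C]
    have e : (F0.roots.map fun a => t - a).prod * (F0.coeff d * q.eval t) =
      F0.coeff d * (F0.roots.map fun a => t - a).prod * q.eval t := by ring
    rw [e]
    exact this) t ht
  rw [eval_mul, eval_C, hcard] at h1
  refine h1.trans ?_
  apply mul_le_mul_of_nonneg_right _ hS
  have hd' : (d : ℝ) ≤ D := by exact_mod_cast hdD
  have hn : (0 : ℝ) ≤ n := Nat.cast_nonneg _
  have hD : (0 : ℝ) ≤ D := Nat.cast_nonneg _
  have hd0 : (0 : ℝ) ≤ d := Nat.cast_nonneg _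
  calc ((n : ℝ) + d) ^ (2 * d) ≤ ((n : ℝ) + D + 1) ^ (2 * d) := by
        apply pow_le_pow_left₀ (by linarith); linarith
    _ ≤ ((n : ℝ) + D + 1) ^ (2 * D) := by
        apply pow_le_pow_right₀ (by linarith); omega

/-- a polynomial of degree at most `n` in each variable separately -/
def Sep (N n : ℕ) (p : (Fin N → ℂ) → ℂ) : Prop :=
  ∀ (i : Fin N) (ξ : Fin N → ℂ), ∃ q : ℂ[X], q.natDegree ≤ n ∧
    ∀ t, p (Function.update ξ i t) = q.eval t

lemma aeval_cons {N : ℕ} (F : MvPolynomial (Fin (N + 1)) ℤ) (t : ℂ) (η : Fin N → ℂ) :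
    MvPolynomial.aeval (Fin.cons t η : Fin (N + 1) → ℂ) F =
      ((MvPolynomial.finSuccEquiv ℤ N F).map
        ((MvPolynomial.aeval η : MvPolynomial (Fin N) ℤ →ₐ[ℤ] ℂ) : MvPolynomial (Fin N) ℤ →+* ℂ)).eval t := by
  have h : ((MvPolynomial.aeval (Fin.cons t η : Fin (N + 1) → ℂ) :
      MvPolynomial (Fin (N + 1)) ℤ →ₐ[ℤ] ℂ) : MvPolynomial (Fin (N + 1)) ℤ →+* ℂ) =
      ((evalRingHom t).comp (mapRingHom
        ((MvPolynomial.aeval η : MvPolynomial (Fin N) ℤ →ₐ[ℤ] ℂ) :
          MvPolynomial (Fin N) ℤ →+* ℂ))).comp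
        ((MvPolynomial.finSuccEquiv ℤ N : MvPolynomial (Fin (N + 1)) ℤ →+* _)) := by
    apply MvPolynomial.ringHom_ext
    · intro r; simp
    · intro i
      refine Fin.cases ?_ (fun j => ?_) i
      · simp [MvPolynomial.finSuccEquiv_X_zero]
      · simp [MvPolynomial.finSuccEquiv_X_succ]
  exact RingHom.congr_fun h F

theorem main (N : ℕ) : ∀ (F : MvPolynomial (Fin N) ℤ) (D n : ℕ) (p : (Fin N → ℂ) → ℂ), F ≠ 0 →
    (∀ k, F.degreeOf k ≤ D) → Sep N n p → ∀ K : ℝ,
    (∀ ξ : Fin N → ℂ, (∀ i, ‖ξ i‖ = 1) → ‖MvPolynomial.aeval ξ F * p ξ‖ ≤ K) →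
    ∀ ξ : Fin N → ℂ, (∀ i, ‖ξ i‖ = 1) → ‖p ξ‖ ≤ ((n : ℝ) + D + 1) ^ (2 * D * N) * K := by
  induction N with
  | zero =>
    intro F D n p hF _ _ K h ξ hξ
    have h1 := h ξ hξ
    rw [MvPolynomial.eq_C_of_isEmpty F] at h1 hF
    have hc : MvPolynomial.coeff 0 F ≠ 0 := by
      intro h0; apply hF; rw [h0, MvPolynomial.C_0]
    rw [MvPolynomial.aeval_C, norm_mul] at h1
    have h2 : (1 : ℝ) ≤ ‖(algebraMap ℤ ℂ) (MvPolynomial.coeff 0 F)‖ := by
      rw [eq_intCast, Complex.norm_intCast]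
      exact_mod_cast Int.one_le_abs hc
    rw [mul_zero, pow_zero, one_mul]
    refine le_trans ?_ h1
    exact le_mul_of_one_le_left (norm_nonneg _) h2
  | succ N ih =>
    intro F D n p hF hdeg hsep K h ξ hξ
    obtain ⟨t, η, rfl⟩ : ∃ t η, ξ = (Fin.cons t η : Fin (N + 1) → ℂ) :=
      ⟨ξ 0, Fin.tail ξ, (Fin.cons_self_tail ξ).symm⟩
    have ht : ‖t‖ = 1 := by simpa using hξ 0
    have hη : ∀ i, ‖η i‖ = 1 := fun i => by simpa using hξ i.succ
    set G := MvPolynomial.finSuccEquiv ℤ N F with hG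
    have hG0 : G ≠ 0 := by
      rw [hG]; intro h0; apply hF
      exact (map_eq_zero_iff _ (MvPolynomial.finSuccEquiv ℤ N).injective).mp h0
    have hlc : G.leadingCoeff ≠ 0 := leadingCoeff_ne_zero.mpr hG0
    have hGd : G.natDegree ≤ D := by
      rw [hG, MvPolynomial.natDegree_finSuccEquiv]; exact hdeg 0
    have hFk : ∀ k, G.leadingCoeff.degreeOf k ≤ D := by
      intro k
      rw [leadingCoeff, hG]
      exact (MvPolynomial.degreeOf_coeff_finSuccEquiv F k _).trans (hdeg k.succ)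
    have hsep' : Sep N n (fun η => p (Fin.cons t η)) := by
      intro i η'
      obtain ⟨q, hq, hq'⟩ := hsep i.succ (Fin.cons t η')
      refine ⟨q, hq, fun s => ?_⟩
      rw [← hq', ← Fin.cons_update]
    have key : ∀ η' : Fin N → ℂ, (∀ i, ‖η' i‖ = 1) →
        ‖MvPolynomial.aeval η' G.leadingCoeff * p (Fin.cons t η')‖ ≤
          ((n : ℝ) + D + 1) ^ (2 * D) * K := by
      intro η' hη'
      obtain ⟨q, hq, hq'⟩ := hsep 0 (Fin.cons 0 η')
      have hq2 : ∀ s, p (Fin.cons s η') = q.eval s := by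
        intro s; rw [← hq', Fin.update_cons_zero]
      have hd : (G.map ((MvPolynomial.aeval η' : MvPolynomial (Fin N) ℤ →ₐ[ℤ] ℂ) :
          MvPolynomial (Fin N) ℤ →+* ℂ)).natDegree ≤ G.natDegree := natDegree_map_le
      have h3 := lead (G.map ((MvPolynomial.aeval η' : MvPolynomial (Fin N) ℤ →ₐ[ℤ] ℂ) :
          MvPolynomial (Fin N) ℤ →+* ℂ)) q G.natDegree D n hd hGd hq K (by
        intro s hs
        rw [hG, ← aeval_cons, ← hq2]
        apply h
        intro i
        refine Fin.cases ?_ (fun j => ?_) i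
        · simpa using hs
        · simpa using hη' j) t ht
      rw [coeff_map, ← hq2] at h3
      exact h3
    have h4 := ih G.leadingCoeff D n (fun η => p (Fin.cons t η)) hlc hFk hsep' _ key η hη
    refine h4.trans (le_of_eq ?_)
    have e : 2 * D * (N + 1) = 2 * D * N + 2 * D := by ring
    rw [← mul_assoc, ← pow_add, e]

lemma sep_of (p : Rg) (n : ℕ) (hp : ∀ k, p.degreeOf k ≤ n) : Sep 3 n (fun ξ => ev ξ p) := by
  intro i ξ
  refine ⟨∑ m ∈ p.support, C (((MvPolynomial.coeff m p : ℤ) : ℂ) * ∏ j ∈ Finset.univ.erase i, ξ j ^ m j) * X ^ (m i),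
    ?_, ?_⟩
  · apply natDegree_sum_le_of_forall_le
    intro m hm
    refine (natDegree_C_mul_X_pow_le _ _).trans ?_
    exact (MvPolynomial.degreeOf_le_iff.mp (hp i)) m hm
  · intro t
    simp only [ev]
    rw [MvPolynomial.aeval_def, MvPolynomial.eval₂_eq', eval_finsetSum]
    apply Finset.sum_congr rfl
    intro m _
    rw [eval_mul, eval_C, eval_pow, eval_X, ← Finset.mul_prod_erase Finset.univ _ (Finset.mem_univ i),
      Function.update_self]
    have : ∏ j ∈ Finset.univ.erase i, (Function.update ξ i t) j ^ m j =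
        ∏ j ∈ Finset.univ.erase i, ξ j ^ m j := by
      apply Finset.prod_congr rfl
      intro j hj
      rw [Function.update_of_ne (Finset.ne_of_mem_erase hj)]
    rw [this]
    simp only [algebraMap_int_eq, eq_intCast]
    ring

theorem div : S_DIV := by
  intro F p D n K hF hFd hp h ξ hξ
  have := main 3 F D n (fun ξ => ev ξ p) hF hFd (sep_of p n hp) K h ξ hξ
  have e : 2 * D * 3 = 6 * D := by ring
  rw [e] at this
  exact this

end Pool.Agent.R667.TP.DIV
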