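import Mathlib

/-! Trace polynomials of random words (MP_170125_pr): definitions. -/

set_option autoImplicit false

open MeasureTheory Filter Topology

namespace Pool.Agent.R667.TP

/-- letters: `(0, true)` is `a`, `(1, true)` is `b`, `(i, false)` is the inverse of `(i, true)` -/
abbrev Letter := Fin 2 × Bool

/-- the inverse letter -/
def invL (l : Letter) : Letter := (l.1, !l.2)

/-- the free group on `a, b` -/
abbrev F2 := FreeGroup (Fin 2)

/-- the group element spelled by the first `n` letters of a sequence -/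
def wd (x : ℕ → Letter) (n : ℕ) : F2 := FreeGroup.mk ((List.range n).map x)

/-- integer polynomials in `x = X 0, y = X 1, z = X 2` -/
abbrev Rg := MvPolynomial (Fin 3) ℤ

abbrev SL := Matrix.SpecialLinearGroup (Fin 2) ℂ

/-- the matrix `w(A, B)` -/
noncomputable def wordAt (w : F2) (A B : SL) : SL := FreeGroup.lift ![A, B] w

/-- `f` is a trace polynomial of `w` -/
def IsFricke (w : F2) (f : Rg) : Prop :=
  ∀ A B : SL, (wordAt w A B).1.trace =
    MvPolynomial.aeval ![A.1.trace, B.1.trace, (A * B).1.trace] f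

/-- the largest absolute value of a coefficient -/
noncomputable def Ht (f : Rg) : ℕ := f.support.sup fun m => (f.coeff m).natAbs

/-- the sum of the absolute values of the coefficients -/
noncomputable def Ln (f : Rg) : ℕ := ∑ m ∈ f.support, (f.coeff m).natAbs

/-- left multiplication by `a` in the basis `1, a, b, ab` -/
noncomputable def La : Matrix (Fin 4) (Fin 4) Rg :=
  !![0, -1, 0, 0; 1, MvPolynomial.X 0, 0, 0; 0, 0, 0, -1; 0, 0, 1, MvPolynomial.X 0]

/-- left multiplication by `b` in the basis `1, a, b, ab` -/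
noncomputable def Lb : Matrix (Fin 4) (Fin 4) Rg :=
  !![0, MvPolynomial.X 2 - MvPolynomial.X 0 * MvPolynomial.X 1, -1, -MvPolynomial.X 0;
    0, MvPolynomial.X 1, 0, 1;
    1, MvPolynomial.X 0, MvPolynomial.X 1, MvPolynomial.X 2;
    0, -1, 0, 0]

/-- left multiplication by the inverse of `a` -/
noncomputable def La' : Matrix (Fin 4) (Fin 4) Rg :=
  !![MvPolynomial.X 0, 1, 0, 0; -1, 0, 0, 0; 0, 0, MvPolynomial.X 0, 1; 0, 0, -1, 0]

/-- left multiplication by the inverse of `b` -/
noncomputable def Lb' : Matrix (Fin 4) (Fin 4) Rg :=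
  !![MvPolynomial.X 1, -(MvPolynomial.X 2 - MvPolynomial.X 0 * MvPolynomial.X 1), 1,
      MvPolynomial.X 0;
    0, 0, 0, -1;
    -1, -MvPolynomial.X 0, 0, -MvPolynomial.X 2;
    0, 1, 0, MvPolynomial.X 1]

lemma La_mul : La * La' = 1 := by
  refine Matrix.ext fun i j => ?_
  fin_cases i <;> fin_cases j <;>
    simp [La, La', Matrix.mul_apply, Fin.sum_univ_four]

lemma La_mul' : La' * La = 1 := by
  refine Matrix.ext fun i j => ?_
  fin_cases i <;> fin_cases j <;>
    simp [La, La', Matrix.mul_apply, Fin.sum_univ_four]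

lemma Lb_mul : Lb * Lb' = 1 := by
  refine Matrix.ext fun i j => ?_
  fin_cases i <;> fin_cases j <;>
    simp [Lb, Lb', Matrix.mul_apply, Fin.sum_univ_four] <;> try ring

lemma Lb_mul' : Lb' * Lb = 1 := by
  refine Matrix.ext fun i j => ?_
  fin_cases i <;> fin_cases j <;>
    simp [Lb, Lb', Matrix.mul_apply, Fin.sum_univ_four] <;> try ring

noncomputable def uA : (Matrix (Fin 4) (Fin 4) Rg)ˣ := ⟨La, La', La_mul, La_mul'⟩

noncomputable def uB : (Matrix (Fin 4) (Fin 4) Rg)ˣ := ⟨Lb, Lb', Lb_mul, Lb_mul'⟩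

/-- the integer representation of the free group -/
noncomputable def Mrep : F2 →* (Matrix (Fin 4) (Fin 4) Rg)ˣ := FreeGroup.lift ![uA, uB]

noncomputable def Mw (w : F2) : Matrix (Fin 4) (Fin 4) Rg := (Mrep w : (Matrix (Fin 4) (Fin 4) Rg)ˣ)

/-- the trace polynomial -/
noncomputable def fr (w : F2) : Rg :=
  2 * Mw w 0 0 + MvPolynomial.X 0 * Mw w 1 0 + MvPolynomial.X 1 * Mw w 2 0
    + MvPolynomial.X 2 * Mw w 3 0

/-- the submultiplicative norm -/
noncomputable def Nn (w : F2) : ℕ := ∑ i, ∑ j, Ln (Mw w i j)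

/-- the trace of the commutator of `g` and `h`, minus two -/
noncomputable def kap (g h : F2) : Rg :=
  fr g ^ 2 + fr h ^ 2 + fr (g * h) ^ 2 - fr g * fr h * fr (g * h) - 4

/-- the same for `a, b` -/
noncomputable def kap0 : Rg :=
  MvPolynomial.X 0 ^ 2 + MvPolynomial.X 1 ^ 2 + MvPolynomial.X 2 ^ 2
    - MvPolynomial.X 0 * MvPolynomial.X 1 * MvPolynomial.X 2 - 4

/-- a point of the unit torus -/
def OnT (ξ : Fin 3 → ℂ) : Prop := ∀ i, ‖ξ i‖ = 1

/-- value of an integer polynomial at a point -/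
noncomputable def ev (ξ : Fin 3 → ℂ) (f : Rg) : ℂ := MvPolynomial.aeval ξ f

/-- the trace coordinates of a pair -/
noncomputable def trc (A B : SL) : Fin 3 → ℂ := ![A.1.trace, B.1.trace, (A * B).1.trace]

/-- the basis `1, A, B, AB` -/
noncomputable def Eb (A B : SL) : Fin 4 → Matrix (Fin 2) (Fin 2) ℂ := ![1, A.1, B.1, A.1 * B.1]

/-- the shift -/
def sh (x : ℕ → Letter) : ℕ → Letter := fun n => x (n + 1)

/-- the laws to which the main theorem applies -/
structure Good (m : Measure (ℕ → Letter)) (ρ : ℝ) : Prop where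
  prob : IsProbabilityMeasure m
  rho0 : 0 < ρ
  rho1 : ρ < 1
  erg : ∀ k : ℕ, 1 ≤ k → Ergodic (sh^[k]) m
  red : ∀ᵐ x ∂m, ∀ n, x (n + 1) ≠ invL (x n)
  spread : ∀ (n i : ℕ) (u : ℕ → Letter),
    m {x | ∀ k < n + i, x k = u k} ≤ ENNReal.ofReal (ρ ^ i) * m {x | ∀ k < n, x k = u k}

/-- a random infinite reduced word -/
structure ReducedProcess {Ω : Type*} [MeasurableSpace Ω] (P : Measure Ω) (s : ℕ → Ω → Letter) :
    Prop where
  meas : ∀ n, Measurable (s n)
  first : ∀ a : Letter, P {ω | s 0 ω = a} = 1 / 4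
  step : ∀ (n : ℕ) (u : ℕ → Letter) (a : Letter),
    P {ω | (∀ k ≤ n, s k ω = u k) ∧ s (n + 1) ω = a} =
      if a = invL (u n) then 0 else (1 / 3) * P {ω | ∀ k ≤ n, s k ω = u k}

/-- an i.i.d. sequence of letters `a` (with probability `p`) and `b` -/
structure PositiveProcess {Ω : Type*} [MeasurableSpace Ω] (p : ℝ) (P : Measure Ω)
    (t : ℕ → Ω → Letter) : Prop where
  meas : ∀ n, Measurable (t n)
  indep : ProbabilityTheory.iIndepFun t P
  ha : ∀ n, P {ω | t n ω = (0, true)} = ENNReal.ofReal p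
  hb : ∀ n, P {ω | t n ω = (1, true)} = ENNReal.ofReal (1 - p)

end Pool.Agent.R667.TP
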