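import Pool.Agent.R667.TP.Stm

/-! Trace polynomials of random words (MP_170125_pr): from laws to processes. -/

set_option autoImplicit false

open MeasureTheory Filter Topology

namespace Pool.Agent.R667.TP

universe u

/-- almost sure convergence and convergence in probability of `(1/n) log H` and `(1/n) log L` to
the constant `γ`, along the words spelled by the process `s` -/
def Conv {Ω : Type*} [MeasurableSpace Ω] (P : Measure Ω) (s : ℕ → Ω → Letter) (F : F2 → Rg)
    (γ : ℝ) : Prop :=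
  (∀ᵐ ω ∂P, Tendsto (fun n : ℕ => Real.log (Ht (F (wd (fun k => s k ω) n))) / n) atTop (𝓝 γ)) ∧
  (∀ᵐ ω ∂P, Tendsto (fun n : ℕ => Real.log (Ln (F (wd (fun k => s k ω) n))) / n) atTop (𝓝 γ)) ∧
  TendstoInMeasure P (fun (n : ℕ) ω => Real.log (Ht (F (wd (fun k => s k ω) n))) / n) atTop
    (fun _ => γ) ∧
  TendstoInMeasure P (fun (n : ℕ) ω => Real.log (Ln (F (wd (fun k => s k ω) n))) / n) atTop
    (fun _ => γ)

lemma wd_eq_ofFn (x : ℕ → Letter) (n : ℕ) : wd x n = FreeGroup.mk (List.ofFn fun i : Fin n => x i) := by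
  unfold wd
  congr 1
  apply List.ext_getElem
  · simp
  · intro i h1 h2
    simp

lemma measurable_wd {Ω : Type*} [MeasurableSpace Ω] {s : ℕ → Ω → Letter}
    (hs : ∀ n, Measurable (s n)) (n : ℕ) (g : F2 → ℝ) :
    Measurable fun ω => g (wd (fun k => s k ω) n) := by
  have h1 : Measurable fun ω => (fun i : Fin n => s i ω) :=
    measurable_pi_lambda _ fun i => hs i
  have h2 : Measurable fun v : Fin n → Letter => g (FreeGroup.mk (List.ofFn v)) :=
    measurable_of_finite _
  have h3 := h2.comp h1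
  have h4 : (fun ω => g (wd (fun k => s k ω) n)) =
      (fun v : Fin n → Letter => g (FreeGroup.mk (List.ofFn v))) ∘
        (fun ω => (fun i : Fin n => s i ω)) := by
    funext ω
    simp only [Function.comp]
    rw [wd_eq_ofFn]
  rw [h4]
  exact h3

lemma conv_of_ae {Ω : Type*} [MeasurableSpace Ω] (P : Measure Ω) [IsProbabilityMeasure P]
    {s : ℕ → Ω → Letter} (hs : ∀ n, Measurable (s n)) (F : F2 → Rg) (γ : ℝ)
    (h1 : ∀ᵐ ω ∂P, Tendsto (fun n : ℕ => Real.log (Ht (F (wd (fun k => s k ω) n))) / n) atTop (𝓝 γ))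
    (h2 : ∀ᵐ ω ∂P, Tendsto (fun n : ℕ => Real.log (Ln (F (wd (fun k => s k ω) n))) / n) atTop (𝓝 γ)) :
    Conv P s F γ := by
  refine ⟨h1, h2, ?_, ?_⟩
  · refine tendstoInMeasure_of_tendsto_ae (fun n => ?_) h1
    exact (measurable_wd hs n (fun w => Real.log (Ht (F w)) / n)).aestronglyMeasurable
  · refine tendstoInMeasure_of_tendsto_ae (fun n => ?_) h2
    exact (measurable_wd hs n (fun w => Real.log (Ln (F w)) / n)).aestronglyMeasurable

/-- the law of a process -/
noncomputable def law {Ω : Type*} [MeasurableSpace Ω] (P : Measure Ω) (s : ℕ → Ω → Letter) :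
    Measure (ℕ → Letter) := P.map (fun ω k => s k ω)

lemma meas_phi {Ω : Type*} [MeasurableSpace Ω] {s : ℕ → Ω → Letter}
    (hs : ∀ n, Measurable (s n)) : Measurable (fun ω k => s k ω) :=
  measurable_pi_lambda _ fun i => hs i

lemma meas_cyl (n : ℕ) (u : ℕ → Letter) : MeasurableSet {x : ℕ → Letter | ∀ k ≤ n, x k = u k} := by
  have : {x : ℕ → Letter | ∀ k ≤ n, x k = u k} = ⋂ k, ⋂ _ : k ≤ n, {x | x k = u k} := by
    ext x; simp
  rw [this]
  refine MeasurableSet.iInter fun k => MeasurableSet.iInter fun _ => ?_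
  exact (measurable_pi_apply (X := fun _ : ℕ => Letter) k) (measurableSet_singleton (u k))

lemma meas_one (n : ℕ) (a : Letter) : MeasurableSet {x : ℕ → Letter | x n = a} :=
  (measurable_pi_apply (X := fun _ : ℕ => Letter) n) (measurableSet_singleton a)

lemma prob_law {Ω : Type*} [MeasurableSpace Ω] (P : Measure Ω) [IsProbabilityMeasure P]
    {s : ℕ → Ω → Letter} (hs : ∀ n, Measurable (s n)) : IsProbabilityMeasure (law P s) :=
  Measure.isProbabilityMeasure_map (meas_phi hs).aemeasurable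

lemma law_reduced {Ω : Type*} [MeasurableSpace Ω] (P : Measure Ω) [IsProbabilityMeasure P]
    {s : ℕ → Ω → Letter} (h : ReducedProcess P s) :
    ReducedProcess (law P s) (fun n x => x n) := by
  have hφ := meas_phi h.meas
  refine ⟨fun n => measurable_pi_apply n, fun a => ?_, fun n u a => ?_⟩
  · rw [law, Measure.map_apply hφ (meas_one 0 a)]
    exact h.first a
  · rw [law, Measure.map_apply hφ (meas_cyl n u), Measure.map_apply hφ]
    · exact h.step n u a
    · exact (meas_cyl n u).inter (meas_one (n + 1) a)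

lemma law_positive {Ω : Type*} [MeasurableSpace Ω] (p : ℝ) (P : Measure Ω) [IsProbabilityMeasure P]
    {s : ℕ → Ω → Letter} (h : PositiveProcess p P s) :
    PositiveProcess p (law P s) (fun n x => x n) := by
  have hφ := meas_phi h.meas
  haveI := prob_law P h.meas
  refine ⟨fun n => measurable_pi_apply n, ?_, fun n => ?_, fun n => ?_⟩
  · have h1 := h.indep
    rw [ProbabilityTheory.iIndepFun_iff_map_fun_eq_infinitePi_map (fun n => h.meas n)] at h1
    rw [ProbabilityTheory.iIndepFun_iff_map_fun_eq_infinitePi_map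
      (fun n => measurable_pi_apply n)]
    have e1 : (fun (x : ℕ → Letter) (i : ℕ) => x i) = id := rfl
    rw [e1, Measure.map_id]
    have e2 : ∀ i, (law P s).map (fun x : ℕ → Letter => x i) = P.map (s i) := by
      intro i
      rw [law, Measure.map_map (measurable_pi_apply i) hφ]
      rfl
    simp_rw [e2]
    exact h1
  · rw [law, Measure.map_apply hφ (meas_one n _)]
    exact h.ha n
  · rw [law, Measure.map_apply hφ (meas_one n _)]
    exact h.hb n

lemma conv_law {Ω : Type*} [MeasurableSpace Ω] (P : Measure Ω) [IsProbabilityMeasure P]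
    {s : ℕ → Ω → Letter} (hs : ∀ n, Measurable (s n)) (F : F2 → Rg) (γ : ℝ)
    (h1 : ∀ᵐ x ∂(law P s), Tendsto (fun n : ℕ => Real.log (Ln (F (wd x n))) / n) atTop (𝓝 γ))
    (h2 : ∀ᵐ x ∂(law P s), Tendsto (fun n : ℕ => Real.log (Ht (F (wd x n))) / n) atTop (𝓝 γ)) :
    Conv P s F γ :=
  conv_of_ae P hs F γ (ae_of_ae_map (meas_phi hs).aemeasurable h2)
    (ae_of_ae_map (meas_phi hs).aemeasurable h1)

theorem final (hF : S_FRT) (hU : S_UQ) (hL : S_LIM) (hR : S_LAWR) (hP : S_LAWP) (hI : S_UNI) :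
    ∃ F : F2 → Rg, (∀ w f, IsFricke w f ↔ f = F w) ∧
      (∃ γ : ℝ, ∀ (Ω : Type u) [MeasurableSpace Ω] (P : Measure Ω) [IsProbabilityMeasure P]
        (s : ℕ → Ω → Letter), ReducedProcess P s → Conv P s F γ) ∧
      (∀ p : ℝ, 0 < p → p < 1 → ∃ γ : ℝ, ∀ (Ω : Type u) [MeasurableSpace Ω] (P : Measure Ω)
        [IsProbabilityMeasure P] (s : ℕ → Ω → Letter), PositiveProcess p P s → Conv P s F γ) := by
  refine ⟨fr, ?_, ?_, ?_⟩
  · intro w f
    constructor
    · intro h
      refine hU _ _ fun A B => ?_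
      have h1 := h A B
      have h2 := hF.1 w A B
      rw [ev, ev, trc, ← h1, ← h2]
    · rintro rfl
      exact hF.1 w
  · by_cases hex : ∃ m : Measure (ℕ → Letter), IsProbabilityMeasure m ∧
        ReducedProcess m (fun n x => x n)
    · obtain ⟨m, hm1, hm2⟩ := hex
      obtain ⟨γ, h1, h2⟩ := hL m _ (hR m hm1 hm2)
      refine ⟨γ, fun Ω _ P _ s hs => ?_⟩
      have e := hI.1 (law P s) m (prob_law P hs.meas) hm1 (law_reduced P hs) hm2
      refine conv_law P hs.meas fr γ ?_ ?_
      · rw [e]; exact h1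
      · rw [e]; exact h2
    · refine ⟨0, fun Ω _ P _ s hs => ?_⟩
      exact absurd ⟨law P s, prob_law P hs.meas, law_reduced P hs⟩ hex
  · intro p hp0 hp1
    by_cases hex : ∃ m : Measure (ℕ → Letter), IsProbabilityMeasure m ∧
        PositiveProcess p m (fun n x => x n)
    · obtain ⟨m, hm1, hm2⟩ := hex
      obtain ⟨γ, h1, h2⟩ := hL m _ (hP p hp0 hp1 m hm1 hm2)
      refine ⟨γ, fun Ω _ P _ s hs => ?_⟩
      have e := hI.2 p hp0 hp1 (law P s) m (prob_law P hs.meas) hm1 (law_positive p P hs) hm2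
      refine conv_law P hs.meas fr γ ?_ ?_
      · rw [e]; exact h1
      · rw [e]; exact h2
    · refine ⟨0, fun Ω _ P _ s hs => ?_⟩
      exact absurd ⟨law P s, prob_law P hs.meas, law_positive p P hs⟩ hex

end Pool.Agent.R667.TP
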