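import Pool.Agent.R667.TP.DEG

/-! Trace polynomials of random words (MP_170125_pr): piece KEY (helper92). -/

set_option autoImplicit false

open MvPolynomial

namespace Pool.Agent.R667.TP.KEY

open Pool.Agent.R667.TP.DEG

lemma Ln_nonneg (f : Rg) : (0 : ℝ) ≤ Ln f := Nat.cast_nonneg _

lemma kap0_ne : kap0 ≠ 0 := by
  intro h
  have h1 := congrArg (MvPolynomial.eval (fun _ => (0 : ℤ))) h
  have h4 : (4 : Rg) = C 4 := by simp
  rw [kap0, h4] at h1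
  simp only [map_sub, map_add, map_mul, map_pow, eval_X, eval_C, map_zero] at h1
  norm_num at h1

lemma dX' (k j : Fin 3) : (X j : Rg).degreeOf k ≤ 1 := dX j

lemma kap0_deg (k : Fin 3) : kap0.degreeOf k ≤ 2 := by
  have h4 : (4 : Rg).degreeOf k ≤ 2 := by
    have : (4 : Rg) = C 4 := by simp
    rw [this, degreeOf_C]; exact Nat.zero_le _
  have hsq : ∀ j : Fin 3, (X j ^ 2 : Rg).degreeOf k ≤ 2 := by
    intro j
    rw [pow_two]
    exact dmul (dX j) (dX j)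
  have h012 : (X 0 * X 1 * X 2 : Rg).degreeOf k ≤ 2 := by
    refine (degreeOf_mul_le k _ _).trans ?_
    refine (add_le_add (degreeOf_mul_le k _ _) le_rfl).trans ?_
    rw [degreeOf_X, degreeOf_X, degreeOf_X]
    fin_cases k <;> simp
  unfold kap0
  exact dsub (dsub (dadd (dadd (hsq 0) (hsq 1)) (hsq 2)) h012) h4

lemma fr_deg (L : List Letter) (k : Fin 3) : (fr (FreeGroup.mk L)).degreeOf k ≤ L.length + 1 :=
  (deg L k).2

lemma kap_deg {i : ℕ} {V1 V2 V3 : List Letter} (h1 : V1.length = i) (h2 : V2.length = i)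
    (h3 : V3.length = i) (k : Fin 3) :
    (kap ((FreeGroup.mk V1)⁻¹ * FreeGroup.mk V2) ((FreeGroup.mk V1)⁻¹ * FreeGroup.mk V3)).degreeOf k
      ≤ 8 * i + 3 := by
  have e1 : (FreeGroup.mk V1)⁻¹ * FreeGroup.mk V2 = FreeGroup.mk (FreeGroup.invRev V1 ++ V2) := by
    rw [FreeGroup.inv_mk, FreeGroup.mul_mk]
  have e2 : (FreeGroup.mk V1)⁻¹ * FreeGroup.mk V3 = FreeGroup.mk (FreeGroup.invRev V1 ++ V3) := by
    rw [FreeGroup.inv_mk, FreeGroup.mul_mk]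
  have e3 : (FreeGroup.mk V1)⁻¹ * FreeGroup.mk V2 * ((FreeGroup.mk V1)⁻¹ * FreeGroup.mk V3) =
      FreeGroup.mk ((FreeGroup.invRev V1 ++ V2) ++ (FreeGroup.invRev V1 ++ V3)) := by
    rw [e1, e2, FreeGroup.mul_mk]
  have d1 : (fr ((FreeGroup.mk V1)⁻¹ * FreeGroup.mk V2)).degreeOf k ≤ 2 * i + 1 := by
    rw [e1]
    refine (fr_deg _ k).trans ?_
    rw [List.length_append, FreeGroup.invRev_length]; omega
  have d2 : (fr ((FreeGroup.mk V1)⁻¹ * FreeGroup.mk V3)).degreeOf k ≤ 2 * i + 1 := by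
    rw [e2]
    refine (fr_deg _ k).trans ?_
    rw [List.length_append, FreeGroup.invRev_length]; omega
  have d3 : (fr ((FreeGroup.mk V1)⁻¹ * FreeGroup.mk V2 *
      ((FreeGroup.mk V1)⁻¹ * FreeGroup.mk V3))).degreeOf k ≤ 4 * i + 1 := by
    rw [e3]
    refine (fr_deg _ k).trans ?_
    rw [List.length_append, List.length_append, List.length_append, FreeGroup.invRev_length]; omega
  have h4 : (4 : Rg).degreeOf k ≤ 8 * i + 3 := by
    have : (4 : Rg) = C 4 := by simp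
    rw [this, degreeOf_C]; exact Nat.zero_le _
  unfold kap
  refine dsub (dsub (dadd (dadd ?_ ?_) ?_) ?_) h4
  · rw [pow_two]; exact (dmul d1 d1).trans (by omega)
  · rw [pow_two]; exact (dmul d2 d2).trans (by omega)
  · rw [pow_two]; exact (dmul d3 d3).trans (by omega)
  · exact (dmul (dmul d1 d2) d3).trans (by omega)

lemma Nn_le (w : F2) (B : ℝ) (hB : ∀ a b : Fin 4, (Ln (Mw w a b) : ℝ) ≤ B) : (Nn w : ℝ) ≤ 16 * B := by
  unfold Nn
  have h1 : ((∑ a, ∑ b, Ln (Mw w a b) : ℕ) : ℝ) = ∑ a, ∑ b, (Ln (Mw w a b) : ℝ) := by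
    rw [Nat.cast_sum]
    refine Finset.sum_congr rfl fun a _ => ?_
    rw [Nat.cast_sum]
  rw [h1]
  refine (Finset.sum_le_sum fun a _ => Finset.sum_le_sum fun b _ => hB a b).trans ?_
  rw [Finset.sum_const, Finset.sum_const, Finset.card_univ, Fintype.card_fin]
  simp only [nsmul_eq_mul]
  push_cast
  linarith

lemma arith (n i c : ℕ) (hin : i ≤ n) (C0 τ : ℝ) (hC0 : 1 ≤ C0) (hc : C0 < 2 ^ c) (hτ : 0 ≤ τ) :
    16 * (((n : ℝ) + 1) ^ 3 * (((n : ℝ) + ((8 * i + 5 : ℕ) : ℝ) + 1) ^ (6 * (8 * i + 5)) *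
      (C0 ^ (i + 1) * (1 + τ)))) ≤ ((n : ℝ) + 2) ^ ((247 + c) * (i + 1)) * (1 + τ) := by
  have hn0 : (0 : ℝ) ≤ n := Nat.cast_nonneg _
  obtain ⟨x, hx⟩ : ∃ x : ℝ, x = (n : ℝ) + 2 := ⟨_, rfl⟩
  rw [← hx]
  have hx2 : 2 ≤ x := by rw [hx]; linarith
  have hx1 : 1 ≤ x := by linarith
  have hx0 : 0 < x := by linarith
  have b1 : (16 : ℝ) ≤ x ^ 4 := by
    calc (16 : ℝ) = 2 ^ 4 := by norm_num
      _ ≤ x ^ 4 := pow_le_pow_left₀ (by norm_num) hx2 4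
  have b2 : ((n : ℝ) + 1) ^ 3 ≤ x ^ 3 := pow_le_pow_left₀ (by linarith) (by rw [hx]; linarith) 3
  have b3 : (n : ℝ) + ((8 * i + 5 : ℕ) : ℝ) + 1 ≤ x ^ 5 := by
    have hin' : (i : ℝ) ≤ n := by exact_mod_cast hin
    have : x ^ 5 = x ^ 4 * x := by ring
    rw [this]
    have h5 : 16 * x ≤ x ^ 4 * x := mul_le_mul_of_nonneg_right b1 hx0.le
    refine le_trans ?_ h5
    push_cast
    rw [hx]
    linarith
  have hM : (0 : ℝ) ≤ (n : ℝ) + ((8 * i + 5 : ℕ) : ℝ) + 1 := by positivity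
  have b4 : ((n : ℝ) + ((8 * i + 5 : ℕ) : ℝ) + 1) ^ (6 * (8 * i + 5)) ≤ x ^ (240 * (i + 1)) := by
    refine (pow_le_pow_left₀ hM b3 _).trans ?_
    rw [← pow_mul]
    exact pow_le_pow_right₀ hx1 (by omega)
  have b5 : C0 ^ (i + 1) ≤ x ^ (c * (i + 1)) := by
    rw [pow_mul]
    apply pow_le_pow_left₀ (by linarith)
    exact hc.le.trans (pow_le_pow_left₀ (by norm_num) hx2 c)
  have hτ1 : 0 ≤ 1 + τ := by linarith
  have hC00 : 0 ≤ C0 ^ (i + 1) := pow_nonneg (by linarith) _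
  have hA0 : 0 ≤ ((n : ℝ) + ((8 * i + 5 : ℕ) : ℝ) + 1) ^ (6 * (8 * i + 5)) := pow_nonneg hM _
  have hB0 : 0 ≤ ((n : ℝ) + 1) ^ 3 := by positivity
  generalize ((n : ℝ) + ((8 * i + 5 : ℕ) : ℝ) + 1) ^ (6 * (8 * i + 5)) = A at *
  generalize ((n : ℝ) + 1) ^ 3 = B at *
  generalize C0 ^ (i + 1) = E at *
  have c1 : E * (1 + τ) ≤ x ^ (c * (i + 1)) * (1 + τ) := mul_le_mul_of_nonneg_right b5 hτ1
  have c2 : A * (E * (1 + τ)) ≤ x ^ (240 * (i + 1)) * (x ^ (c * (i + 1)) * (1 + τ)) :=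
    mul_le_mul b4 c1 (by positivity) (pow_nonneg hx0.le _)
  have c3 : B * (A * (E * (1 + τ))) ≤ x ^ 3 * (x ^ (240 * (i + 1)) * (x ^ (c * (i + 1)) * (1 + τ))) :=
    mul_le_mul b2 c2 (by positivity) (pow_nonneg hx0.le _)
  have c4 : 16 * (B * (A * (E * (1 + τ)))) ≤
      x ^ 4 * (x ^ 3 * (x ^ (240 * (i + 1)) * (x ^ (c * (i + 1)) * (1 + τ)))) :=
    mul_le_mul b1 c3 (by positivity) (pow_nonneg hx0.le _)
  refine c4.trans ?_
  have e : x ^ 4 * (x ^ 3 * (x ^ (240 * (i + 1)) * (x ^ (c * (i + 1)) * (1 + τ)))) =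
      x ^ (4 + 3 + 240 * (i + 1) + c * (i + 1)) * (1 + τ) := by
    rw [pow_add, pow_add, pow_add]
    generalize x ^ (240 * (i + 1)) = u
    generalize x ^ (c * (i + 1)) = v
    ring
  rw [e]
  apply mul_le_mul_of_nonneg_right _ hτ1
  apply pow_le_pow_right₀ hx1
  have : (247 + c) * (i + 1) = 247 * (i + 1) + c * (i + 1) := by ring
  rw [this]; omega

lemma expo (n i c : ℕ) : Real.exp (((247 + c : ℕ) : ℝ) * ((i : ℝ) + 1) * Real.log ((n : ℝ) + 2)) =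
    ((n : ℝ) + 2) ^ ((247 + c) * (i + 1)) := by
  have hn0 : (0 : ℝ) ≤ n := Nat.cast_nonneg _
  have : ((247 + c : ℕ) : ℝ) * ((i : ℝ) + 1) * Real.log ((n : ℝ) + 2) =
      (((247 + c) * (i + 1) : ℕ) : ℝ) * Real.log ((n : ℝ) + 2) := by
    rw [Nat.cast_mul, Nat.cast_add i 1, Nat.cast_one]
  rw [this, Real.exp_nat_mul, Real.exp_log (by linarith)]

theorem key (hALG : S_ALG) (hDIV : S_DIV) (hCOEF : S_COEF) (hEV : S_EV) : S_KEY := by
  obtain ⟨C0, hC0, hA⟩ := hALG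
  obtain ⟨c, hc⟩ : ∃ c : ℕ, C0 < 2 ^ c := pow_unbounded_of_one_lt C0 one_lt_two
  refine ⟨((247 + c : ℕ) : ℝ), ?_, ?_⟩
  · have : 1 ≤ 247 + c := by omega
    exact_mod_cast this
  intro n i LU V1 V2 V3 hin hLU h1 h2 h3 hk τ t1 t2 t3
  have hτ : 0 ≤ τ := (Ln_nonneg _).trans t1
  have hkd := kap_deg h1 h2 h3
  have hA' := fun (ξ : Fin 3 → ℂ) (hξ : OnT ξ) => hA ξ hξ i (FreeGroup.mk LU) V1 V2 V3 h1 h2 h3 τ hτ
    ((hEV ξ hξ _).trans t1) ((hEV ξ hξ _).trans t2) ((hEV ξ hξ _).trans t3)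
  clear t1 t2 t3 hA
  generalize kap ((FreeGroup.mk V1)⁻¹ * FreeGroup.mk V2) ((FreeGroup.mk V1)⁻¹ * FreeGroup.mk V3) = κ
    at hk hkd hA'
  have hF : kap0 * κ ≠ 0 := mul_ne_zero kap0_ne hk
  have hFd : ∀ k, (kap0 * κ).degreeOf k ≤ 8 * i + 5 := by
    intro k
    exact (dmul (kap0_deg k) (hkd k)).trans (by omega)
  have hpd : ∀ (a b : Fin 4) (k : Fin 3), (Mw (FreeGroup.mk LU) a b).degreeOf k ≤ n := fun a b k =>
    (word_deg LU a b).trans hLU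
  have hK : ∀ (a b : Fin 4) (ξ : Fin 3 → ℂ), OnT ξ →
      ‖ev ξ (kap0 * κ) * ev ξ (Mw (FreeGroup.mk LU) a b)‖ ≤ C0 ^ (i + 1) * (1 + τ) := by
    intro a b ξ hξ
    have := hA' ξ hξ a b
    have e : ev ξ (kap0 * κ) = ev ξ kap0 * ev ξ κ := by
      unfold ev; rw [map_mul]
    rw [e]; exact this
  have hNn : (Nn (FreeGroup.mk LU) : ℝ) ≤ 16 * (((n : ℝ) + 1) ^ 3 *
      (((n : ℝ) + ((8 * i + 5 : ℕ) : ℝ) + 1) ^ (6 * (8 * i + 5)) * (C0 ^ (i + 1) * (1 + τ)))) := by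
    apply Nn_le
    intro a b
    have q1 := hpd a b
    have q2 := hK a b
    generalize Mw (FreeGroup.mk LU) a b = P at q1 q2 ⊢
    generalize kap0 * κ = F at hF hFd q2
    generalize C0 ^ (i + 1) * (1 + τ) = K at q2 ⊢
    generalize 8 * i + 5 = D at hFd ⊢
    exact hCOEF P n _ q1 (hDIV F P D n K hF hFd q1 q2)
  rw [expo]
  exact hNn.trans (arith n i c hin C0 τ hC0 hc hτ)

end Pool.Agent.R667.TP.KEY
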