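import Pool.Agent.R667.TP.Stm
import Pool.Agent.R975.King

/-! Piece KING: the subadditive ergodic theorem for the norms of the words. -/

set_option autoImplicit false

open MeasureTheory Filter Topology

namespace Pool.Agent.R667.TP

namespace KING

theorem wd_zero (x : ℕ → Letter) : wd x 0 = 1 := rfl

theorem wd_succ (x : ℕ → Letter) (n : ℕ) : wd x (n + 1) = wd x n * FreeGroup.mk [x n] := by
  unfold wd
  rw [List.range_succ, List.map_append, List.map_singleton, FreeGroup.mul_mk]

theorem sh_iter (k : ℕ) (x : ℕ → Letter) (n : ℕ) : (sh^[k] x) n = x (k + n) := by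
  induction k generalizing x n with
  | zero => simp
  | succ k ih =>
    rw [Function.iterate_succ_apply, ih]
    unfold sh
    congr 1
    omega

theorem wd_add (x : ℕ → Letter) (k l : ℕ) : wd x (k + l) = wd x k * wd (sh^[k] x) l := by
  induction l with
  | zero => rw [add_zero, wd_zero, mul_one]
  | succ l ih => rw [← add_assoc, wd_succ, ih, wd_succ, mul_assoc, sh_iter]

theorem wd_ofFn (n : ℕ) (x : ℕ → Letter) :
    wd x n = FreeGroup.mk (List.ofFn fun k : Fin n => x k) := by
  unfold wd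
  congr 1
  apply List.ext_getElem
  · simp
  · intro i h1 h2
    simp

/-- the process -/
noncomputable def Lp (n : ℕ) (x : ℕ → Letter) : ℝ :=
  if n = 0 then 0 else n * Real.log 20 - Real.log (Nn (wd x n))

theorem Lp_zero (x : ℕ → Letter) : Lp 0 x = 0 := by simp [Lp]

theorem Lp_pos {n : ℕ} (hn : n ≠ 0) (x : ℕ → Letter) :
    Lp n x = n * Real.log 20 - Real.log (Nn (wd x n)) := by simp [Lp, hn]

theorem Nn_le (h : S_NRM) (x : ℕ → Letter) (n : ℕ) : Nn (wd x (n + 1)) ≤ 20 ^ (n + 1) := by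
  obtain ⟨h1, -, h3, -⟩ := h
  induction n with
  | zero =>
    rw [wd_succ, wd_zero, one_mul, zero_add, pow_one]
    exact h3 _
  | succ n ih =>
    rw [wd_succ, pow_succ]
    exact (h1 _ _).trans (Nat.mul_le_mul ih (h3 _))

theorem log_nonneg' (h : S_NRM) (u : F2) : 0 ≤ Real.log (Nn u) := by
  apply Real.log_nonneg
  exact_mod_cast h.2.1 u

theorem Lp_nonneg (h : S_NRM) (n : ℕ) (x : ℕ → Letter) : 0 ≤ Lp n x := by
  rcases Nat.eq_zero_or_pos n with rfl | hn
  · rw [Lp_zero]
  · obtain ⟨n, rfl⟩ : ∃ n', n = n' + 1 := ⟨n - 1, by omega⟩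
    rw [Lp_pos (by omega)]
    have h1 : (Nn (wd x (n + 1)) : ℝ) ≤ 20 ^ (n + 1) := by exact_mod_cast Nn_le h x n
    have h2 : (0 : ℝ) < Nn (wd x (n + 1)) := by
      have := h.2.1 (wd x (n + 1))
      exact_mod_cast this
    have h3 := Real.log_le_log h2 h1
    rw [Real.log_pow] at h3
    linarith

theorem Lp_le (h : S_NRM) (n : ℕ) (x : ℕ → Letter) : Lp n x ≤ Real.log 20 * n := by
  rcases Nat.eq_zero_or_pos n with rfl | hn
  · rw [Lp_zero]
    simp
  · rw [Lp_pos (by omega)]
    have := log_nonneg' h (wd x n)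
    linarith

theorem Lp_super (h : S_NRM) (k l : ℕ) (x : ℕ → Letter) :
    Lp k x + Lp l (sh^[k] x) ≤ Lp (k + l) x := by
  rcases Nat.eq_zero_or_pos k with rfl | hk
  · rw [Lp_zero, zero_add, zero_add, Function.iterate_zero, id]
  rcases Nat.eq_zero_or_pos l with rfl | hl
  · rw [Lp_zero, add_zero, add_zero]
  rw [Lp_pos (by omega), Lp_pos (by omega), Lp_pos (by omega), wd_add]
  have h1 : (Nn (wd x k * wd (sh^[k] x) l) : ℝ) ≤ Nn (wd x k) * Nn (wd (sh^[k] x) l) := by
    exact_mod_cast h.1 _ _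
  have hp : ∀ u, (0 : ℝ) < Nn u := fun u => by
    have := h.2.1 u
    exact_mod_cast this
  have h2 := Real.log_le_log (hp _) h1
  rw [Real.log_mul (hp _).ne' (hp _).ne'] at h2
  push_cast
  linarith

theorem Lp_meas (n : ℕ) : Measurable (Lp n) := by
  have h : Lp n = (fun y : Fin n → Letter => (if n = 0 then (0 : ℝ) else
      n * Real.log 20 - Real.log (Nn (FreeGroup.mk (List.ofFn y))))) ∘
      fun x : ℕ → Letter => fun k : Fin n => x k := by
    funext x
    simp only [Lp, Function.comp]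
    rw [wd_ofFn]
  rw [h]
  exact (Measurable.of_discrete).comp
    (measurable_pi_lambda _ fun k => measurable_pi_apply _)

end KING

open KING in
theorem king (h : S_NRM) : S_KING := by
  intro m ρ hm
  have := hm.prob
  have h1 : Ergodic sh m := by
    have := hm.erg 1 le_rfl
    rwa [Function.iterate_one] at this
  obtain ⟨γ, hγ⟩ := Pool.Agent.R975.King.kingman h1 hm.erg Lp_meas (Lp_nonneg h) (Lp_le h)
    (Lp_super h)
  refine ⟨Real.log 20 - γ, ?_⟩
  filter_upwards [hγ] with x hx
  have h2 : Tendsto (fun n : ℕ => Real.log 20 - Lp n x / n) atTop (𝓝 (Real.log 20 - γ)) :=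
    tendsto_const_nhds.sub hx
  refine h2.congr' ?_
  filter_upwards [eventually_ge_atTop 1] with n hn
  rw [Lp_pos (by omega)]
  have h3 : (n : ℝ) ≠ 0 := by
    have : n ≠ 0 := by omega
    exact_mod_cast this
  field_simp
  ring

end Pool.Agent.R667.TP
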