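import Pool.Agent.R667.TP.Stm
import Pool.Agent.R987.Bern

/-! Trace polynomials of random words (MP_170125_pr), piece LAWP: the Bernoulli law of positive
words. -/

set_option autoImplicit false

open MeasureTheory Filter Topology ProbabilityTheory

namespace Pool.Agent.R667.TP

namespace LAWPaux

open Pool.Agent.R987

variable {p : ℝ} {m : Measure (ℕ → Letter)}

theorem set_meas (n : ℕ) (a : Letter) : MeasurableSet {x : ℕ → Letter | x n = a} :=
  (measurable_pi_apply n : Measurable fun x : ℕ → Letter => x n) (measurableSet_singleton a)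

theorem pos_null [IsProbabilityMeasure m] (hp : 0 < p) (hp1 : p < 1)
    (h : PositiveProcess p m (fun n x => x n)) (n : ℕ) :
    m {x : ℕ → Letter | (x n).2 = false} = 0 := by
  set S : Set (ℕ → Letter) := {x | x n = (0, true)} ∪ {x | x n = (1, true)} with hS
  have hSm : MeasurableSet S := (set_meas n _).union (set_meas n _)
  have hd : Disjoint {x : ℕ → Letter | x n = (0, true)} {x : ℕ → Letter | x n = (1, true)} := by
    rw [Set.disjoint_left]
    intro x hx hx'
    simp only [Set.mem_ofPred_eq] at hx hx'
    rw [hx] at hx'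
    simp at hx'
  have h1 : m S = 1 := by
    rw [hS, measure_union hd (set_meas n _)]
    have e1 : m {x : ℕ → Letter | x n = (0, true)} = ENNReal.ofReal p := h.ha n
    have e2 : m {x : ℕ → Letter | x n = (1, true)} = ENNReal.ofReal (1 - p) := h.hb n
    rw [e1, e2, ← ENNReal.ofReal_add hp.le (by linarith)]
    simp
  have h2 : m Sᶜ = 0 := (prob_compl_eq_zero_iff hSm).2 h1
  refine measure_mono_null ?_ h2
  intro x hx hxS
  simp only [Set.mem_ofPred_eq] at hx
  rcases hxS with h3 | h3
  · simp only [Set.mem_ofPred_eq] at h3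
    rw [h3] at hx
    simp at hx
  · simp only [Set.mem_ofPred_eq] at h3
    rw [h3] at hx
    simp at hx

theorem one_letter [IsProbabilityMeasure m] (hp : 0 < p) (hp1 : p < 1)
    (h : PositiveProcess p m (fun n x => x n)) (n : ℕ) (a : Letter) :
    m {x : ℕ → Letter | x n = a} =
      if a = (0, true) then ENNReal.ofReal p else if a = (1, true) then ENNReal.ofReal (1 - p)
      else 0 := by
  split_ifs with h1 h2
  · subst h1
    exact h.ha n
  · subst h2
    exact h.hb n
  · have h3 : a.2 = false := by
      obtain ⟨i, b⟩ := a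
      cases b
      · rfl
      · exfalso
        fin_cases i
        · exact h1 rfl
        · exact h2 rfl
    refine measure_mono_null ?_ (pos_null hp hp1 h n)
    intro x hx
    simp only [Set.mem_ofPred_eq] at hx ⊢
    rw [hx, h3]

theorem letter_le [IsProbabilityMeasure m] (hp : 0 < p) (hp1 : p < 1)
    (h : PositiveProcess p m (fun n x => x n)) (n : ℕ) (a : Letter) :
    m {x : ℕ → Letter | x n = a} ≤ ENNReal.ofReal (max p (1 - p)) := by
  rw [one_letter hp hp1 h n a]
  split_ifs
  · exact ENNReal.ofReal_le_ofReal (le_max_left _ _)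
  · exact ENNReal.ofReal_le_ofReal (le_max_right _ _)
  · exact bot_le

theorem law_eq [IsProbabilityMeasure m] (hp : 0 < p) (hp1 : p < 1)
    (h : PositiveProcess p m (fun n x => x n)) (n : ℕ) :
    m.map (fun x => x n) = m.map (fun x => x 0) := by
  refine Measure.ext_of_singleton fun a => ?_
  rw [Measure.map_apply (measurable_pi_apply n) (measurableSet_singleton a),
    Measure.map_apply (measurable_pi_apply 0) (measurableSet_singleton a)]
  have e : ∀ k : ℕ, (fun x : ℕ → Letter => x k) ⁻¹' {a} = {x | x k = a} := fun k => rfl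
  rw [e, e, one_letter hp hp1 h n a, one_letter hp hp1 h 0 a]

theorem m_eq [IsProbabilityMeasure m] (hp : 0 < p) (hp1 : p < 1)
    (h : PositiveProcess p m (fun n x => x n)) :
    m = Bern.iid ℕ (m.map (fun x => x 0)) := by
  have h1 := h.indep.map_fun_eq_infinitePi_map h.meas
  have h2 : m.map (fun (x : ℕ → Letter) (i : ℕ) => x i) = m := Measure.map_id
  rw [h2] at h1
  conv_lhs => rw [h1]
  unfold Bern.iid
  congr 1
  funext i
  exact law_eq hp hp1 h i

theorem sh_iter (k : ℕ) (x : ℕ → Letter) : sh^[k] x = fun i => x (i + k) := by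
  induction k generalizing x with
  | zero => rfl
  | succ k ih =>
    rw [Function.iterate_succ_apply, ih]
    funext i
    show x (i + k + 1) = x (i + (k + 1))
    rw [add_assoc]

theorem add_iter (k n i : ℕ) : (fun i => i + k)^[n] i = i + n * k := by
  induction n generalizing i with
  | zero => simp
  | succ n ih =>
    rw [Function.iterate_succ_apply, ih]
    ring

theorem erg_iid (lam : Measure Letter) [IsProbabilityMeasure lam] (k : ℕ) (hk : 1 ≤ k) :
    Ergodic (sh^[k]) (Bern.iid ℕ lam) := by
  have hf : (sh^[k] : (ℕ → Letter) → (ℕ → Letter)) = fun x => fun i => x (i + k) :=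
    funext fun x => sh_iter k x
  have hinj : Function.Injective (fun i : ℕ => i + k) := fun a b hab => by simpa using hab
  have hmp : MeasurePreserving (sh^[k]) (Bern.iid ℕ lam) (Bern.iid ℕ lam) := by
    rw [hf]
    exact ⟨Bern.measurable_comp _, Bern.map_comp lam _ hinj⟩
  refine ⟨hmp, ⟨fun A hA hinv => ?_⟩⟩
  have h01 := Bern.ergodic lam (fun i : ℕ => i + k) hinj (fun F => by
      refine ⟨F.sup id + 1, fun i hi hi' => ?_⟩
      rw [add_iter] at hi'
      have h1 : i + (F.sup id + 1) * k ≤ F.sup id := Finset.le_sup (f := id) hi'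
      have h2 : F.sup id + 1 ≤ (F.sup id + 1) * k := Nat.le_mul_of_pos_right _ hk
      omega) hA (Eventually.of_forall fun x => by
      have h3 : (x ∈ sh^[k] ⁻¹' A) ↔ x ∈ A := by rw [hinv]
      rw [← h3, Set.mem_preimage, sh_iter])
  rw [eventuallyConst_set']
  rcases h01 with h0 | h1
  · left
    exact ae_eq_empty.2 h0
  · right
    exact ae_eq_univ.2 ((prob_compl_eq_zero_iff hA).2 h1)

theorem cyl_succ [IsProbabilityMeasure m] (hp : 0 < p) (hp1 : p < 1)
    (h : PositiveProcess p m (fun n x => x n)) (N : ℕ) (u : ℕ → Letter) :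
    m {x | ∀ k < N + 1, x k = u k} ≤
      ENNReal.ofReal (max p (1 - p)) * m {x | ∀ k < N, x k = u k} := by
  have hcyl : ∀ N : ℕ, m {x | ∀ k < N, x k = u k} =
      ∏ k ∈ Finset.range N, m {x : ℕ → Letter | x k = u k} := by
    intro N
    have h1 := h.indep.measure_inter_preimage_eq_mul (Finset.range N)
      (sets := fun k => {u k}) (fun k _ => measurableSet_singleton _)
    have e : {x : ℕ → Letter | ∀ k < N, x k = u k} =
        ⋂ k ∈ Finset.range N, (fun x : ℕ → Letter => x k) ⁻¹' {u k} := by
      ext x
      simp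
    rw [e]
    exact h1
  rw [hcyl, hcyl, Finset.prod_range_succ, mul_comm]
  gcongr
  exact letter_le hp hp1 h N (u N)

end LAWPaux

open LAWPaux

theorem lawp : S_LAWP := by
  intro p hp hp1 m hm h
  have hr0 : 0 < max p (1 - p) := lt_max_of_lt_left hp
  have hr1 : max p (1 - p) < 1 := max_lt hp1 (by linarith)
  refine ⟨hm, hr0, hr1, ?_, ?_, ?_⟩
  · intro k hk
    have hprob : IsProbabilityMeasure (m.map (fun x : ℕ → Letter => x 0)) :=
      Measure.isProbabilityMeasure_map (measurable_pi_apply 0).aemeasurable
    rw [m_eq hp hp1 h]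
    exact erg_iid _ k hk
  · rw [ae_all_iff]
    intro n
    have h1 := measure_eq_zero_iff_ae_notMem.1 (pos_null hp hp1 h (n + 1))
    have h2 := measure_eq_zero_iff_ae_notMem.1 (pos_null hp hp1 h n)
    filter_upwards [h1, h2] with x hx hx' heq
    replace hx : ¬ (x (n + 1)).2 = false := hx
    replace hx' : ¬ (x n).2 = false := hx'
    apply hx
    rw [heq]
    have h3 : (x n).2 = true := by
      cases hb : (x n).2
      · exact absurd hb hx'
      · rfl
    show (!(x n).2) = false
    rw [h3]
    rfl
  · intro n i u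
    induction i with
    | zero => simp
    | succ i ih =>
      have h1 := cyl_succ hp hp1 h (n + i) u
      rw [← add_assoc]
      refine h1.trans ?_
      calc ENNReal.ofReal (max p (1 - p)) * m {x | ∀ k < n + i, x k = u k}
          ≤ ENNReal.ofReal (max p (1 - p)) *
            (ENNReal.ofReal (max p (1 - p) ^ i) * m {x | ∀ k < n, x k = u k}) := by gcongr
        _ = ENNReal.ofReal (max p (1 - p) ^ (i + 1)) * m {x | ∀ k < n, x k = u k} := by
            rw [← mul_assoc, ← ENNReal.ofReal_mul hr0.le, pow_succ, mul_comm (max p (1 - p))]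

end Pool.Agent.R667.TP
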