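import Pool.Agent.R667.TP.Stm

/-! Piece LAWR: the law of a random infinite reduced word is good. -/

set_option autoImplicit false

open MeasureTheory Filter Topology

namespace Pool.Agent.R667.TP

/-- cylinder -/
def lwC (u : ℕ → Letter) (n : ℕ) : Set (ℕ → Letter) := {x | ∀ k < n, x k = u k}

lemma lw_meas1 (k : ℕ) (a : Letter) : MeasurableSet {x : ℕ → Letter | x k = a} := by
  have h : Measurable (fun x : ℕ → Letter => x k) := measurable_pi_apply k
  exact h (measurableSet_singleton a)

lemma lw_meas (u : ℕ → Letter) (n : ℕ) : MeasurableSet (lwC u n) := by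
  have h : lwC u n = ⋂ k ∈ Finset.range n, {x : ℕ → Letter | x k = u k} := by
    ext x
    simp [lwC]
  rw [h]
  exact Finset.measurableSet_biInter _ (fun k _ => lw_meas1 k (u k))

lemma lw_ext (m₁ m₂ : Measure (ℕ → Letter)) [IsFiniteMeasure m₁] [IsFiniteMeasure m₂]
    (h : ∀ u n, m₁ (lwC u n) = m₂ (lwC u n)) : m₁ = m₂ := by
  have hN : ∀ N : ℕ, m₁.map (Finset.range N).restrict = m₂.map (Finset.range N).restrict := by
    intro N
    apply Measure.ext_of_singleton
    intro v
    rw [Measure.map_apply (Finset.measurable_restrict _) (measurableSet_singleton v),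
      Measure.map_apply (Finset.measurable_restrict _) (measurableSet_singleton v)]
    have hpre : ((Finset.range N).restrict (π := fun _ => Letter)) ⁻¹' {v} =
        lwC (fun k => if hk : k ∈ Finset.range N then v ⟨k, hk⟩ else (0, true)) N := by
      ext x
      simp only [Set.mem_preimage, Set.mem_singleton_iff, lwC, Set.mem_setOf_eq]
      constructor
      · intro hx k hk
        rw [dif_pos (Finset.mem_range.2 hk), ← hx]
        rfl
      · intro hx
        funext k
        have := hx k (Finset.mem_range.1 k.2)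
        rw [dif_pos k.2] at this
        exact this
    rw [hpre]
    exact h _ _
  have hP : IsProjectiveLimit m₁ (fun I => m₁.map I.restrict) := fun I => rfl
  have hP2 : IsProjectiveLimit m₂ (fun I => m₁.map I.restrict) := by
    intro I
    obtain ⟨N, hI⟩ := Finset.exists_nat_subset_range I
    have e : (I.restrict : (ℕ → Letter) → _) =
        Finset.restrict₂ hI ∘ (Finset.range N).restrict := rfl
    change m₂.map I.restrict = m₁.map I.restrict
    rw [e, ← Measure.map_map (Finset.measurable_restrict₂ hI) (Finset.measurable_restrict _),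
      ← Measure.map_map (Finset.measurable_restrict₂ hI) (Finset.measurable_restrict _), hN]
  exact hP.unique hP2

lemma lw_shn (n : ℕ) (x : ℕ → Letter) (k : ℕ) : sh^[n] x k = x (k + n) := by
  induction n generalizing x with
  | zero => rfl
  | succ n ih =>
    rw [Function.iterate_succ_apply, ih]
    simp only [sh]
    congr 1

lemma lw_shm (n : ℕ) : Measurable (sh^[n]) := by
  have : sh^[n] = fun (x : ℕ → Letter) (k : ℕ) => x (k + n) := by
    funext x k
    exact lw_shn n x k
  rw [this]
  exact measurable_pi_lambda _ (fun k => measurable_pi_apply _)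

section

variable {m : Measure (ℕ → Letter)} [IsProbabilityMeasure m]
  (hR : ReducedProcess m (fun n x => x n))

include hR

lemma lw_one (u : ℕ → Letter) : m (lwC u 1) = 1 / 4 := by
  rw [← hR.first (u 0)]
  congr 1
  ext x
  simp [lwC]

omit hR in
lemma lw_zero (u : ℕ → Letter) : m (lwC u 0) = 1 := by
  have : lwC u 0 = Set.univ := by
    ext x
    simp [lwC]
  rw [this]
  exact measure_univ

lemma lw_step (u : ℕ → Letter) (n : ℕ) : m (lwC u (n + 2)) =
    if u (n + 1) = invL (u n) then 0 else (1 / 3) * m (lwC u (n + 1)) := by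
  have h := hR.step n u (u (n + 1))
  have e1 : lwC u (n + 2) = {ω : ℕ → Letter | (∀ k ≤ n, ω k = u k) ∧ ω (n + 1) = u (n + 1)} := by
    ext x
    simp only [lwC, Set.mem_setOf_eq]
    constructor
    · intro hx
      exact ⟨fun k hk => hx k (by omega), hx (n + 1) (by omega)⟩
    · rintro ⟨h1, h2⟩ k hk
      rcases Nat.lt_or_ge k (n + 1) with h | h
      · exact h1 k (by omega)
      · have : k = n + 1 := by omega
        subst this
        exact h2
  have e2 : lwC u (n + 1) = {ω : ℕ → Letter | ∀ k ≤ n, ω k = u k} := by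
    ext x
    simp only [lwC, Set.mem_setOf_eq, Nat.lt_succ_iff]
  rw [e1, e2]
  exact h

lemma lw_prod (u v : ℕ → Letter) (n : ℕ) (huv : v 0 = u n) (l : ℕ) :
    m (lwC (fun k => if k ≤ n then u k else v (k - n)) (n + (l + 1))) =
      4 * m (lwC u (n + 1)) * m (lwC v (l + 1)) := by
  induction l with
  | zero =>
    rw [zero_add, lw_one hR v]
    have e : lwC (fun k => if k ≤ n then u k else v (k - n)) (n + 1) = lwC u (n + 1) := by
      ext x
      simp only [lwC, Set.mem_setOf_eq]
      apply forall_congr'
      intro k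
      apply forall_congr'
      intro hk
      rw [if_pos (by omega)]
    rw [e, mul_comm (4 : ENNReal), mul_assoc]
    have : (4 : ENNReal) * (1 / 4) = 1 := by
      rw [one_div]
      exact ENNReal.mul_inv_cancel (by norm_num) (by norm_num)
    rw [this, mul_one]
  | succ l ih =>
    have e1 := lw_step hR (fun k => if k ≤ n then u k else v (k - n)) (n + l)
    have e2 := lw_step hR v l
    have w1 : (if n + l + 1 ≤ n then u (n + l + 1) else v (n + l + 1 - n)) = v (l + 1) := by
      rw [if_neg (by omega)]
      congr 1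
      omega
    have w2 : (if n + l ≤ n then u (n + l) else v (n + l - n)) = v l := by
      rcases Nat.eq_zero_or_pos l with rfl | hl
      · rw [if_pos (by omega), huv, add_zero]
      · rw [if_neg (by omega)]
        congr 1
        omega
    rw [w1, w2] at e1
    have e3 : n + (l + 1 + 1) = n + l + 2 := by ring
    rw [e3, e1, e2]
    split_ifs
    · simp
    · have e4 : n + l + 1 = n + (l + 1) := by ring
      rw [e4, ih]
      ring

lemma lw_markov (u : ℕ → Letter) (n : ℕ) :
    (m.restrict (lwC u (n + 1))).map (sh^[n]) =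
      (4 * m (lwC u (n + 1))) • m.restrict {x | x 0 = u n} := by
  have hfin : 4 * m (lwC u (n + 1)) ≠ ⊤ := ENNReal.mul_ne_top (by norm_num) (measure_ne_top _ _)
  haveI : IsFiniteMeasure ((4 * m (lwC u (n + 1))) • m.restrict {x | x 0 = u n}) :=
    Measure.smul_finite _ hfin
  haveI : IsFiniteMeasure ((m.restrict (lwC u (n + 1))).map (sh^[n])) :=
    Measure.isFiniteMeasure_map _ _
  apply lw_ext
  intro v l
  rw [Measure.map_apply (lw_shm n) (lw_meas v l), Measure.restrict_apply ((lw_shm n) (lw_meas v l)),
    Measure.smul_apply, Measure.restrict_apply (lw_meas v l), smul_eq_mul]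
  rcases Nat.eq_zero_or_pos l with rfl | hl
  · have e1 : lwC v 0 = Set.univ := by ext x; simp [lwC]
    rw [e1, Set.preimage_univ, Set.univ_inter, Set.univ_inter, hR.first (u n), mul_comm (4 : ENNReal),
      mul_assoc]
    have : (4 : ENNReal) * (1 / 4) = 1 := by
      rw [one_div]
      exact ENNReal.mul_inv_cancel (by norm_num) (by norm_num)
    rw [this, mul_one]
  · obtain ⟨l, rfl⟩ : ∃ l', l = l' + 1 := ⟨l - 1, by omega⟩
    by_cases huv : v 0 = u n
    · have e1 : lwC v (l + 1) ∩ {x | x 0 = u n} = lwC v (l + 1) := by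
        apply Set.inter_eq_left.2
        intro x hx
        have := hx 0 (by omega)
        exact this.trans huv
      have e2 : sh^[n] ⁻¹' lwC v (l + 1) ∩ lwC u (n + 1) =
          lwC (fun k => if k ≤ n then u k else v (k - n)) (n + (l + 1)) := by
        ext x
        simp only [lwC, Set.mem_inter_iff, Set.mem_preimage, Set.mem_setOf_eq, lw_shn]
        constructor
        · rintro ⟨h1, h2⟩ k hk
          split_ifs with h
          · exact h2 k (by omega)
          · have := h1 (k - n) (by omega)
            rw [← this]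
            congr 1
            omega
        · intro h
          constructor
          · intro k hk
            have := h (k + n) (by omega)
            rw [this]
            split_ifs with h3
            · have : k = 0 := by omega
              subst this
              rw [huv, zero_add]
            · congr 1
              omega
          · intro k hk
            have := h k (by omega)
            rw [this, if_pos (by omega)]
      rw [e1, e2, lw_prod hR u v n huv l]
    · have e1 : lwC v (l + 1) ∩ {x | x 0 = u n} = ∅ := by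
        ext x
        simp only [Set.mem_inter_iff, Set.mem_setOf_eq, Set.mem_empty_iff_false, iff_false, not_and]
        intro h1 h2
        exact huv ((h1 0 (by omega)).symm.trans h2)
      have e2 : sh^[n] ⁻¹' lwC v (l + 1) ∩ lwC u (n + 1) = ∅ := by
        ext x
        simp only [Set.mem_inter_iff, Set.mem_preimage, Set.mem_empty_iff_false, iff_false, not_and]
        intro h1 h2
        have h3 := h1 0 (by omega)
        rw [lw_shn, zero_add] at h3
        exact huv (h3.symm.trans (h2 n (by omega)))
      rw [e1, e2]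
      simp

/-- Markov property, real form -/
lemma lw_markov' (u : ℕ → Letter) (n : ℕ) {A : Set (ℕ → Letter)} (hA : MeasurableSet A) :
    m.real (lwC u (n + 1) ∩ sh^[n] ⁻¹' A) =
      m.real (lwC u (n + 1)) * (4 * m.real ({x | x 0 = u n} ∩ A)) := by
  have h := congrArg (fun μ : Measure (ℕ → Letter) => (μ A).toReal) (lw_markov hR u n)
  rw [Measure.map_apply (lw_shm n) hA, Measure.restrict_apply ((lw_shm n) hA),
    Measure.smul_apply, Measure.restrict_apply hA, smul_eq_mul, ENNReal.toReal_mul,
    ENNReal.toReal_mul] at h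
  rw [Set.inter_comm, Measure.real, h, Set.inter_comm A]
  simp only [Measure.real]
  norm_num
  ring

/-- the conditional probabilities -/
noncomputable def lwh (m : Measure (ℕ → Letter)) (A : Set (ℕ → Letter)) (j : ℕ) (a : Letter) : ℝ :=
  4 * m.real ({x | x 0 = a} ∩ sh^[j] ⁻¹' A)

omit hR in
lemma lw_split (B : Set (ℕ → Letter)) (hB : MeasurableSet B) (k : ℕ) :
    m.real B = ∑ b : Letter, m.real (B ∩ {x | x k = b}) := by
  have h1 : B = ⋃ b ∈ (Finset.univ : Finset Letter), (B ∩ {x | x k = b}) := by
    ext x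
    simp
  conv_lhs => rw [h1]
  rw [measureReal_biUnion_finset]
  · intro a _ b _ hab
    apply Set.disjoint_left.2
    rintro x ⟨_, h2⟩ ⟨_, h3⟩
    exact hab (h2.symm.trans h3)
  · intro b _
    exact hB.inter (lw_meas1 k b)

lemma lw_rec {A : Set (ℕ → Letter)} (hA : MeasurableSet A) (j : ℕ) (a : Letter) :
    lwh m A (j + 1) a = 1 / 3 * ((∑ b : Letter, lwh m A j b) - lwh m A j (invL a)) := by
  have hS : MeasurableSet ({x : ℕ → Letter | x 0 = a} ∩ sh^[j + 1] ⁻¹' A) :=
    (lw_meas1 0 a).inter (lw_shm _ hA)
  have key : ∀ b : Letter, 4 * m.real (({x : ℕ → Letter | x 0 = a} ∩ sh^[j + 1] ⁻¹' A) ∩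
      {x | x 1 = b}) = if b = invL a then 0 else 1 / 3 * lwh m A j b := by
    intro b
    set u : ℕ → Letter := fun k => if k = 0 then a else b with hu
    have e1 : ({x : ℕ → Letter | x 0 = a} ∩ sh^[j + 1] ⁻¹' A) ∩ {x | x 1 = b} =
        lwC u 2 ∩ sh^[1] ⁻¹' (sh^[j] ⁻¹' A) := by
      ext x
      simp only [Set.mem_inter_iff, Set.mem_setOf_eq, Set.mem_preimage, lwC,
        Function.iterate_succ_apply, Function.iterate_zero, id]
      constructor
      · rintro ⟨⟨h1, h2⟩, h3⟩
        refine ⟨?_, h2⟩
        intro k hk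
        rcases (by omega : k = 0 ∨ k = 1) with rfl | rfl
        · simpa [hu] using h1
        · simpa [hu] using h3
      · rintro ⟨h1, h2⟩
        refine ⟨⟨?_, h2⟩, ?_⟩
        · simpa [hu] using h1 0 (by omega)
        · simpa [hu] using h1 1 (by omega)
    rw [e1, lw_markov' hR u 1 (lw_shm j hA)]
    have e2 := congrArg ENNReal.toReal (lw_step hR u 0)
    have e3 : u 1 = b := by simp [hu]
    have e4 : u 0 = a := by simp [hu]
    rw [zero_add, zero_add, e3, e4, lw_one hR u] at e2
    have e5 : m.real (lwC u (1 + 1)) = (m (lwC u 2)).toReal := rfl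
    rw [e5, e2, e3]
    split_ifs with h
    · simp
    · rw [lwh, ENNReal.toReal_mul]
      have : ((1 : ENNReal) / 3).toReal = 1 / 3 := by simp
      rw [this]
      have : ((1 : ENNReal) / 4).toReal = 1 / 4 := by simp
      rw [this]
      ring
  have h0 : lwh m A (j + 1) a = ∑ b : Letter, (if b = invL a then 0 else 1 / 3 * lwh m A j b) := by
    rw [lwh, lw_split _ hS 1, Finset.mul_sum]
    exact Finset.sum_congr rfl (fun b _ => key b)
  rw [h0]
  have h1 : ∀ b : Letter, (if b = invL a then (0 : ℝ) else 1 / 3 * lwh m A j b) =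
      1 / 3 * lwh m A j b - (if b = invL a then 1 / 3 * lwh m A j b else 0) := by
    intro b
    split_ifs <;> ring
  rw [Finset.sum_congr rfl (fun b _ => h1 b), Finset.sum_sub_distrib, Finset.sum_ite_eq',
    ← Finset.mul_sum]
  simp only [Finset.mem_univ, if_true]
  ring

omit hR in
lemma lw_inv_sum (f : Letter → ℝ) : ∑ a : Letter, f (invL a) = ∑ a : Letter, f a := by
  apply Fintype.sum_bijective invL
  · constructor
    · rintro ⟨a, x⟩ ⟨b, y⟩ h
      simp only [invL, Prod.mk.injEq] at h
      rcases h with ⟨h1, h2⟩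
      simp only [Prod.mk.injEq]
      refine ⟨h1, ?_⟩
      cases x <;> cases y <;> simp_all
    · rintro ⟨a, x⟩
      exact ⟨(a, !x), by simp [invL]⟩
  · intro a
    rfl

omit hR in
lemma lw_card : (Fintype.card Letter) = 4 := by simp

lemma lw_S {A : Set (ℕ → Letter)} (hA : MeasurableSet A) (j : ℕ) :
    ∑ b : Letter, lwh m A j b = 4 * m.real A := by
  induction j with
  | zero =>
    have := lw_split (m := m) A hA 0
    rw [this, Finset.mul_sum]
    apply Finset.sum_congr rfl
    intro b _
    simp only [lwh, Function.iterate_zero, Set.preimage_id_eq, id, Set.inter_comm]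
  | succ j ih =>
    rw [Finset.sum_congr rfl (fun b _ => lw_rec hR hA j b), ← Finset.mul_sum,
      Finset.sum_sub_distrib, lw_inv_sum (fun a => lwh m A j a), Finset.sum_const,
      Finset.card_univ, lw_card, ih]
    simp only [nsmul_eq_mul]
    push_cast
    ring

lemma lw_pres {A : Set (ℕ → Letter)} (hA : MeasurableSet A) (j : ℕ) :
    m.real (sh^[j] ⁻¹' A) = m.real A := by
  have h1 := lw_split (m := m) _ (lw_shm j hA) 0
  have h2 := lw_S hR hA j
  have h3 : ∑ b : Letter, lwh m A j b = 4 * ∑ b : Letter, m.real (sh^[j] ⁻¹' A ∩ {x | x 0 = b}) := by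
    rw [Finset.mul_sum]
    apply Finset.sum_congr rfl
    intro b _
    rw [lwh, Set.inter_comm]
  rw [← h1] at h3
  linarith

lemma lw_mp (j : ℕ) : MeasurePreserving (sh^[j]) m m := by
  refine ⟨lw_shm j, ?_⟩
  ext A hA
  rw [Measure.map_apply (lw_shm j) hA]
  have := lw_pres hR hA j
  rw [Measure.real, Measure.real] at this
  exact (ENNReal.toReal_eq_toReal_iff' (measure_ne_top _ _) (measure_ne_top _ _)).1 this

lemma lw_dec {A : Set (ℕ → Letter)} (hA : MeasurableSet A) (j : ℕ) :
    ∀ a : Letter, |lwh m A j a - m.real A| ≤ 4 * (1 / 3) ^ j := by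
  induction j with
  | zero =>
    intro a
    have h1 : m.real ({x | x 0 = a} ∩ sh^[0] ⁻¹' A) ≤ 1 := measureReal_le_one
    have h2 : 0 ≤ m.real ({x | x 0 = a} ∩ sh^[0] ⁻¹' A) := measureReal_nonneg
    have h3 : m.real A ≤ 1 := measureReal_le_one
    have h4 : 0 ≤ m.real A := measureReal_nonneg
    rw [lwh, pow_zero, abs_le]
    constructor <;> linarith
  | succ j ih =>
    intro a
    have h := lw_rec hR hA j a
    rw [lw_S hR hA j] at h
    have h2 := ih (invL a)
    have h3 : lwh m A (j + 1) a - m.real A = -(1 / 3) * (lwh m A j (invL a) - m.real A) := by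
      rw [h]
      ring
    rw [h3, abs_mul, pow_succ]
    have : |(-(1 / 3) : ℝ)| = 1 / 3 := by norm_num
    rw [this]
    linarith

lemma lw_indep (k : ℕ) (hk : 1 ≤ k) {A : Set (ℕ → Letter)} (hA : MeasurableSet A)
    (hinv : (sh^[k]) ⁻¹' A = A) (u : ℕ → Letter) (n : ℕ) :
    m.real (lwC u n ∩ A) = m.real (lwC u n) * m.real A := by
  rcases Nat.eq_zero_or_pos n with rfl | hn
  · have e1 : lwC u 0 = Set.univ := by ext x; simp [lwC]
    rw [e1, Set.univ_inter, probReal_univ, one_mul]
  · obtain ⟨n, rfl⟩ : ∃ n', n = n' + 1 := ⟨n - 1, by omega⟩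
    have hit : ∀ i : ℕ, (sh^[k * i]) ⁻¹' A = A := by
      intro i
      induction i with
      | zero => rfl
      | succ i ih =>
        rw [mul_add, mul_one, Function.iterate_add, Set.preimage_comp, ih, hinv]
    have key : ∀ i : ℕ, |m.real (lwC u (n + 1) ∩ A) - m.real (lwC u (n + 1)) * m.real A| ≤
        4 * (1 / 3) ^ i := by
      intro i
      have e1 : (sh^[n]) ⁻¹' ((sh^[k * (n + i) - n]) ⁻¹' A) = A := by
        rw [← Set.preimage_comp, ← Function.iterate_add]
        have h1 : n + i ≤ k * (n + i) := Nat.le_mul_of_pos_left _ hk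
        have : k * (n + i) - n + n = k * (n + i) := by omega
        rw [this, hit]
      have e2 := lw_markov' hR u n (lw_shm (k * (n + i) - n) hA)
      rw [e1] at e2
      have e3 := lw_dec hR hA (k * (n + i) - n) (u n)
      rw [lwh] at e3
      rw [e2, ← mul_sub, abs_mul, abs_of_nonneg measureReal_nonneg]
      have e4 : m.real (lwC u (n + 1)) ≤ 1 := measureReal_le_one
      have e5 : ((1 : ℝ) / 3) ^ (k * (n + i) - n) ≤ (1 / 3) ^ i := by
        apply pow_le_pow_of_le_one (by norm_num) (by norm_num)
        have h1 : n + i ≤ k * (n + i) := Nat.le_mul_of_pos_left _ hk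
        omega
      calc m.real (lwC u (n + 1)) * |4 * m.real ({x | x 0 = u n} ∩ (sh^[k * (n + i) - n]) ⁻¹' A)
            - m.real A| ≤ 1 * (4 * (1 / 3) ^ (k * (n + i) - n)) :=
            mul_le_mul e4 e3 (abs_nonneg _) zero_le_one
        _ ≤ 4 * (1 / 3) ^ i := by linarith
    have hlim : Tendsto (fun i : ℕ => 4 * ((1 : ℝ) / 3) ^ i) atTop (𝓝 (4 * 0)) :=
      (tendsto_pow_atTop_nhds_zero_of_lt_one (by norm_num) (by norm_num)).const_mul 4
    rw [mul_zero] at hlim
    have h0 : |m.real (lwC u (n + 1) ∩ A) - m.real (lwC u (n + 1)) * m.real A| ≤ 0 :=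
      ge_of_tendsto' hlim key
    have := abs_nonpos_iff.1 h0
    linarith

lemma lw_erg (k : ℕ) (hk : 1 ≤ k) : Ergodic (sh^[k]) m := by
  refine ⟨lw_mp hR k, ⟨?_⟩⟩
  intro A hA hinv
  have hmeas : m.restrict A = m A • m := by
    haveI : IsFiniteMeasure (m A • m) := Measure.smul_finite _ (measure_ne_top _ _)
    apply lw_ext
    intro u n
    rw [Measure.restrict_apply (lw_meas u n), Measure.smul_apply, smul_eq_mul]
    have h := lw_indep hR k hk hA hinv u n
    rw [Measure.real, Measure.real, Measure.real, ← ENNReal.toReal_mul] at h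
    rw [mul_comm]
    exact (ENNReal.toReal_eq_toReal_iff' (measure_ne_top _ _)
      (ENNReal.mul_ne_top (measure_ne_top _ _) (measure_ne_top _ _))).1 h
  have h1 := congrArg (fun μ : Measure (ℕ → Letter) => (μ A).toReal) hmeas
  rw [Measure.restrict_apply hA, Set.inter_self, Measure.smul_apply, smul_eq_mul,
    ENNReal.toReal_mul] at h1
  have h3 : m.real A * (m.real A - 1) = 0 := by
    rw [Measure.real]
    linarith
  rw [Filter.eventuallyConst_set']
  rcases mul_eq_zero.1 h3 with h4 | h4
  · left
    rw [ae_eq_empty]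
    exact (measureReal_eq_zero_iff).1 h4
  · right
    rw [ae_eq_univ]
    have h5 : m.real A = 1 := by linarith
    have h6 := probReal_compl_eq_one_sub (μ := m) hA
    rw [h5, sub_self] at h6
    exact (measureReal_eq_zero_iff).1 h6

lemma lw_red : ∀ᵐ x ∂m, ∀ n, x (n + 1) ≠ invL (x n) := by
  rw [ae_all_iff]
  intro n
  rw [ae_iff]
  simp only [ne_eq, not_not]
  have hsub : {x : ℕ → Letter | x (n + 1) = invL (x n)} ⊆
      ⋃ v : Fin (n + 2) → Letter, (if v (Fin.last (n + 1)) = invL (v (Fin.last n).castSucc)
        then lwC (fun k => if h : k < n + 2 then v ⟨k, h⟩ else (0, true)) (n + 2) else ∅) := by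
    intro x hx
    rw [Set.mem_iUnion]
    refine ⟨fun k => x k, ?_⟩
    have h1 : x (n + 1) = invL (x n) := hx
    have h2 : (fun k : Fin (n + 2) => x k) (Fin.last (n + 1)) =
        invL ((fun k : Fin (n + 2) => x k) (Fin.last n).castSucc) := by
      simpa using h1
    rw [if_pos h2]
    intro k hk
    simp [hk]
  refine measure_mono_null hsub ?_
  rw [measure_iUnion_null_iff]
  intro v
  split_ifs with h
  · rw [lw_step hR, if_pos]
    rw [dif_pos (by omega), dif_pos (by omega)]
    exact h
  · simp

lemma lw_spread (n i : ℕ) (u : ℕ → Letter) :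
    m (lwC u (n + i)) ≤ ENNReal.ofReal ((1 / 3 : ℝ) ^ i) * m (lwC u n) := by
  have h3 : ENNReal.ofReal (1 / 3 : ℝ) = 1 / 3 := by
    rw [ENNReal.ofReal_div_of_pos (by norm_num)]
    simp
  have hstep : ∀ k : ℕ, m (lwC u (k + 1)) ≤ (1 / 3) * m (lwC u k) := by
    intro k
    rcases Nat.eq_zero_or_pos k with rfl | hk
    · rw [zero_add, lw_one hR, lw_zero, mul_one]
      exact ENNReal.div_le_div_left (by norm_num) 1
    · obtain ⟨k, rfl⟩ : ∃ k', k = k' + 1 := ⟨k - 1, by omega⟩
      rw [lw_step hR]
      split_ifs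
      · exact bot_le
      · exact le_rfl
  induction i with
  | zero => simp
  | succ i ih =>
    calc m (lwC u (n + (i + 1))) ≤ (1 / 3) * m (lwC u (n + i)) := hstep (n + i)
      _ ≤ (1 / 3) * (ENNReal.ofReal ((1 / 3 : ℝ) ^ i) * m (lwC u n)) := by gcongr
      _ = ENNReal.ofReal ((1 / 3 : ℝ) ^ (i + 1)) * m (lwC u n) := by
          rw [pow_succ, ENNReal.ofReal_mul (by positivity), h3]
          ring

end

theorem t_LAWR : S_LAWR := by
  intro m hm hR
  exact ⟨hm, by norm_num, by norm_num, fun k hk => lw_erg hR k hk, lw_red hR,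
    fun n i u => lw_spread hR n i u⟩

end Pool.Agent.R667.TP
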