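import Pool.Agent.R667.TP.Stm

/-! Trace polynomials of random words: the squeeze. -/

set_option autoImplicit false

open MeasureTheory Filter Topology

namespace Pool.Agent.R667.TP.LIM

/-- `(√n + 1) log (n + 2) ≤ K n^{3/4}` -/
lemma err : ∃ K : ℝ, 0 ≤ K ∧ ∀ n : ℕ, 1 ≤ n →
    ((n.sqrt : ℝ) + 1) * Real.log (n + 2) / n ≤ K * (n : ℝ) ^ (-(1 / 4) : ℝ) := by
  refine ⟨8 * 3, by norm_num, fun n hn => ?_⟩
  have hn0 : (1 : ℝ) ≤ n := by exact_mod_cast hn
  have hnp : (0 : ℝ) < n := by linarith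
  have h1 : (n.sqrt : ℝ) ≤ (n : ℝ) ^ (1 / 2 : ℝ) := by
    rw [← Real.sqrt_eq_rpow]
    exact Real.nat_sqrt_le_real_sqrt
  have h2 : (1 : ℝ) ≤ (n : ℝ) ^ (1 / 2 : ℝ) := Real.one_le_rpow hn0 (by norm_num)
  have h3 : Real.log (n + 2) ≤ 4 * ((n : ℝ) + 2) ^ (1 / 4 : ℝ) := by
    have := Real.log_le_rpow_div (x := (n : ℝ) + 2) (ε := 1 / 4) (by linarith) (by norm_num)
    linarith
  have h4 : ((n : ℝ) + 2) ^ (1 / 4 : ℝ) ≤ 3 * (n : ℝ) ^ (1 / 4 : ℝ) := by
    calc ((n : ℝ) + 2) ^ (1 / 4 : ℝ) ≤ (3 * n) ^ (1 / 4 : ℝ) :=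
          Real.rpow_le_rpow (by linarith) (by linarith) (by norm_num)
      _ = 3 ^ (1 / 4 : ℝ) * (n : ℝ) ^ (1 / 4 : ℝ) := Real.mul_rpow (by norm_num) hnp.le
      _ ≤ 3 * (n : ℝ) ^ (1 / 4 : ℝ) := by
          refine mul_le_mul_of_nonneg_right ?_ (by positivity)
          calc (3 : ℝ) ^ (1 / 4 : ℝ) ≤ 3 ^ (1 : ℝ) :=
                Real.rpow_le_rpow_of_exponent_le (by norm_num) (by norm_num)
            _ = 3 := Real.rpow_one _
  have h5 : 0 ≤ Real.log ((n : ℝ) + 2) := Real.log_nonneg (by linarith)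
  rw [div_le_iff₀ hnp]
  calc ((n.sqrt : ℝ) + 1) * Real.log (n + 2)
      ≤ (2 * (n : ℝ) ^ (1 / 2 : ℝ)) * (4 * (3 * (n : ℝ) ^ (1 / 4 : ℝ))) := by
        refine mul_le_mul (by linarith) (h3.trans (by linarith)) h5 (by positivity)
    _ = 8 * 3 * ((n : ℝ) ^ (1 / 2 : ℝ) * (n : ℝ) ^ (1 / 4 : ℝ)) := by ring
    _ = 8 * 3 * ((n : ℝ) ^ (-(1 / 4) : ℝ) * n) := by
        rw [← Real.rpow_add hnp, ← Real.rpow_add_one hnp.ne']
        norm_num
    _ = 8 * 3 * (n : ℝ) ^ (-(1 / 4) : ℝ) * n := by ring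

/-- the error tends to zero -/
lemma err_lim : Tendsto (fun n : ℕ => ((n.sqrt : ℝ) + 1) * Real.log (n + 2) / n) atTop (𝓝 0) := by
  obtain ⟨K, hK, h⟩ := err
  have h0 : Tendsto (fun n : ℕ => K * (n : ℝ) ^ (-(1 / 4) : ℝ)) atTop (𝓝 0) := by
    have := (tendsto_rpow_neg_atTop (y := 1 / 4) (by norm_num)).comp
      (tendsto_natCast_atTop_atTop (R := ℝ))
    simpa using this.const_mul K
  refine squeeze_zero' (Eventually.of_forall fun n => ?_) ?_ h0
  · have : 0 ≤ Real.log ((n : ℝ) + 2) := Real.log_nonneg (by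
      have : (0 : ℝ) ≤ n := Nat.cast_nonneg n
      linarith)
    positivity
  · filter_upwards [eventually_ge_atTop 1] with n hn
    exact h n hn

lemma wd_add (x : ℕ → Letter) (k : ℕ) : wd x (k + 1) = wd x k * FreeGroup.mk [x k] := by
  unfold wd
  rw [FreeGroup.mul_mk, List.range_succ, List.map_append]
  rfl

lemma nn_add (hN : S_NRM) (x : ℕ → Letter) (k i : ℕ) :
    Nn (wd x (k + i)) ≤ Nn (wd x k) * 20 ^ i := by
  induction i with
  | zero => simp
  | succ i ih =>
    rw [← add_assoc, wd_add]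
    calc _ ≤ Nn (wd x (k + i)) * Nn (FreeGroup.mk [x (k + i)]) := hN.1 _ _
      _ ≤ (Nn (wd x k) * 20 ^ i) * 20 := Nat.mul_le_mul ih (hN.2.2.1 _)
      _ = Nn (wd x k) * 20 ^ (i + 1) := by ring

end Pool.Agent.R667.TP.LIM

namespace Pool.Agent.R667.TP

open LIM

theorem t_LIM (hK : S_KING) (hB : S_BC) (hN : S_NRM) (hD : S_DEG) (hH : S_HT) (hF : S_FRT) :
    S_LIM := by
  intro m ρ hm
  obtain ⟨γ, hγ⟩ := hK m ρ hm
  obtain ⟨C, hC1, hC⟩ := hB m ρ hm
  have hL : ∀ᵐ x ∂m, Tendsto (fun n : ℕ => Real.log (Ln (fr (wd x n))) / n) atTop (𝓝 γ) := by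
    filter_upwards [hγ, hC] with x hx hy
    -- lower bound
    have hlow : Tendsto (fun n : ℕ => Real.log (Nn (wd x n)) / n -
        (C + Real.log 20 + 1) * (((n.sqrt : ℝ) + 1) * Real.log (n + 2) / n)) atTop (𝓝 γ) := by
      have := hx.sub (err_lim.const_mul (C + Real.log 20 + 1))
      simpa using this
    have hup : Tendsto (fun n : ℕ => Real.log (Nn (wd x n)) / n +
        (((n.sqrt : ℝ) + 1) * Real.log (n + 2) / n)) atTop (𝓝 γ) := by
      have := hx.add err_lim
      simpa using this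
    refine tendsto_of_tendsto_of_tendsto_of_le_of_le' hlow hup ?_ ?_
    · filter_upwards [hy, eventually_ge_atTop 2] with n hn hn2
      have hnp : (0 : ℝ) < n := by
        have : (2 : ℝ) ≤ n := by exact_mod_cast hn2
        linarith
      have hin : n.sqrt ≤ n := Nat.sqrt_le_self n
      have hL1 : (1 : ℝ) ≤ Ln (fr (wd x n)) := by exact_mod_cast hF.2 _
      have hN1 : (1 : ℝ) ≤ Nn (wd x n) := by exact_mod_cast hN.2.1 _
      have h1 : (Nn (wd x n) : ℝ) ≤ Nn (wd x (n - n.sqrt)) * 20 ^ n.sqrt := by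
        have := nn_add hN x (n - n.sqrt) n.sqrt
        rw [Nat.sub_add_cancel hin] at this
        exact_mod_cast this
      have hlog2 : Real.log 2 ≤ Real.log ((n : ℝ) + 2) :=
        Real.log_le_log (by norm_num) (by linarith)
      have hlog1 : 1 ≤ Real.log ((n : ℝ) + 2) := by
        rw [Real.le_log_iff_exp_le (by linarith)]
        have := Real.exp_one_lt_d9
        have h2 : (2 : ℝ) ≤ n := by exact_mod_cast hn2
        linarith
      have h2 : (Nn (wd x n) : ℝ) ≤ Real.exp (C * (n.sqrt + 1) * Real.log (n + 2)) *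
          (2 * Ln (fr (wd x n))) * 20 ^ n.sqrt := by
        refine h1.trans (mul_le_mul_of_nonneg_right (hn.trans ?_) (by positivity))
        refine mul_le_mul_of_nonneg_left (by linarith) (by positivity)
      have h3 : Real.log (Nn (wd x n)) ≤ C * (n.sqrt + 1) * Real.log (n + 2) + Real.log 2
          + Real.log (Ln (fr (wd x n))) + n.sqrt * Real.log 20 := by
        have h4 := Real.log_le_log (by linarith) h2
        rw [Real.log_mul (by positivity) (by positivity),
          Real.log_mul (by positivity) (by positivity), Real.log_exp,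
          Real.log_mul (by norm_num) (by positivity), Real.log_pow] at h4
        linarith
      have hs : (0 : ℝ) ≤ n.sqrt := Nat.cast_nonneg _
      have h20 : 0 ≤ Real.log 20 := Real.log_nonneg (by norm_num)
      have h5 : (n.sqrt : ℝ) * Real.log 20 ≤
          Real.log 20 * (((n.sqrt : ℝ) + 1) * Real.log (n + 2)) := by
        have : (n.sqrt : ℝ) ≤ ((n.sqrt : ℝ) + 1) * Real.log (n + 2) := by nlinarith
        nlinarith
      have h6 : Real.log 2 ≤ ((n.sqrt : ℝ) + 1) * Real.log (n + 2) := by nlinarith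
      rw [sub_le_iff_le_add, ← mul_div_assoc, ← add_div, div_le_div_iff_of_pos_right hnp]
      nlinarith
    · filter_upwards [eventually_ge_atTop 2] with n hn2
      have hnp : (0 : ℝ) < n := by
        have : (2 : ℝ) ≤ n := by exact_mod_cast hn2
        linarith
      have hL1 : (1 : ℝ) ≤ Ln (fr (wd x n)) := by exact_mod_cast hF.2 _
      have hN1 : (1 : ℝ) ≤ Nn (wd x n) := by exact_mod_cast hN.2.1 _
      have h1 : (Ln (fr (wd x n)) : ℝ) ≤ 2 * Nn (wd x n) := by exact_mod_cast hN.2.2.2 _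
      have h2 := Real.log_le_log (by linarith) h1
      rw [Real.log_mul (by norm_num) (by positivity)] at h2
      have hlog2 : Real.log 2 ≤ Real.log ((n : ℝ) + 2) :=
        Real.log_le_log (by norm_num) (by linarith)
      have h20 : 0 ≤ Real.log 2 := Real.log_nonneg (by norm_num)
      have hs : (0 : ℝ) ≤ n.sqrt := Nat.cast_nonneg _
      have h6 : Real.log 2 ≤ ((n.sqrt : ℝ) + 1) * Real.log (n + 2) := by nlinarith
      rw [← add_div, div_le_div_iff_of_pos_right hnp]
      linarith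
  refine ⟨γ, hL, ?_⟩
  filter_upwards [hL] with x hx
  have hlow : Tendsto (fun n : ℕ => Real.log (Ln (fr (wd x n))) / n -
      3 * (((n.sqrt : ℝ) + 1) * Real.log (n + 2) / n)) atTop (𝓝 γ) := by
    have := hx.sub (err_lim.const_mul 3)
    simpa using this
  refine tendsto_of_tendsto_of_tendsto_of_le_of_le' hlow hx ?_ ?_
  all_goals
    filter_upwards [eventually_ge_atTop 2] with n hn2
    have hnp : (0 : ℝ) < n := by
      have : (2 : ℝ) ≤ n := by exact_mod_cast hn2
      linarith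
    have hL1 : (1 : ℝ) ≤ Ln (fr (wd x n)) := by exact_mod_cast hF.2 _
    have hd : ∀ k, (fr (wd x n)).degreeOf k ≤ n + 1 := by
      intro k
      have h7 := (hD ((List.range n).map x) k).2
      rw [List.length_map, List.length_range] at h7
      exact h7
    obtain ⟨g1, g2⟩ := hH (fr (wd x n)) (n + 1) hd
    have g1' : (Ht (fr (wd x n)) : ℝ) ≤ Ln (fr (wd x n)) := by exact_mod_cast g1
    have g2' : (Ln (fr (wd x n)) : ℝ) ≤ ((n : ℝ) + 2) ^ 3 * Ht (fr (wd x n)) := by
      have : (Ln (fr (wd x n)) : ℝ) ≤ ((n + 1 + 1 : ℕ) : ℝ) ^ 3 * Ht (fr (wd x n)) := by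
        exact_mod_cast g2
      push_cast at this
      rw [show (n : ℝ) + 2 = n + 1 + 1 by ring]
      exact this
    have hH0 : (0 : ℝ) < Ht (fr (wd x n)) := by
      rcases Nat.eq_zero_or_pos (Ht (fr (wd x n))) with h | h
      · rw [h, Nat.cast_zero, mul_zero] at g2'
        linarith
      · exact_mod_cast h
  · have h2 := Real.log_le_log (by linarith) g2'
    rw [Real.log_mul (by positivity) hH0.ne', Real.log_pow] at h2
    push_cast at h2
    have hs : (0 : ℝ) ≤ n.sqrt := Nat.cast_nonneg _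
    have hlog : 0 ≤ Real.log ((n : ℝ) + 2) := Real.log_nonneg (by linarith)
    rw [sub_le_iff_le_add, ← mul_div_assoc, ← add_div, div_le_div_iff_of_pos_right hnp]
    nlinarith
  · rw [div_le_div_iff_of_pos_right hnp]
    exact Real.log_le_log hH0 g1'

end Pool.Agent.R667.TP
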