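import Pool.Agent.R667.TP.Stm

/-! TP-MAT: Fricke quadratic identity and Cramer for 2x2 matrices. -/

set_option autoImplicit false

namespace Pool.Agent.R667.TP

namespace MATp

open Matrix

/-- the system matrix -/
def EE (g1 g2 g3 g4 h1 h2 h3 h4 : ℂ) : Matrix (Fin 4) (Fin 4) ℂ :=
  !![1, 0, 0, 1; g1, g3, g2, g4; h1, h3, h2, h4;
    g1 * h1 + g2 * h3, g3 * h1 + g4 * h3, g1 * h2 + g2 * h4, g3 * h2 + g4 * h4]

lemma det_EE (g1 g2 g3 g4 h1 h2 h3 h4 dg dh : ℂ) (hg : dg = g1 * g4 - g2 * g3)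
    (hh : dh = h1 * h4 - h2 * h3) :
    (EE g1 g2 g3 g4 h1 h2 h3 h4).det =
      (g1 + g4) ^ 2 * dh + (h1 + h4) ^ 2 * dg +
        (g1 * h1 + g2 * h3 + (g3 * h2 + g4 * h4)) ^ 2 -
        (g1 + g4) * (h1 + h4) * (g1 * h1 + g2 * h3 + (g3 * h2 + g4 * h4)) - 4 * dg * dh := by
  subst hg hh
  unfold EE
  rw [Matrix.det_succ_row_zero]
  simp [Fin.sum_univ_succ, Matrix.det_fin_three, Fin.succAbove, Matrix.submatrix]
  ring

lemma fricke (u1 u2 u3 u4 g1 g2 g3 g4 h1 h2 h3 h4 du dg dh : ℂ) (hu : du = u1 * u4 - u2 * u3)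
    (hg : dg = g1 * g4 - g2 * g3) (hh : dh = h1 * h4 - h2 * h3)
    (tu tg th tug tuh tgh T : ℂ) (e1 : tu = u1 + u4) (e2 : tg = g1 + g4) (e3 : th = h1 + h4)
    (e4 : tug = u1 * g1 + u2 * g3 + (u3 * g2 + u4 * g4))
    (e5 : tuh = u1 * h1 + u2 * h3 + (u3 * h2 + u4 * h4))
    (e6 : tgh = g1 * h1 + g2 * h3 + (g3 * h2 + g4 * h4))
    (e7 : T = u1 * (g1 * h1 + g2 * h3) + u2 * (g3 * h1 + g4 * h3) +
      (u3 * (g1 * h2 + g2 * h4) + u4 * (g3 * h2 + g4 * h4))) :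
    T ^ 2 - (tu * tgh + tg * tuh + th * tug - tu * tg * th) * T +
      (tu ^ 2 * dg * dh + tg ^ 2 * du * dh + th ^ 2 * du * dg + tug ^ 2 * dh + tgh ^ 2 * du +
        tuh ^ 2 * dg - tu * tg * tug * dh - tg * th * tgh * du - tu * th * tuh * dg +
        tug * tgh * tuh - 4 * du * dg * dh) = 0 := by
  subst hu hg hh e1 e2 e3 e4 e5 e6 e7
  ring

lemma det_le4 (A : Matrix (Fin 4) (Fin 4) ℂ) (r : Fin 4 → ℝ) (hr : ∀ i j, ‖A i j‖ ≤ r i) :
    ‖A.det‖ ≤ 24 * ∏ i, r i := by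
  rw [Matrix.det_apply]
  refine (norm_sum_le _ _).trans ?_
  have h : ∀ σ ∈ (Finset.univ : Finset (Equiv.Perm (Fin 4))),
      ‖Equiv.Perm.sign σ • ∏ i, A (σ i) i‖ ≤ ∏ i, r i := by
    intro σ _
    have h1 : ‖Equiv.Perm.sign σ • ∏ i, A (σ i) i‖ = ∏ i, ‖A (σ i) i‖ := by
      rw [← norm_prod]
      rcases Int.units_eq_one_or (Equiv.Perm.sign σ) with h | h <;> rw [h] <;> simp
    rw [h1, ← Equiv.prod_comp σ r]
    exact Finset.prod_le_prod (fun i _ => norm_nonneg _) fun i _ => hr _ _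
  refine (Finset.sum_le_sum h).trans ?_
  rw [Finset.sum_const, Finset.card_univ, Fintype.card_perm, Fintype.card_fin]
  simp [Nat.factorial]

/-- bound for a root of a quadratic equation -/
lemma root_bound {T P Q B : ℝ} (hT : 0 ≤ T) (hB : 0 ≤ B) (hP : P ≤ B / 2) (hQ : Q ≤ B ^ 2 / 4)
    (h : T ^ 2 ≤ P * T + Q) : T ≤ B := by
  by_contra hcon
  push Not at hcon
  have h1 : P * T ≤ B / 2 * T := mul_le_mul_of_nonneg_right hP hT
  nlinarith

lemma main_bound (u1 u2 u3 u4 g1 g2 g3 g4 h1 h2 h3 h4 : ℂ) (hu : u1 * u4 - u2 * u3 = 1)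
    (hg : g1 * g4 - g2 * g3 = 1) (hh : h1 * h4 - h2 * h3 = 1) (M τ : ℝ) (hM : 1 ≤ M) (hτ : 0 ≤ τ)
    (ag1 : ‖g1‖ ≤ M) (ag2 : ‖g2‖ ≤ M) (ag3 : ‖g3‖ ≤ M) (ag4 : ‖g4‖ ≤ M)
    (ah1 : ‖h1‖ ≤ M) (ah2 : ‖h2‖ ≤ M) (ah3 : ‖h3‖ ≤ M) (ah4 : ‖h4‖ ≤ M)
    (at1 : ‖u1 + u4‖ ≤ τ) (at2 : ‖u1 * g1 + u2 * g3 + (u3 * g2 + u4 * g4)‖ ≤ τ)
    (at3 : ‖u1 * h1 + u2 * h3 + (u3 * h2 + u4 * h4)‖ ≤ τ) (i : Fin 4) :
    ‖((g1 + g4) ^ 2 + (h1 + h4) ^ 2 + (g1 * h1 + g2 * h3 + (g3 * h2 + g4 * h4)) ^ 2 -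
        (g1 + g4) * (h1 + h4) * (g1 * h1 + g2 * h3 + (g3 * h2 + g4 * h4)) - 4) *
        (![u1, u2, u3, u4] : Fin 4 → ℂ) i‖ ≤ 10 ^ 6 * M ^ 10 * (1 + τ) := by
  have hM0 : 0 ≤ M := by linarith
  set tu := u1 + u4 with e1
  set tg := g1 + g4 with e2
  set th := h1 + h4 with e3
  set tug := u1 * g1 + u2 * g3 + (u3 * g2 + u4 * g4) with e4
  set tuh := u1 * h1 + u2 * h3 + (u3 * h2 + u4 * h4) with e5
  set tgh := g1 * h1 + g2 * h3 + (g3 * h2 + g4 * h4) with e6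
  set T := u1 * (g1 * h1 + g2 * h3) + u2 * (g3 * h1 + g4 * h3) +
      (u3 * (g1 * h2 + g2 * h4) + u4 * (g3 * h2 + g4 * h4)) with e7
  have hF := fricke u1 u2 u3 u4 g1 g2 g3 g4 h1 h2 h3 h4 1 1 1 hu.symm hg.symm hh.symm
    tu tg th tug tuh tgh T e1 e2 e3 e4 e5 e6 e7
  have prod2 : ∀ {a b : ℂ}, ‖a‖ ≤ M → ‖b‖ ≤ M → ‖a * b‖ ≤ M ^ 2 := by
    intro a b ha hb
    rw [norm_mul, pow_two]
    exact mul_le_mul ha hb (norm_nonneg _) hM0
  have btg : ‖tg‖ ≤ 2 * M := (norm_add_le _ _).trans (by linarith)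
  have bth : ‖th‖ ≤ 2 * M := (norm_add_le _ _).trans (by linarith)
  have btgh : ‖tgh‖ ≤ 4 * M ^ 2 := by
    refine (norm_add_le _ _).trans ?_
    have := norm_add_le (g1 * h1) (g2 * h3)
    have := norm_add_le (g3 * h2) (g4 * h4)
    have := prod2 ag1 ah1
    have := prod2 ag2 ah3
    have := prod2 ag3 ah2
    have := prod2 ag4 ah4
    linarith
  have hM2 : M ≤ M ^ 2 := by nlinarith
  set K := 4 * M ^ 2 with hK
  have hK4 : 4 ≤ K := by nlinarith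
  have ktg : ‖tg‖ ≤ K := by linarith
  have kth : ‖th‖ ≤ K := by linarith
  have hK0 : 0 ≤ K := by linarith
  -- bound for `T`
  have hTle : ‖T‖ ≤ 8 * K ^ 2 * (1 + τ) := by
    set P := tu * tgh + tg * tuh + th * tug - tu * tg * th with hP
    set Q := tu ^ 2 * 1 * 1 + tg ^ 2 * 1 * 1 + th ^ 2 * 1 * 1 + tug ^ 2 * 1 + tgh ^ 2 * 1 +
        tuh ^ 2 * 1 - tu * tg * tug * 1 - tg * th * tgh * 1 - tu * th * tuh * 1 +
        tug * tgh * tuh - 4 * 1 * 1 * 1 with hQ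
    have hP' : ‖P‖ ≤ 4 * K ^ 2 * τ := by
      have a1 : ‖tu * tgh‖ ≤ τ * K := by
        rw [norm_mul]; exact mul_le_mul at1 btgh (norm_nonneg _) hτ
      have a2 : ‖tg * tuh‖ ≤ K * τ := by
        rw [norm_mul]; exact mul_le_mul ktg at3 (norm_nonneg _) hK0
      have a3 : ‖th * tug‖ ≤ K * τ := by
        rw [norm_mul]; exact mul_le_mul kth at2 (norm_nonneg _) hK0
      have a4 : ‖tu * tg * th‖ ≤ τ * K * K := by
        rw [norm_mul, norm_mul]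
        exact mul_le_mul (mul_le_mul at1 ktg (norm_nonneg _) hτ) kth (norm_nonneg _)
          (mul_nonneg hτ hK0)
      have b1 := norm_sub_le (tu * tgh + tg * tuh + th * tug) (tu * tg * th)
      have b2 := norm_add_le (tu * tgh + tg * tuh) (th * tug)
      have b3 := norm_add_le (tu * tgh) (tg * tuh)
      have b4 : K * τ ≤ K ^ 2 * τ := mul_le_mul_of_nonneg_right (by nlinarith) hτ
      linarith
    have sq : ∀ {a : ℂ} {c : ℝ}, ‖a‖ ≤ c → ‖a ^ 2‖ ≤ c ^ 2 := by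
      intro a c h
      rw [norm_pow]
      exact pow_le_pow_left₀ (norm_nonneg _) h 2
    have hQ' : ‖Q‖ ≤ 16 * K ^ 4 * (1 + τ) ^ 2 := by
      have q1 := sq at1
      have q2 := sq ktg
      have q3 := sq kth
      have q4 := sq at2
      have q5 := sq btgh
      have q6 := sq at3
      have q7 : ‖tu * tg * tug‖ ≤ τ * K * τ := by
        rw [norm_mul, norm_mul]
        exact mul_le_mul (mul_le_mul at1 ktg (norm_nonneg _) hτ) at2 (norm_nonneg _)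
          (mul_nonneg hτ hK0)
      have q8 : ‖tg * th * tgh‖ ≤ K * K * K := by
        rw [norm_mul, norm_mul]
        exact mul_le_mul (mul_le_mul ktg kth (norm_nonneg _) hK0) btgh (norm_nonneg _)
          (mul_nonneg hK0 hK0)
      have q9 : ‖tu * th * tuh‖ ≤ τ * K * τ := by
        rw [norm_mul, norm_mul]
        exact mul_le_mul (mul_le_mul at1 kth (norm_nonneg _) hτ) at3 (norm_nonneg _)
          (mul_nonneg hτ hK0)
      have q10 : ‖tug * tgh * tuh‖ ≤ τ * K * τ := by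
        rw [norm_mul, norm_mul]
        exact mul_le_mul (mul_le_mul at2 btgh (norm_nonneg _) hτ) at3 (norm_nonneg _)
          (mul_nonneg hτ hK0)
      have hQe : Q = tu ^ 2 + tg ^ 2 + th ^ 2 + tug ^ 2 + tgh ^ 2 +
        tuh ^ 2 - tu * tg * tug - tg * th * tgh - tu * th * tuh +
        tug * tgh * tuh - 4 := by rw [hQ]; ring
      have c1 := norm_sub_le (tu ^ 2 + tg ^ 2 + th ^ 2 + tug ^ 2 + tgh ^ 2 +
        tuh ^ 2 - tu * tg * tug - tg * th * tgh - tu * th * tuh +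
        tug * tgh * tuh) (4 : ℂ)
      have c2 := norm_add_le (tu ^ 2 + tg ^ 2 + th ^ 2 + tug ^ 2 + tgh ^ 2 +
        tuh ^ 2 - tu * tg * tug - tg * th * tgh - tu * th * tuh) (tug * tgh * tuh)
      have c3 := norm_sub_le (tu ^ 2 + tg ^ 2 + th ^ 2 + tug ^ 2 + tgh ^ 2 +
        tuh ^ 2 - tu * tg * tug - tg * th * tgh) (tu * th * tuh)
      have c4 := norm_sub_le (tu ^ 2 + tg ^ 2 + th ^ 2 + tug ^ 2 + tgh ^ 2 +
        tuh ^ 2 - tu * tg * tug) (tg * th * tgh)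
      have c5 := norm_sub_le (tu ^ 2 + tg ^ 2 + th ^ 2 + tug ^ 2 + tgh ^ 2 +
        tuh ^ 2) (tu * tg * tug)
      have c6 := norm_add_le (tu ^ 2 + tg ^ 2 + th ^ 2 + tug ^ 2 + tgh ^ 2) (tuh ^ 2)
      have c7 := norm_add_le (tu ^ 2 + tg ^ 2 + th ^ 2 + tug ^ 2) (tgh ^ 2)
      have c8 := norm_add_le (tu ^ 2 + tg ^ 2 + th ^ 2) (tug ^ 2)
      have c9 := norm_add_le (tu ^ 2 + tg ^ 2) (th ^ 2)
      have c10 := norm_add_le (tu ^ 2) (tg ^ 2)
      have c11 : ‖(4 : ℂ)‖ = 4 := by norm_num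
      rw [hQe]
      have hbig : ‖tu ^ 2 + tg ^ 2 + th ^ 2 + tug ^ 2 + tgh ^ 2 +
        tuh ^ 2 - tu * tg * tug - tg * th * tgh - tu * th * tuh +
        tug * tgh * tuh - 4‖ ≤ 3 * τ ^ 2 + 3 * K ^ 2 + 3 * (K * τ ^ 2) + K ^ 3 + 4 := by
        linarith
      refine hbig.trans ?_
      have k2 : 16 ≤ K ^ 2 := by nlinarith
      have k4 : 16 * K ^ 2 ≤ K ^ 4 := by nlinarith [sq_nonneg K]
      have k3 : K ^ 3 ≤ K ^ 4 := by
        have : K ^ 4 = K ^ 3 * K := by ring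
        rw [this]
        nlinarith [pow_nonneg hK0 3]
      have k1 : K ≤ K ^ 4 := by nlinarith
      have h5 : 3 * τ ^ 2 + 3 * (K * τ ^ 2) ≤ 6 * (K ^ 4 * τ ^ 2) := by
        have : K * τ ^ 2 ≤ K ^ 4 * τ ^ 2 := mul_le_mul_of_nonneg_right k1 (sq_nonneg _)
        have : τ ^ 2 ≤ K ^ 4 * τ ^ 2 := by
          have h1 : 1 ≤ K ^ 4 := by linarith
          nlinarith [sq_nonneg τ]
        linarith
      have h6 : 16 * K ^ 4 * (1 + τ) ^ 2 = 16 * K ^ 4 + 32 * (K ^ 4 * τ) + 16 * (K ^ 4 * τ ^ 2) := by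
        ring
      rw [h6]
      have h7 : 0 ≤ K ^ 4 * τ := by positivity
      have h8 : 0 ≤ K ^ 4 * τ ^ 2 := by positivity
      linarith
    refine root_bound (P := ‖P‖) (Q := ‖Q‖) (norm_nonneg _) (by positivity) ?_ ?_ ?_
    · refine hP'.trans ?_
      have : 0 ≤ K ^ 2 := sq_nonneg _
      nlinarith
    · refine hQ'.trans (le_of_eq ?_)
      ring
    · have h9 : T ^ 2 = P * T - Q := by linear_combination hF
      calc ‖T‖ ^ 2 = ‖T ^ 2‖ := (norm_pow _ _).symm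
        _ = ‖P * T - Q‖ := by rw [h9]
        _ ≤ ‖P * T‖ + ‖Q‖ := norm_sub_le _ _
        _ = ‖P‖ * ‖T‖ + ‖Q‖ := by rw [norm_mul]
  -- Cramer
  set E := EE g1 g2 g3 g4 h1 h2 h3 h4 with hE
  set v : Fin 4 → ℂ := ![u1, u2, u3, u4] with hv
  set t : Fin 4 → ℂ := ![tu, tug, tuh, T] with ht
  have hEv : E *ᵥ v = t := by
    funext k
    fin_cases k <;>
      simp [hE, EE, hv, ht, Matrix.mulVec, dotProduct, Fin.sum_univ_four, e1, e4, e5, e7] <;> ring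
  have hdet : E.det = tg ^ 2 + th ^ 2 + tgh ^ 2 - tg * th * tgh - 4 := by
    rw [hE, det_EE g1 g2 g3 g4 h1 h2 h3 h4 1 1 hg.symm hh.symm, ← e2, ← e3, ← e6]
    ring
  rw [← hdet]
  have hcr : E.det * v i = ∑ k, E.adjugate i k * t k := by
    have h1 : E.adjugate *ᵥ t = E.det • v := by
      rw [← hEv, Matrix.mulVec_mulVec, Matrix.adjugate_mul, Matrix.smul_mulVec, Matrix.one_mulVec]
    have h2 := congrFun h1 i
    simp only [Pi.smul_apply, smul_eq_mul] at h2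
    rw [← h2]
    rfl
  rw [hcr]
  have hadj : ∀ k, ‖E.adjugate i k‖ ≤ 48 * M ^ 4 := by
    intro k
    rw [Matrix.adjugate_apply]
    set r : Fin 4 → ℝ := Function.update ![1, M, M, 2 * M ^ 2] k 1 with hr
    have hrow : ∀ a b, ‖(E.updateRow k (Pi.single i 1)) a b‖ ≤ r a := by
      intro a b
      by_cases hak : a = k
      · subst hak
        rw [Matrix.updateRow_self, hr, Function.update_self]
        by_cases hb : b = i
        · subst hb; simp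
        · simp [hb]
      · rw [Matrix.updateRow_ne hak, hr, Function.update_of_ne hak]
        have q1 := prod2 ag1 ah1
        have q2 := prod2 ag2 ah3
        have q3 := prod2 ag3 ah1
        have q4 := prod2 ag4 ah3
        have q5 := prod2 ag1 ah2
        have q6 := prod2 ag2 ah4
        have q7 := prod2 ag3 ah2
        have q8 := prod2 ag4 ah4
        have r1 := norm_add_le (g1 * h1) (g2 * h3)
        have r2 := norm_add_le (g3 * h1) (g4 * h3)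
        have r3 := norm_add_le (g1 * h2) (g2 * h4)
        have r4 := norm_add_le (g3 * h2) (g4 * h4)
        fin_cases a <;> fin_cases b <;> simp [hE, EE] <;> linarith
    refine (det_le4 _ r hrow).trans ?_
    have hprod : ∏ a, r a ≤ 2 * M ^ 4 := by
      have m4 : 1 ≤ M ^ 4 := one_le_pow₀ hM
      have m3 : 1 ≤ M ^ 3 := one_le_pow₀ hM
      have m34 : M ^ 3 ≤ M ^ 4 := pow_le_pow_right₀ hM (by norm_num)
      have m24 : M ^ 2 ≤ M ^ 4 := pow_le_pow_right₀ hM (by norm_num)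
      rw [hr, Fin.prod_univ_four]
      fin_cases k <;> simp [Function.update] <;> nlinarith
    linarith
  have htk : ∀ k, ‖t k‖ ≤ 8 * K ^ 2 * (1 + τ) := by
    have hbig : τ ≤ 8 * K ^ 2 * (1 + τ) := by
      have : 1 ≤ 8 * K ^ 2 := by nlinarith
      nlinarith
    intro k
    fin_cases k
    · exact at1.trans hbig
    · exact at2.trans hbig
    · exact at3.trans hbig
    · exact hTle
  calc ‖∑ k, E.adjugate i k * t k‖ ≤ ∑ k : Fin 4, 48 * M ^ 4 * (8 * K ^ 2 * (1 + τ)) := by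
        refine norm_sum_le_of_le _ fun k _ => ?_
        rw [norm_mul]
        exact mul_le_mul (hadj k) (htk k) (norm_nonneg _) (by positivity)
    _ = 24576 * M ^ 8 * (1 + τ) := by
        rw [Finset.sum_const, Finset.card_univ, Fintype.card_fin, hK]
        simp only [nsmul_eq_mul]
        push_cast
        ring
    _ ≤ 10 ^ 6 * M ^ 10 * (1 + τ) := by
        refine mul_le_mul_of_nonneg_right ?_ (by linarith)
        have : M ^ 8 ≤ M ^ 10 := pow_le_pow_right₀ hM (by norm_num)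
        have : 0 ≤ M ^ 10 := by positivity
        linarith

end MATp

theorem mat : S_MAT := by
  intro u g h M τ hM hτ hg hh ht1 ht2 ht3 a b
  have du := u.2
  have dg := g.2
  have dh := h.2
  rw [Matrix.det_fin_two] at du dg dh
  have e2 : (u * g).1.trace = u.1 0 0 * g.1 0 0 + u.1 0 1 * g.1 1 0 +
      (u.1 1 0 * g.1 0 1 + u.1 1 1 * g.1 1 1) := by
    rw [Matrix.SpecialLinearGroup.coe_mul, Matrix.trace_fin_two, Matrix.mul_apply,
      Matrix.mul_apply, Fin.sum_univ_two, Fin.sum_univ_two]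
  have e3 : (u * h).1.trace = u.1 0 0 * h.1 0 0 + u.1 0 1 * h.1 1 0 +
      (u.1 1 0 * h.1 0 1 + u.1 1 1 * h.1 1 1) := by
    rw [Matrix.SpecialLinearGroup.coe_mul, Matrix.trace_fin_two, Matrix.mul_apply,
      Matrix.mul_apply, Fin.sum_univ_two, Fin.sum_univ_two]
  have e4 : (g * h).1.trace = g.1 0 0 * h.1 0 0 + g.1 0 1 * h.1 1 0 +
      (g.1 1 0 * h.1 0 1 + g.1 1 1 * h.1 1 1) := by
    rw [Matrix.SpecialLinearGroup.coe_mul, Matrix.trace_fin_two, Matrix.mul_apply,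
      Matrix.mul_apply, Fin.sum_univ_two, Fin.sum_univ_two]
  rw [e2] at ht2
  rw [e3] at ht3
  rw [Matrix.trace_fin_two] at ht1
  have key := MATp.main_bound (u.1 0 0) (u.1 0 1) (u.1 1 0) (u.1 1 1)
    (g.1 0 0) (g.1 0 1) (g.1 1 0) (g.1 1 1) (h.1 0 0) (h.1 0 1) (h.1 1 0) (h.1 1 1)
    du dg dh M τ hM hτ (hg _ _) (hg _ _) (hg _ _) (hg _ _) (hh _ _) (hh _ _) (hh _ _) (hh _ _)
    ht1 ht2 ht3
  rw [e4, Matrix.trace_fin_two, Matrix.trace_fin_two]
  fin_cases a <;> fin_cases b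
  · exact key 0
  · exact key 1
  · exact key 2
  · exact key 3

end Pool.Agent.R667.TP
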