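import Pool.Agent.R667.TP.Stm

/-! Trace polynomials of random words (MP_170125_pr): piece NC. -/

set_option autoImplicit false

open Filter Topology

namespace Pool.Agent.R667.TP

namespace NCaux

abbrev M2 := Matrix (Fin 2) (Fin 2) ℂ

/-- the vector of a letter -/
noncomputable def ve (l : Letter) : Fin 2 → ℂ :=
  if l.1 = 0 then (if l.2 = true then ![1, 0] else ![0, 1])
  else (if l.2 = true then ![1, 1] else ![1, -1])

noncomputable def ka (l : Letter) : ℂ := if l.1 = 0 then 1 else 1 / 2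

lemma ka_ne (l : Letter) : ka l ≠ 0 := by
  unfold ka
  split_ifs <;> norm_num

/-- the rank one projection of a letter -/
noncomputable def Ee (l : Letter) : M2 := ka l • Matrix.vecMulVec (ve l) (ve l)

noncomputable def dt (u v : Fin 2 → ℂ) : ℂ := u 0 * v 0 + u 1 * v 1

lemma dt_ne (l m : Letter) (h : l.1 = m.1 → l.2 = m.2) : dt (ve l) (ve m) ≠ 0 := by
  obtain ⟨i, b⟩ := l
  obtain ⟨j, c⟩ := m
  fin_cases i <;> fin_cases j <;> cases b <;> cases c <;> simp_all [dt, ve]

lemma Ee_mul (l : Letter) (c : ℂ) (u v : Fin 2 → ℂ) :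
    Ee l * (c • Matrix.vecMulVec u v) =
      (ka l * c * dt (ve l) u) • Matrix.vecMulVec (ve l) v := by
  refine Matrix.ext fun i j => ?_
  simp only [Ee, Matrix.mul_apply, Fin.sum_univ_two, Matrix.smul_apply, Matrix.vecMulVec_apply,
    smul_eq_mul, dt]
  ring

lemma prodE (L : List Letter) : ∀ l : Letter, FreeGroup.IsReduced (l :: L) →
    ∃ c : ℂ, c ≠ 0 ∧ ((l :: L).map Ee).prod =
      c • Matrix.vecMulVec (ve l) (ve ((l :: L).getLast (by simp))) := by
  induction L with
  | nil =>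
    intro l _
    exact ⟨ka l, ka_ne l, by simp [Ee]⟩
  | cons m L ih =>
    intro l h
    rw [FreeGroup.isReduced_cons_cons] at h
    obtain ⟨c, hc, hE⟩ := ih m h.2
    refine ⟨ka l * c * dt (ve l) (ve m), ?_, ?_⟩
    · exact mul_ne_zero (mul_ne_zero (ka_ne l) hc) (dt_ne l m h.1)
    · rw [List.map_cons, List.prod_cons, hE, Ee_mul]
      simp

/-- scaled letter matrix -/
noncomputable def Kk (l : Letter) (v : ℂ) : M2 := Ee l + v ^ 2 • Ee (invL l)

noncomputable def AA (v : ℂ) (hv : v ≠ 0) : SL :=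
  ⟨!![v⁻¹, 0; 0, v], by rw [Matrix.det_fin_two_of]; field_simp; ring⟩

noncomputable def BB (v : ℂ) (hv : v ≠ 0) : SL :=
  ⟨!![(v⁻¹ + v) / 2, (v⁻¹ - v) / 2; (v⁻¹ - v) / 2, (v⁻¹ + v) / 2], by
    rw [Matrix.det_fin_two_of]; field_simp; ring⟩

lemma letter_eq (v : ℂ) (hv : v ≠ 0) (l : Letter) :
    (cond l.2 (![AA v hv, BB v hv] l.1) (![AA v hv, BB v hv] l.1)⁻¹ : SL).1 =
      v⁻¹ • Kk l v := by
  obtain ⟨i, b⟩ := l
  fin_cases i <;> cases b <;> refine Matrix.ext fun p q => ?_ <;> fin_cases p <;> fin_cases q <;>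
    simp [AA, BB, Kk, Ee, ka, ve, invL,
      Matrix.SpecialLinearGroup.coe_inv, Matrix.adjugate_fin_two_of] <;> field_simp <;> try ring

lemma word_eq (v : ℂ) (hv : v ≠ 0) (L : List Letter) :
    (wordAt (FreeGroup.mk L) (AA v hv) (BB v hv)).1 =
      (v⁻¹) ^ L.length • (L.map (fun l => Kk l v)).prod := by
  induction L with
  | nil =>
    unfold wordAt
    rw [FreeGroup.lift_mk]
    simp
  | cons l L ih =>
    unfold wordAt at ih ⊢
    rw [FreeGroup.lift_mk] at ih ⊢
    rw [List.map_cons, List.prod_cons, Matrix.SpecialLinearGroup.coe_mul, ih, letter_eq]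
    rw [List.map_cons, List.prod_cons, List.length_cons, pow_succ]
    rw [Matrix.smul_mul, Matrix.mul_smul, smul_smul, mul_comm]

lemma cyc (L : List Letter) (hL : FreeGroup.IsCyclicallyReduced L) (hne : L ≠ []) :
    ∃ A B : SL, (wordAt (FreeGroup.mk L) A B).1.trace ≠ 2 := by
  by_contra hcon
  push Not at hcon
  have hcont : Continuous fun v : ℂ => ((L.map (fun l => Kk l v)).prod).trace := by
    apply Continuous.matrix_trace
    apply continuous_list_prod
    intro l _
    unfold Kk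
    fun_prop
  have hcont2 : Continuous fun v : ℂ => 2 * v ^ L.length := by fun_prop
  have heq : (fun v : ℂ => ((L.map (fun l => Kk l v)).prod).trace) =
      fun v : ℂ => 2 * v ^ L.length := by
    apply Continuous.ext_on (dense_compl_singleton (0 : ℂ)) hcont hcont2
    intro v hv
    have hv' : v ≠ 0 := hv
    have h1 := hcon (AA v hv') (BB v hv')
    rw [word_eq, Matrix.trace_smul, smul_eq_mul, inv_pow] at h1
    have hp : v ^ L.length ≠ 0 := pow_ne_zero _ hv'
    show ((L.map (fun l => Kk l v)).prod).trace = 2 * v ^ L.length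
    field_simp at h1
    rw [h1]; ring
  have h0 : ((L.map (fun l => Kk l 0)).prod).trace = 2 * (0 : ℂ) ^ L.length := congrFun heq 0
  obtain ⟨l, L', rfl⟩ := List.exists_cons_of_ne_nil hne
  have hK : (fun l : Letter => Kk l 0) = Ee := by
    funext m; simp [Kk]
  rw [hK] at h0
  obtain ⟨c, hc, hE⟩ := prodE L' l hL.1
  rw [hE] at h0
  have hd : dt (ve l) (ve ((l :: L').getLast (by simp))) ≠ 0 := by
    have h := hL.2 ((l :: L').getLast (by simp)) (by
      rw [List.getLast?_eq_getLast_of_ne_nil (by simp)]; rfl) l (by simp)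
    have := dt_ne ((l :: L').getLast (by simp)) l h
    rwa [show dt (ve l) (ve ((l :: L').getLast (by simp))) =
      dt (ve ((l :: L').getLast (by simp))) (ve l) by unfold dt; ring]
  apply mul_ne_zero hc hd
  have htr : (c • Matrix.vecMulVec (ve l) (ve ((l :: L').getLast (by simp)))).trace =
      c * dt (ve l) (ve ((l :: L').getLast (by simp))) := by
    simp [Matrix.trace_fin_two, Matrix.vecMulVec_apply, dt]
  rw [← htr, h0]
  simp

lemma nontriv (c : F2) (hc : c ≠ 1) : ∃ A B : SL, (wordAt c A B).1.trace ≠ 2 := by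
  set L := c.toWord with hLdef
  have hL : FreeGroup.IsReduced L := FreeGroup.isReduced_toWord
  set R := FreeGroup.reduceCyclically L with hR
  set C := FreeGroup.reduceCyclically.conjugator L with hC
  have hcr : FreeGroup.IsCyclicallyReduced R := FreeGroup.reduceCyclically.isCyclicallyReduced hL
  have hdec : C ++ R ++ FreeGroup.invRev C = L :=
    FreeGroup.reduceCyclically.conj_conjugator_reduceCyclically L
  have hceq : c = FreeGroup.mk C * FreeGroup.mk R * (FreeGroup.mk C)⁻¹ := by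
    rw [FreeGroup.inv_mk, FreeGroup.mul_mk, FreeGroup.mul_mk, hdec, hLdef, FreeGroup.mk_toWord]
  have hne : R ≠ [] := by
    intro h
    apply hc
    rw [hceq, h]
    have : FreeGroup.mk ([] : List Letter) = 1 := rfl
    rw [this]; group
  obtain ⟨A, B, hAB⟩ := cyc R hcr hne
  refine ⟨A, B, ?_⟩
  have hw : wordAt c A B = wordAt (FreeGroup.mk C) A B * wordAt (FreeGroup.mk R) A B *
      (wordAt (FreeGroup.mk C) A B)⁻¹ := by
    rw [hceq]
    unfold wordAt
    rw [map_mul, map_mul, map_inv]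
  rw [hw]
  have : ((wordAt (FreeGroup.mk C) A B * wordAt (FreeGroup.mk R) A B *
      (wordAt (FreeGroup.mk C) A B)⁻¹).1).trace = (wordAt (FreeGroup.mk R) A B).1.trace := by
    rw [Matrix.SpecialLinearGroup.coe_mul, Matrix.trace_mul_comm,
      ← Matrix.SpecialLinearGroup.coe_mul]
    congr 2
    group
  rw [this]
  exact hAB

lemma trace_comm (G H : SL) : (G * H * G⁻¹ * H⁻¹).1.trace =
    G.1.trace ^ 2 + H.1.trace ^ 2 + (G * H).1.trace ^ 2 - G.1.trace * H.1.trace * (G * H).1.trace
      - 2 := by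
  have hG : G.1 0 0 * G.1 1 1 - G.1 0 1 * G.1 1 0 = 1 := by
    rw [← Matrix.det_fin_two]; exact G.2
  have hH : H.1 0 0 * H.1 1 1 - H.1 0 1 * H.1 1 0 = 1 := by
    rw [← Matrix.det_fin_two]; exact H.2
  simp only [Matrix.SpecialLinearGroup.coe_mul, Matrix.SpecialLinearGroup.coe_inv,
    Matrix.adjugate_fin_two, Matrix.trace_fin_two, Matrix.mul_apply, Fin.sum_univ_two,
    Matrix.of_apply, Matrix.cons_val_zero, Matrix.cons_val_one, Matrix.cons_val',
    Matrix.cons_val_fin_one]
  linear_combination (G.1 0 0 + G.1 1 1) ^ 2 * hH + (H.1 0 0 + H.1 1 1) ^ 2 * hG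
    - 2 * ((G.1 0 0 * G.1 1 1 - G.1 0 1 * G.1 1 0) * hH + hG)

end NCaux

open NCaux

theorem nc (hF : S_FRT) : S_NC := by
  intro g h hgh hk
  have hc : g * h * g⁻¹ * h⁻¹ ≠ 1 := by
    intro h1
    apply hgh
    rw [mul_inv_eq_one, mul_inv_eq_iff_eq_mul] at h1
    exact h1
  obtain ⟨A, B, hAB⟩ := nontriv _ hc
  apply hAB
  have hw : wordAt (g * h * g⁻¹ * h⁻¹) A B = wordAt g A B * wordAt h A B * (wordAt g A B)⁻¹ *
      (wordAt h A B)⁻¹ := by
    unfold wordAt
    rw [map_mul, map_mul, map_mul, map_inv, map_inv]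
  have hw2 : wordAt (g * h) A B = wordAt g A B * wordAt h A B := by
    unfold wordAt
    rw [map_mul]
  rw [hw, trace_comm, ← hw2, hF.1 g A B, hF.1 h A B, hF.1 (g * h) A B]
  have h2 := congrArg (MvPolynomial.aeval ![A.1.trace, B.1.trace, (A * B).1.trace]) hk
  simp only [kap, map_sub, map_add, map_mul, map_pow, map_zero, map_ofNat] at h2
  linear_combination h2

end Pool.Agent.R667.TP
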