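import Pool.Agent.R667.TP.Stm

/-! Pieces REL and FRT: the integer representation and the trace polynomial. -/

set_option autoImplicit false

namespace Pool.Agent.R667.TP

/-- the relation between an integer matrix and a matrix acting on `1, A, B, AB` -/
def Rl (A B : SL) (M : Matrix (Fin 4) (Fin 4) Rg) (U : Matrix (Fin 2) (Fin 2) ℂ) : Prop :=
  ∀ j, U * Eb A B j = ∑ i, (ev (trc A B) (M i j)) • Eb A B i

lemma ev_mul (ξ : Fin 3 → ℂ) (f g : Rg) : ev ξ (f * g) = ev ξ f * ev ξ g := by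
  unfold ev
  rw [map_mul]

lemma ev_sum {ι : Type} (s : Finset ι) (ξ : Fin 3 → ℂ) (f : ι → Rg) :
    ev ξ (∑ i ∈ s, f i) = ∑ i ∈ s, ev ξ (f i) := by
  unfold ev
  rw [map_sum]

lemma Rl_one (A B : SL) : Rl A B 1 1 := by
  intro j
  rw [one_mul]
  have h : ∀ i, ev (trc A B) ((1 : Matrix (Fin 4) (Fin 4) Rg) i j) • Eb A B i =
      if i = j then Eb A B j else 0 := by
    intro i
    rw [Matrix.one_apply]
    by_cases h : i = j
    · rw [if_pos h, if_pos h, h]
      unfold ev
      rw [map_one, one_smul]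
    · rw [if_neg h, if_neg h]
      unfold ev
      rw [map_zero, zero_smul]
  rw [Finset.sum_congr rfl (fun i _ => h i)]
  simp

lemma Rl_mul {A B : SL} {M N : Matrix (Fin 4) (Fin 4) Rg} {U V : Matrix (Fin 2) (Fin 2) ℂ}
    (h1 : Rl A B M U) (h2 : Rl A B N V) : Rl A B (M * N) (U * V) := by
  intro j
  rw [mul_assoc, h2 j, Finset.mul_sum]
  simp only [Matrix.mul_smul, h1 _, Finset.smul_sum, smul_smul]
  rw [Finset.sum_comm]
  refine Finset.sum_congr rfl fun i _ => ?_
  rw [Matrix.mul_apply, ev_sum, Finset.sum_smul]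
  refine Finset.sum_congr rfl fun k _ => ?_
  rw [ev_mul, mul_comm]

lemma Rl_inv {A B : SL} {M N : Matrix (Fin 4) (Fin 4) Rg} {U V : Matrix (Fin 2) (Fin 2) ℂ}
    (h : Rl A B M U) (hMN : M * N = 1) (hVU : V * U = 1) : Rl A B N V := by
  intro j
  have h1 : U * ∑ i, (ev (trc A B) (N i j)) • Eb A B i = Eb A B j := by
    rw [Finset.mul_sum]
    simp only [Matrix.mul_smul, h _, Finset.smul_sum, smul_smul]
    rw [Finset.sum_comm]
    have h2 := Rl_one A B j
    rw [one_mul] at h2
    conv_rhs => rw [h2]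
    refine Finset.sum_congr rfl fun i _ => ?_
    rw [← hMN, Matrix.mul_apply, ev_sum, Finset.sum_smul]
    refine Finset.sum_congr rfl fun k _ => ?_
    rw [ev_mul, mul_comm]
  calc V * Eb A B j = V * (U * ∑ i, (ev (trc A B) (N i j)) • Eb A B i) := by rw [h1]
    _ = _ := by rw [← mul_assoc, hVU, one_mul]

lemma det_eq (A : SL) : A.1 0 0 * A.1 1 1 - A.1 0 1 * A.1 1 0 = 1 := by
  have h := A.2
  rwa [Matrix.det_fin_two] at h

/-- Cayley-Hamilton -/
lemma ch (A : SL) : A.1 * A.1 = A.1.trace • A.1 - 1 := by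
  have h := det_eq A
  refine Matrix.ext fun i j => ?_
  fin_cases i <;> fin_cases j
  · simp [Matrix.mul_apply, Matrix.trace_fin_two]
    linear_combination -h
  · simp [Matrix.mul_apply, Matrix.trace_fin_two]
    ring
  · simp [Matrix.mul_apply, Matrix.trace_fin_two]
    ring
  · simp [Matrix.mul_apply, Matrix.trace_fin_two]
    linear_combination -h

/-- polarised Cayley-Hamilton -/
lemma pol (A B : SL) : B.1 * A.1 = ((A * B).1.trace - A.1.trace * B.1.trace) •
    (1 : Matrix (Fin 2) (Fin 2) ℂ) + B.1.trace • A.1 + A.1.trace • B.1 - A.1 * B.1 := by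
  have hAB : (A * B).1 = A.1 * B.1 := rfl
  rw [hAB]
  refine Matrix.ext fun i j => ?_
  fin_cases i <;> fin_cases j <;>
    simp [Matrix.mul_apply, Matrix.trace_fin_two] <;> ring

lemma Rl_a (A B : SL) : Rl A B La A.1 := by
  intro j
  rw [Fin.sum_univ_four]
  fin_cases j
  · simp [La, Eb, ev]
  · simp [La, Eb, ev, trc]
    rw [ch A]
    abel
  · simp [La, Eb, ev, trc]
  · simp [La, Eb, ev, trc]
    rw [← mul_assoc, ch A, sub_mul, one_mul, Matrix.smul_mul]
    abel

lemma Rl_b (A B : SL) : Rl A B Lb B.1 := by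
  intro j
  rw [Fin.sum_univ_four]
  fin_cases j
  · simp [Lb, Eb, ev]
  · simp [Lb, Eb, ev, trc]
    rw [pol A B]
    simp only [Matrix.SpecialLinearGroup.coe_mul]
    abel
  · simp [Lb, Eb, ev, trc]
    rw [ch B]
    abel
  · simp [Lb, Eb, ev, trc]
    rw [← mul_assoc, pol A B]
    simp only [Matrix.SpecialLinearGroup.coe_mul, sub_mul, add_mul, Matrix.smul_mul, one_mul,
      mul_assoc, ch B, mul_sub, mul_one, Matrix.mul_smul, smul_sub, smul_smul, sub_smul]
    abel

lemma wordAt_mul (u v : F2) (A B : SL) : wordAt (u * v) A B = wordAt u A B * wordAt v A B := by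
  unfold wordAt
  rw [map_mul]

lemma wordAt_inv (u : F2) (A B : SL) : wordAt u⁻¹ A B = (wordAt u A B)⁻¹ := by
  unfold wordAt
  rw [map_inv]

lemma wordAt_one (A B : SL) : wordAt 1 A B = 1 := by
  unfold wordAt
  rw [map_one]

lemma Mw_mul (u v : F2) : Mw (u * v) = Mw u * Mw v := by
  unfold Mw
  rw [map_mul]
  rfl

lemma Mw_one : Mw 1 = 1 := by
  unfold Mw
  rw [map_one]
  rfl

lemma Rl_word (A B : SL) (w : F2) : Rl A B (Mw w) (wordAt w A B).1 := by
  induction w using FreeGroup.induction_on with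
  | C1 =>
    rw [Mw_one, wordAt_one]
    exact Rl_one A B
  | of x =>
    have h1 : wordAt (FreeGroup.of x) A B = ![A, B] x := by
      unfold wordAt
      exact FreeGroup.lift_apply_of
    have h2 : Mw (FreeGroup.of x) = ((![uA, uB] x : (Matrix (Fin 4) (Fin 4) Rg)ˣ) :
        Matrix (Fin 4) (Fin 4) Rg) := by
      unfold Mw Mrep
      rw [FreeGroup.lift_apply_of]
    change Rl A B (Mw (FreeGroup.of x)) (wordAt (FreeGroup.of x) A B).1
    rw [h1, h2]
    fin_cases x
    · exact Rl_a A B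
    · exact Rl_b A B
  | inv_of x h =>
    refine Rl_inv h ?_ ?_
    · rw [← Mw_mul, mul_inv_cancel, Mw_one]
    · rw [wordAt_inv, ← Matrix.SpecialLinearGroup.coe_mul, inv_mul_cancel]
      rfl
  | mul u v hu hv =>
    rw [Mw_mul, wordAt_mul]
    exact Rl_mul hu hv

/-- Piece REL. -/
theorem rel : S_REL := fun w A B j => Rl_word A B w j

lemma fricke (w : F2) : IsFricke w (fr w) := by
  intro A B
  have h := rel w A B 0
  have hE : Eb A B 0 = 1 := rfl
  rw [hE, mul_one, Fin.sum_univ_four] at h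
  have h2 := congrArg Matrix.trace h
  have e1 : Eb A B 1 = A.1 := rfl
  have e2 : Eb A B 2 = B.1 := rfl
  have e3 : Eb A B 3 = (A * B).1 := rfl
  rw [hE, e1, e2, e3, Matrix.trace_add, Matrix.trace_add, Matrix.trace_add, Matrix.trace_smul,
    Matrix.trace_smul, Matrix.trace_smul, Matrix.trace_smul, Matrix.trace_one] at h2
  rw [h2]
  unfold fr ev trc
  have v0 : (![A.1.trace, B.1.trace, (A * B).1.trace] : Fin 3 → ℂ) 0 = A.1.trace := rfl
  have v1 : (![A.1.trace, B.1.trace, (A * B).1.trace] : Fin 3 → ℂ) 1 = B.1.trace := rfl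
  have v2 : (![A.1.trace, B.1.trace, (A * B).1.trace] : Fin 3 → ℂ) 2 = (A * B).1.trace := rfl
  simp only [map_add, map_mul, MvPolynomial.aeval_X, map_ofNat, Fintype.card_fin, smul_eq_mul,
    v0, v1, v2]
  push_cast
  ring

lemma fr_ne_zero (w : F2) : fr w ≠ 0 := by
  intro h
  have h1 := fricke w 1 1
  rw [h, map_zero] at h1
  have h2 : wordAt w 1 1 = 1 := by
    unfold wordAt
    have : (FreeGroup.lift ![(1 : SL), 1] : F2 →* SL) = 1 := by
      ext x
      rw [FreeGroup.lift_apply_of]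
      fin_cases x <;> rfl
    rw [this]
    rfl
  rw [h2] at h1
  have h3 : ((1 : SL).1).trace = 2 := by
    change (1 : Matrix (Fin 2) (Fin 2) ℂ).trace = 2
    rw [Matrix.trace_one]
    simp
  rw [h3] at h1
  norm_num at h1

lemma one_le_Ln {f : Rg} (hf : f ≠ 0) : 1 ≤ Ln f := by
  obtain ⟨m, hm⟩ := MvPolynomial.support_nonempty.2 hf
  unfold Ln
  have h1 : 1 ≤ (f.coeff m).natAbs := by
    have := MvPolynomial.mem_support_iff.1 hm
    omega
  exact h1.trans (Finset.single_le_sum (f := fun m => (f.coeff m).natAbs)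
    (fun _ _ => Nat.zero_le _) hm)

/-- Piece FRT. -/
theorem frt : S_FRT := ⟨fricke, fun w => one_le_Ln (fr_ne_zero w)⟩

end Pool.Agent.R667.TP
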