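import Pool.Agent.R667.TP.Stm

/-! TP-UNI (MP_170125_pr): uniqueness of the two laws. -/

set_option autoImplicit false

open MeasureTheory Filter Topology

namespace Pool.Agent.R667.TP

namespace UNI

/-- a cylinder -/
def cyl (n : ℕ) (u : ℕ → Letter) : Set (ℕ → Letter) := {x | ∀ k < n, x k = u k}

/-- all cylinders -/
def cyls : Set (Set (ℕ → Letter)) := {s | ∃ n u, s = cyl n u}

lemma cyl_congr {n : ℕ} {u x : ℕ → Letter} (hx : x ∈ cyl n u) : cyl n u = cyl n x := by
  ext y
  constructor
  · intro hy k hk
    rw [hy k hk, hx k hk]
  · intro hy k hk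
    rw [hy k hk, hx k hk]

lemma pi_cyls : IsPiSystem cyls := by
  rintro _ ⟨n, u, rfl⟩ _ ⟨m, v, rfl⟩ ⟨x, hx1, hx2⟩
  rw [cyl_congr hx1, cyl_congr hx2]
  refine ⟨max n m, x, ?_⟩
  ext y
  constructor
  · rintro ⟨h1, h2⟩ k hk
    rcases lt_max_iff.1 hk with h | h
    · exact h1 k h
    · exact h2 k h
  · intro h
    exact ⟨fun k hk => h k (lt_max_of_lt_left hk), fun k hk => h k (lt_max_of_lt_right hk)⟩

lemma meas_cyl (n : ℕ) (u : ℕ → Letter) : MeasurableSet (cyl n u) := by
  have : cyl n u = ⋂ k ∈ Finset.range n, (fun x : ℕ → Letter => x k) ⁻¹' {u k} := by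
    ext x
    simp [cyl]
  rw [this]
  exact Finset.measurableSet_biInter _ fun k _ => measurable_pi_apply k (measurableSet_singleton _)

lemma gen : (MeasurableSpace.pi : MeasurableSpace (ℕ → Letter)) =
    MeasurableSpace.generateFrom cyls := by
  apply le_antisymm
  · refine iSup_le fun k => ?_
    rw [MeasurableSpace.comap_le_iff_le_map]
    intro s _
    show MeasurableSet[MeasurableSpace.generateFrom cyls] ((fun x : ℕ → Letter => x k) ⁻¹' s)
    have e : (fun x : ℕ → Letter => x k) ⁻¹' s =
        ⋃ w ∈ {w : Fin (k + 1) → Letter | w (Fin.last k) ∈ s},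
          cyl (k + 1) (fun i => if h : i < k + 1 then w ⟨i, h⟩ else (0, true)) := by
      ext x
      simp only [Set.mem_preimage, Set.mem_iUnion, Set.mem_ofPred_eq, exists_prop]
      constructor
      · intro hx
        refine ⟨fun i => x i, by simpa using hx, ?_⟩
        intro j hj
        simp [hj]
      · rintro ⟨w, hw, hx⟩
        have := hx k (Nat.lt_succ_self k)
        rw [this]
        simp only [Nat.lt_succ_self, dif_pos]
        exact hw
    rw [e]
    refine MeasurableSet.biUnion (Set.to_countable _) fun w _ => ?_
    exact MeasurableSpace.measurableSet_generateFrom ⟨_, _, rfl⟩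
  · refine MeasurableSpace.generateFrom_le ?_
    rintro _ ⟨n, u, rfl⟩
    exact meas_cyl n u

lemma ext_cyl (m₁ m₂ : Measure (ℕ → Letter)) [IsProbabilityMeasure m₁] [IsProbabilityMeasure m₂]
    (h : ∀ n u, m₁ (cyl n u) = m₂ (cyl n u)) : m₁ = m₂ := by
  refine ext_of_generate_finite cyls gen pi_cyls ?_ ?_
  · rintro _ ⟨n, u, rfl⟩
    exact h n u
  · rw [measure_univ, measure_univ]

end UNI

open UNI

theorem uni : S_UNI := by
  constructor
  · intro m₁ m₂ _ _ h1 h2
    apply ext_cyl
    intro n u
    have e0 : ∀ n, cyl (n + 1) u = {x | ∀ k ≤ n, x k = u k} := by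
      intro n
      ext x
      exact ⟨fun h k hk => h k (Nat.lt_succ_of_le hk), fun h k hk => h k (Nat.le_of_lt_succ hk)⟩
    induction n with
    | zero =>
      have : cyl 0 u = Set.univ := by
        ext x
        simp [cyl]
      rw [this, measure_univ, measure_univ]
    | succ n ih =>
      cases n with
      | zero =>
        have : cyl (0 + 1) u = {x | x 0 = u 0} := by
          ext x
          constructor
          · exact fun h => h 0 one_pos
          · intro h k hk
            have : k = 0 := by omega
            subst this
            exact h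
        rw [this]
        exact (h1.first (u 0)).trans (h2.first (u 0)).symm
      | succ n =>
        have e1 : cyl (n + 1 + 1) u = {x | (∀ k ≤ n, x k = u k) ∧ x (n + 1) = u (n + 1)} := by
          ext x
          constructor
          · intro h
            exact ⟨fun k hk => h k (by omega), h (n + 1) (by omega)⟩
          · rintro ⟨h, h'⟩ k hk
            rcases Nat.lt_or_ge k (n + 1) with h3 | h3
            · exact h k (by omega)
            · have : k = n + 1 := by omega
              subst this
              exact h'
        have s1 := h1.step n u (u (n + 1))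
        have s2 := h2.step n u (u (n + 1))
        rw [e0 n] at ih
        rw [e1]
        refine s1.trans ?_
        rw [ih]
        exact s2.symm
  · intro p hp0 hp1 m₁ m₂ _ _ h1 h2
    apply ext_cyl
    have hmeas : ∀ (n : ℕ) (l : Letter), MeasurableSet {x : ℕ → Letter | x n = l} := fun n l =>
      (measurable_pi_apply n : Measurable fun x : ℕ → Letter => x n) (measurableSet_singleton l)
    have key : ∀ (m : Measure (ℕ → Letter)) [IsProbabilityMeasure m],
        PositiveProcess p m (fun n x => x n) → ∀ (n : ℕ) (i : Fin 2),
        m {x | x n = (i, false)} = 0 := by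
      intro m _ h n i
      have h0 : m ({x | x n = (0, true)} ∪ {x | x n = (1, true)}) = 1 := by
        rw [measure_union _ (hmeas n _)]
        · rw [h.ha n, h.hb n, ← ENNReal.ofReal_add hp0.le (by linarith)]
          norm_num
        · rw [Set.disjoint_left]
          intro x hx hx'
          have hx1 : x n = (0, true) := hx
          have hx2 : x n = (1, true) := hx'
          rw [hx1] at hx2
          exact absurd hx2 (by decide)
      have h3 : m ({x | x n = (0, true)} ∪ {x | x n = (1, true)})ᶜ = 0 := by
        rw [prob_compl_eq_zero_iff ((hmeas n _).union (hmeas n _))]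
        exact h0
      refine measure_mono_null ?_ h3
      intro x hx
      have hx' : x n = (i, false) := hx
      rw [Set.mem_compl_iff, Set.mem_union, not_or]
      constructor
      · intro h4
        have h5 : x n = (0, true) := h4
        rw [hx'] at h5
        exact absurd (congrArg Prod.snd h5) (by simp)
      · intro h4
        have h5 : x n = (1, true) := h4
        rw [hx'] at h5
        exact absurd (congrArg Prod.snd h5) (by simp)
    have hone : ∀ (n : ℕ) (l : Letter), m₁ {x | x n = l} = m₂ {x | x n = l} := by
      rintro n ⟨i, b⟩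
      cases b with
      | false => rw [key m₁ h1, key m₂ h2]
      | true =>
        fin_cases i
        · exact (h1.ha n).trans (h2.ha n).symm
        · exact (h1.hb n).trans (h2.hb n).symm
    intro n u
    have e : cyl n u = ⋂ k ∈ Finset.range n, (fun x : ℕ → Letter => x k) ⁻¹' {u k} := by
      ext x
      simp [cyl]
    rw [e, h1.indep.measure_inter_preimage_eq_mul (Finset.range n)
      (sets := fun k => {u k}) (fun k _ => measurableSet_singleton _),
      h2.indep.measure_inter_preimage_eq_mul (Finset.range n)
      (sets := fun k => {u k}) (fun k _ => measurableSet_singleton _)]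
    exact Finset.prod_congr rfl fun k _ => hone k (u k)

end Pool.Agent.R667.TP
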