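import Pool.Agent.R667.TP.Stm

/-! Trace polynomials of random words: every point of `ℂ³` is a trace triple. -/

set_option autoImplicit false

namespace Pool.Agent.R667.TP

namespace UQP

theorem roots (z : ℂ) : ∃ s s' : ℂ, s + s' = z ∧ s * s' = 1 := by
  obtain ⟨w, hw⟩ := IsAlgClosed.exists_pow_nat_eq (z ^ 2 - 4) (n := 2) (by norm_num)
  refine ⟨(z + w) / 2, (z - w) / 2, by ring, ?_⟩
  linear_combination -(1 / 4 : ℂ) * hw

theorem point (ξ : Fin 3 → ℂ) (s s' : ℂ) (h1 : s + s' = ξ 2) (h2 : s * s' = 1) :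
    ∃ A B : SL, trc A B = ξ ∧ A.1 = !![ξ 0, -1; 1, 0] ∧ B.1 = !![0, s; -s', ξ 1] := by
  have hA : (!![ξ 0, -1; 1, 0] : Matrix (Fin 2) (Fin 2) ℂ).det = 1 := by
    rw [Matrix.det_fin_two_of]
    ring
  have hB : (!![0, s; -s', ξ 1] : Matrix (Fin 2) (Fin 2) ℂ).det = 1 := by
    rw [Matrix.det_fin_two_of]
    linear_combination h2
  refine ⟨⟨_, hA⟩, ⟨_, hB⟩, ?_, rfl, rfl⟩
  funext i
  fin_cases i
  · simp [trc, Matrix.trace_fin_two]
  · simp [trc, Matrix.trace_fin_two]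
  · change ((!![ξ 0, -1; 1, 0] : Matrix (Fin 2) (Fin 2) ℂ) * !![0, s; -s', ξ 1]).trace = ξ 2
    rw [Matrix.trace_fin_two]
    simp [Matrix.mul_apply, Fin.sum_univ_two]
    linear_combination h1

theorem small {z s s' : ℂ} (hz : ‖z‖ = 1) (h1 : s + s' = z) (h2 : s * s' = 1) : ‖s‖ ≤ 2 := by
  have h3 : s ^ 2 = z * s - 1 := by
    rw [← h1]
    linear_combination -h2
  have h4 : ‖s‖ ^ 2 ≤ ‖s‖ + 1 := by
    rw [← norm_pow, h3]
    refine (norm_sub_le _ _).trans ?_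
    rw [norm_mul, hz, one_mul, norm_one]
  nlinarith [norm_nonneg s]

end UQP

theorem t_UQ : S_UQ := by
  intro f g h
  have h1 : ∀ ξ : Fin 3 → ℂ, ev ξ f = ev ξ g := by
    intro ξ
    obtain ⟨s, s', h1, h2⟩ := UQP.roots (ξ 2)
    obtain ⟨A, B, hAB, -, -⟩ := UQP.point ξ s s' h1 h2
    rw [← hAB]
    exact h A B
  apply MvPolynomial.map_injective (Int.castRingHom ℂ) Int.cast_injective
  apply MvPolynomial.funext
  intro ξ
  rw [MvPolynomial.eval_map, MvPolynomial.eval_map]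
  exact h1 ξ

theorem t_PT : S_PT := by
  intro ξ hξ
  obtain ⟨s, s', h1, h2⟩ := UQP.roots (ξ 2)
  obtain ⟨A, B, hAB, hA, hB⟩ := UQP.point ξ s s' h1 h2
  have hs := UQP.small (hξ 2) h1 h2
  have hs' := UQP.small (s := s') (s' := s) (hξ 2) (by rw [add_comm]; exact h1)
    (by rw [mul_comm]; exact h2)
  refine ⟨A, B, hAB, ?_, ?_⟩
  · intro a b
    rw [hA]
    have := hξ 0
    fin_cases a <;> fin_cases b <;> simp [this]
  · intro a b
    rw [hB]
    have := hξ 1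
    fin_cases a <;> fin_cases b <;> simp [this, hs, hs']

end Pool.Agent.R667.TP
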