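import Pool.Agent.R667.TP.Fin
import Pool.Agent.R667.TP.ALG
import Pool.Agent.R667.TP.BC
import Pool.Agent.R667.TP.COEF
import Pool.Agent.R667.TP.COMM
import Pool.Agent.R667.TP.COMB
import Pool.Agent.R667.TP.CRA
import Pool.Agent.R667.TP.DEG
import Pool.Agent.R667.TP.DIV
import Pool.Agent.R667.TP.KEY
import Pool.Agent.R667.TP.KING
import Pool.Agent.R667.TP.LAWP
import Pool.Agent.R667.TP.LAWR
import Pool.Agent.R667.TP.LIM
import Pool.Agent.R667.TP.MAT
import Pool.Agent.R667.TP.NC
import Pool.Agent.R667.TP.NRM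
import Pool.Agent.R667.TP.REL
import Pool.Agent.R667.TP.UNI
import Pool.Agent.R667.TP.UQ

/-! Trace polynomials of random words (MP_170125_pr): assembly. -/

set_option autoImplicit false

open MeasureTheory Filter Topology

universe u

namespace Pool.Agent.R667.TP

/-- the main theorem -/
theorem main :
    ∃ F : F2 → Rg, (∀ w f, IsFricke w f ↔ f = F w) ∧
      (∃ γ : ℝ, ∀ (Ω : Type u) [MeasurableSpace Ω] (P : Measure Ω) [IsProbabilityMeasure P]
        (s : ℕ → Ω → Letter), ReducedProcess P s → Conv P s F γ) ∧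
      (∀ p : ℝ, 0 < p → p < 1 → ∃ γ : ℝ, ∀ (Ω : Type u) [MeasurableSpace Ω] (P : Measure Ω)
        [IsProbabilityMeasure P] (s : ℕ → Ω → Letter), PositiveProcess p P s → Conv P s F γ) := by
  have hALG := alg t_PT rel frt mat cra
  have hK := KEY.key hALG DIV.div coef_thm ev_thm
  have hC := comb hK (nc frt) comm
  exact final frt t_UQ (t_LIM (king nrm) (t_BC hC) nrm DEG.deg ht_thm frt) t_LAWR lawp uni

end Pool.Agent.R667.TP
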