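import Pool.Agent.R667.TP.Stm

/-! Piece NRM: the norms of the integer representation of the free group. -/

set_option autoImplicit false

namespace Pool.Agent.R667.TP

namespace NRM

open MvPolynomial

theorem Ln_eq {f : Rg} {S : Finset (Fin 3 →₀ ℕ)} (h : f.support ⊆ S) :
    Ln f = ∑ m ∈ S, (f.coeff m).natAbs := by
  unfold Ln
  refine Finset.sum_subset h fun m _ hm => ?_
  rw [MvPolynomial.notMem_support_iff.1 hm, Int.natAbs_zero]

theorem Ln_zero : Ln 0 = 0 := by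
  rw [Ln_eq (f := 0) (S := ∅) (by simp), Finset.sum_empty]

theorem Ln_add (p q : Rg) : Ln (p + q) ≤ Ln p + Ln q := by
  classical
  rw [Ln_eq (f := p + q) (S := p.support ∪ q.support) MvPolynomial.support_add,
    Ln_eq (f := p) (S := p.support ∪ q.support) Finset.subset_union_left,
    Ln_eq (f := q) (S := p.support ∪ q.support) Finset.subset_union_right,
    ← Finset.sum_add_distrib]
  refine Finset.sum_le_sum fun m _ => ?_
  rw [MvPolynomial.coeff_add]
  exact Int.natAbs_add_le _ _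

theorem Ln_neg (p : Rg) : Ln (-p) = Ln p := by
  rw [Ln_eq (f := -p) (S := p.support) (by rw [MvPolynomial.support_neg]), Ln]
  refine Finset.sum_congr rfl fun m _ => ?_
  rw [MvPolynomial.coeff_neg, Int.natAbs_neg]

theorem Ln_sub (p q : Rg) : Ln (p - q) ≤ Ln p + Ln q := by
  rw [sub_eq_add_neg, ← Ln_neg q]
  exact Ln_add _ _

theorem Ln_sum {ι : Type} (s : Finset ι) (f : ι → Rg) : Ln (∑ i ∈ s, f i) ≤ ∑ i ∈ s, Ln (f i) := by
  classical
  induction s using Finset.induction_on with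
  | empty => rw [Finset.sum_empty, Finset.sum_empty, Ln_zero]
  | insert a s ha ih =>
    rw [Finset.sum_insert ha, Finset.sum_insert ha]
    exact (Ln_add _ _).trans (Nat.add_le_add_left ih _)

theorem Ln_monomial (m : Fin 3 →₀ ℕ) (a : ℤ) : Ln (monomial m a) ≤ a.natAbs := by
  rw [Ln_eq (f := monomial m a) (S := {m}) MvPolynomial.support_monomial_subset,
    Finset.sum_singleton, MvPolynomial.coeff_monomial, if_pos rfl]

theorem Ln_mul (p q : Rg) : Ln (p * q) ≤ Ln p * Ln q := by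
  have e : p * q = ∑ v ∈ p.support, ∑ w ∈ q.support,
      monomial (v + w) (p.coeff v * q.coeff w) := by
    conv_lhs => rw [p.as_sum, q.as_sum, Finset.sum_mul_sum]
    refine Finset.sum_congr rfl fun v _ => Finset.sum_congr rfl fun w _ => ?_
    rw [MvPolynomial.monomial_mul]
  rw [e]
  refine (Ln_sum _ _).trans ?_
  unfold Ln
  rw [Finset.sum_mul]
  refine Finset.sum_le_sum fun v _ => ?_
  refine (Ln_sum _ _).trans ?_
  rw [Finset.mul_sum]
  refine Finset.sum_le_sum fun w _ => ?_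
  refine (Ln_monomial _ _).trans ?_
  rw [Int.natAbs_mul]

theorem Ln_X (i : Fin 3) : Ln (X i) ≤ 1 := Ln_monomial _ 1

theorem Ln_one : Ln 1 ≤ 1 := Ln_monomial 0 1

theorem Ln_two : Ln 2 ≤ 2 := by
  have h : (2 : Rg) = 1 + 1 := by norm_num
  rw [h]
  have h1 := Ln_add 1 1
  have h2 := Ln_one
  omega

theorem Ln_eq_zero {f : Rg} (h : Ln f = 0) : f = 0 := by
  rw [← MvPolynomial.support_eq_empty]
  by_contra hne
  obtain ⟨m, hm⟩ := Finset.nonempty_iff_ne_empty.2 hne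
  have h1 := (Finset.sum_eq_zero_iff (s := f.support)).1 h m hm
  rw [Int.natAbs_eq_zero] at h1
  exact MvPolynomial.mem_support_iff.1 hm h1

theorem Mw_mul (u v : F2) : Mw (u * v) = Mw u * Mw v := by
  unfold Mw
  rw [map_mul, Units.val_mul]

theorem Nn_mul (u v : F2) : Nn (u * v) ≤ Nn u * Nn v := by
  have h1 : ∀ i j, Ln (Mw (u * v) i j) ≤ ∑ k, Ln (Mw u i k) * Ln (Mw v k j) := by
    intro i j
    rw [Mw_mul, Matrix.mul_apply]
    exact (Ln_sum _ _).trans (Finset.sum_le_sum fun k _ => Ln_mul _ _)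
  have h2 : ∀ k, ∑ j, Ln (Mw v k j) ≤ Nn v := fun k =>
    Finset.single_le_sum (f := fun k => ∑ j, Ln (Mw v k j)) (fun _ _ => Nat.zero_le _)
      (Finset.mem_univ k)
  calc Nn (u * v) ≤ ∑ i, ∑ j, ∑ k, Ln (Mw u i k) * Ln (Mw v k j) :=
        Finset.sum_le_sum fun i _ => Finset.sum_le_sum fun j _ => h1 i j
    _ = ∑ i, ∑ k, Ln (Mw u i k) * ∑ j, Ln (Mw v k j) := by
        refine Finset.sum_congr rfl fun i _ => ?_
        rw [Finset.sum_comm]
        exact Finset.sum_congr rfl fun k _ => by rw [Finset.mul_sum]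
    _ ≤ ∑ i, ∑ k, Ln (Mw u i k) * Nn v :=
        Finset.sum_le_sum fun i _ => Finset.sum_le_sum fun k _ => Nat.mul_le_mul_left _ (h2 k)
    _ = Nn u * Nn v := by
        unfold Nn
        simp only [Finset.sum_mul]

theorem one_le_Nn (u : F2) : 1 ≤ Nn u := by
  by_contra hcon
  have h0 : Nn u = 0 := by omega
  have h1 : Mw u = 0 := by
    refine Matrix.ext fun i j => ?_
    have h2 := (Finset.sum_eq_zero_iff (s := Finset.univ)).1 h0 i (Finset.mem_univ i)
    have h3 := (Finset.sum_eq_zero_iff (s := Finset.univ)).1 h2 j (Finset.mem_univ j)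
    rw [Ln_eq_zero h3]
    rfl
  have h2 : IsUnit (Mw u) := ⟨Mrep u, rfl⟩
  rw [h1] at h2
  exact not_isUnit_zero h2

theorem Mw_a : Mw (FreeGroup.mk [(0, true)]) = La := by
  have h : FreeGroup.mk [((0 : Fin 2), true)] = FreeGroup.of 0 := rfl
  unfold Mw Mrep
  rw [h, FreeGroup.lift_apply_of]
  rfl

theorem Mw_b : Mw (FreeGroup.mk [(1, true)]) = Lb := by
  have h : FreeGroup.mk [((1 : Fin 2), true)] = FreeGroup.of 1 := rfl
  unfold Mw Mrep
  rw [h, FreeGroup.lift_apply_of]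
  rfl

theorem Mw_a' : Mw (FreeGroup.mk [(0, false)]) = La' := by
  have h : FreeGroup.mk [((0 : Fin 2), false)] = (FreeGroup.of 0)⁻¹ := rfl
  unfold Mw Mrep
  rw [h, map_inv, FreeGroup.lift_apply_of]
  rfl

theorem Mw_b' : Mw (FreeGroup.mk [(1, false)]) = Lb' := by
  have h : FreeGroup.mk [((1 : Fin 2), false)] = (FreeGroup.of 1)⁻¹ := rfl
  unfold Mw Mrep
  rw [h, map_inv, FreeGroup.lift_apply_of]
  rfl

theorem Ln_big : Ln (X 2 - X 0 * X 1 : Rg) ≤ 2 := by
  have h1 := Ln_sub (X 2) (X 0 * X 1)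
  have h2 := Ln_mul (X 0) (X 1)
  have h3 := Ln_X 0
  have h4 := Ln_X 1
  have h5 := Ln_X 2
  have h6 : Ln (X 0) * Ln (X 1) ≤ 1 * 1 := Nat.mul_le_mul h3 h4
  omega

theorem Nn_letter (l : Letter) : Nn (FreeGroup.mk [l]) ≤ 20 := by
  have h0 := Ln_zero
  have h1 := Ln_one
  have hX0 := Ln_X 0
  have hX1 := Ln_X 1
  have hX2 := Ln_X 2
  have hb := Ln_big
  obtain ⟨i, b⟩ := l
  have hi : i = 0 ∨ i = 1 := by omega
  rcases hi with rfl | rfl <;> cases b
  · unfold Nn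
    rw [Mw_a']
    simp [Fin.sum_univ_four, La', Ln_neg, Ln_zero]
    omega
  · unfold Nn
    rw [Mw_a]
    simp [Fin.sum_univ_four, La, Ln_neg, Ln_zero]
    omega
  · unfold Nn
    rw [Mw_b']
    simp only [Fin.sum_univ_four, Lb', Matrix.of_apply, Matrix.cons_val, Ln_neg, Ln_zero]
    omega
  · unfold Nn
    rw [Mw_b]
    simp only [Fin.sum_univ_four, Lb, Matrix.of_apply, Matrix.cons_val, Ln_neg, Ln_zero]
    omega

theorem Ln_fr (w : F2) : Ln (fr w) ≤ 2 * Nn w := by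
  have hX : ∀ (i : Fin 3) (p : Rg), Ln (X i * p) ≤ Ln p := by
    intro i p
    refine (Ln_mul _ _).trans ?_
    exact (Nat.mul_le_mul_right _ (Ln_X i)).trans (by rw [one_mul])
  have h2 : Ln (2 * Mw w 0 0) ≤ 2 * Ln (Mw w 0 0) :=
    (Ln_mul _ _).trans (Nat.mul_le_mul_right _ Ln_two)
  have h3 := hX 0 (Mw w 1 0)
  have h4 := hX 1 (Mw w 2 0)
  have h5 := hX 2 (Mw w 3 0)
  have h6 : Ln (Mw w 0 0) + Ln (Mw w 1 0) + Ln (Mw w 2 0) + Ln (Mw w 3 0) ≤ Nn w := by
    have h7 : ∀ i, Ln (Mw w i 0) ≤ ∑ j, Ln (Mw w i j) := fun i =>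
      Finset.single_le_sum (f := fun j => Ln (Mw w i j)) (fun _ _ => Nat.zero_le _)
        (Finset.mem_univ 0)
    have h8 := Finset.sum_le_sum fun i (_ : i ∈ (Finset.univ : Finset (Fin 4))) => h7 i
    rw [Fin.sum_univ_four] at h8
    exact h8
  unfold fr
  have h9 := Ln_add (2 * Mw w 0 0 + X 0 * Mw w 1 0 + X 1 * Mw w 2 0) (X 2 * Mw w 3 0)
  have h10 := Ln_add (2 * Mw w 0 0 + X 0 * Mw w 1 0) (X 1 * Mw w 2 0)
  have h11 := Ln_add (2 * Mw w 0 0) (X 0 * Mw w 1 0)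
  omega

end NRM

theorem nrm : S_NRM := ⟨NRM.Nn_mul, NRM.one_le_Nn, NRM.Nn_letter, NRM.Ln_fr⟩

end Pool.Agent.R667.TP
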