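import Pool.Agent.R667.TP.Defs

/-! Trace polynomials of random words (MP_170125_pr): statements of the pieces. -/

set_option autoImplicit false

open MeasureTheory Filter Topology

namespace Pool.Agent.R667.TP

def S_REL : Prop := ∀ (w : F2) (A B : SL) (j : Fin 4),
  (wordAt w A B).1 * Eb A B j = ∑ i, (ev (trc A B) (Mw w i j)) • Eb A B i

def S_FRT : Prop := (∀ w : F2, IsFricke w (fr w)) ∧ (∀ w : F2, 1 ≤ Ln (fr w))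

def S_DEG : Prop := ∀ (L : List Letter) (k : Fin 3),
  (∀ i j, (Mw (FreeGroup.mk L) i j).degreeOf k ≤ L.length) ∧
    (fr (FreeGroup.mk L)).degreeOf k ≤ L.length + 1

def S_UQ : Prop := ∀ f g : Rg, (∀ A B : SL, ev (trc A B) f = ev (trc A B) g) → f = g

def S_NRM : Prop := (∀ u v : F2, Nn (u * v) ≤ Nn u * Nn v) ∧ (∀ u : F2, 1 ≤ Nn u) ∧
  (∀ l : Letter, Nn (FreeGroup.mk [l]) ≤ 20) ∧ (∀ w : F2, Ln (fr w) ≤ 2 * Nn w)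

def S_EV : Prop := ∀ ξ : Fin 3 → ℂ, OnT ξ → ∀ f : Rg, ‖ev ξ f‖ ≤ Ln f

def S_COEF : Prop := ∀ (p : Rg) (d : ℕ) (S : ℝ), (∀ k, p.degreeOf k ≤ d) →
  (∀ ξ : Fin 3 → ℂ, OnT ξ → ‖ev ξ p‖ ≤ S) → (Ln p : ℝ) ≤ ((d : ℝ) + 1) ^ 3 * S

def S_HT : Prop := ∀ (p : Rg) (d : ℕ), (∀ k, p.degreeOf k ≤ d) →
  Ht p ≤ Ln p ∧ Ln p ≤ (d + 1) ^ 3 * Ht p

def S_DIV : Prop := ∀ (F p : Rg) (D n : ℕ) (K : ℝ), F ≠ 0 → (∀ k, F.degreeOf k ≤ D) →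
  (∀ k, p.degreeOf k ≤ n) → (∀ ξ : Fin 3 → ℂ, OnT ξ → ‖ev ξ F * ev ξ p‖ ≤ K) →
  ∀ ξ : Fin 3 → ℂ, OnT ξ → ‖ev ξ p‖ ≤ ((n : ℝ) + D + 1) ^ (6 * D) * K

def S_PT : Prop := ∀ ξ : Fin 3 → ℂ, OnT ξ → ∃ A B : SL, trc A B = ξ ∧
  (∀ a b, ‖A.1 a b‖ ≤ 2) ∧ (∀ a b, ‖B.1 a b‖ ≤ 2)

def S_MAT : Prop := ∀ (u g h : SL) (M τ : ℝ), 1 ≤ M → 0 ≤ τ →
  (∀ a b, ‖g.1 a b‖ ≤ M) → (∀ a b, ‖h.1 a b‖ ≤ M) →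
  ‖u.1.trace‖ ≤ τ → ‖(u * g).1.trace‖ ≤ τ → ‖(u * h).1.trace‖ ≤ τ →
  ∀ a b, ‖(g.1.trace ^ 2 + h.1.trace ^ 2 + (g * h).1.trace ^ 2
      - g.1.trace * h.1.trace * (g * h).1.trace - 4) * u.1 a b‖ ≤ 10 ^ 6 * M ^ 10 * (1 + τ)

def S_CRA : Prop := ∀ (A B : SL) (Y : Matrix (Fin 2) (Fin 2) ℂ) (c : Fin 4 → ℂ) (y : ℝ),
  (∀ a b, ‖A.1 a b‖ ≤ 2) → (∀ a b, ‖B.1 a b‖ ≤ 2) → Y = ∑ i, c i • Eb A B i →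
  (∀ a b, ‖Y a b‖ ≤ y) → ∀ i, ‖ev (trc A B) kap0 * c i‖ ≤ 10 ^ 6 * y

def S_ALG : Prop := ∃ C : ℝ, 1 ≤ C ∧ ∀ ξ : Fin 3 → ℂ, OnT ξ → ∀ (i : ℕ) (U : F2)
  (V1 V2 V3 : List Letter), V1.length = i → V2.length = i → V3.length = i →
  ∀ τ : ℝ, 0 ≤ τ → ‖ev ξ (fr (U * FreeGroup.mk V1))‖ ≤ τ → ‖ev ξ (fr (U * FreeGroup.mk V2))‖ ≤ τ →
  ‖ev ξ (fr (U * FreeGroup.mk V3))‖ ≤ τ → ∀ a b,
  ‖ev ξ kap0 * ev ξ (kap ((FreeGroup.mk V1)⁻¹ * FreeGroup.mk V2)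
      ((FreeGroup.mk V1)⁻¹ * FreeGroup.mk V3)) * ev ξ (Mw U a b)‖ ≤ C ^ (i + 1) * (1 + τ)

def S_KEY : Prop := ∃ C : ℝ, 1 ≤ C ∧ ∀ (n i : ℕ) (LU V1 V2 V3 : List Letter), i ≤ n →
  LU.length ≤ n → V1.length = i → V2.length = i → V3.length = i →
  kap ((FreeGroup.mk V1)⁻¹ * FreeGroup.mk V2) ((FreeGroup.mk V1)⁻¹ * FreeGroup.mk V3) ≠ 0 →
  ∀ τ : ℝ, (Ln (fr (FreeGroup.mk LU * FreeGroup.mk V1)) : ℝ) ≤ τ →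
  (Ln (fr (FreeGroup.mk LU * FreeGroup.mk V2)) : ℝ) ≤ τ →
  (Ln (fr (FreeGroup.mk LU * FreeGroup.mk V3)) : ℝ) ≤ τ →
  (Nn (FreeGroup.mk LU) : ℝ) ≤ Real.exp (C * (i + 1) * Real.log (n + 2)) * (1 + τ)

def S_NC : Prop := ∀ g h : F2, g * h ≠ h * g → kap g h ≠ 0

def S_COMM : Prop := ∀ (i : ℕ) (S : Finset F2), (∀ v ∈ S, v.norm = i) →
  (∀ v1 ∈ S, ∀ v2 ∈ S, ∀ v3 ∈ S,
    (v1⁻¹ * v2) * (v1⁻¹ * v3) = (v1⁻¹ * v3) * (v1⁻¹ * v2)) → S.card ≤ 4 * i + 1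

def S_COMB : Prop := ∃ C : ℝ, 1 ≤ C ∧ ∀ (n i : ℕ), i ≤ n → ∀ LU : List Letter, LU.length ≤ n →
  ∀ S : Finset F2, (∀ v ∈ S, v.norm = i) →
  (∀ v ∈ S, Real.exp (C * (i + 1) * Real.log (n + 2)) * (1 + Ln (fr (FreeGroup.mk LU * v)))
    < Nn (FreeGroup.mk LU)) → S.card ≤ 4 * i + 1

def S_KING : Prop := ∀ (m : Measure (ℕ → Letter)) (ρ : ℝ), Good m ρ → ∃ γ : ℝ,
  ∀ᵐ x ∂m, Tendsto (fun n : ℕ => Real.log (Nn (wd x n)) / n) atTop (𝓝 γ)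

def S_BC : Prop := ∀ (m : Measure (ℕ → Letter)) (ρ : ℝ), Good m ρ → ∃ C : ℝ, 1 ≤ C ∧
  ∀ᵐ x ∂m, ∀ᶠ n : ℕ in atTop, (Nn (wd x (n - n.sqrt)) : ℝ) ≤
    Real.exp (C * (n.sqrt + 1) * Real.log (n + 2)) * (1 + Ln (fr (wd x n)))

def S_LIM : Prop := ∀ (m : Measure (ℕ → Letter)) (ρ : ℝ), Good m ρ → ∃ γ : ℝ,
  (∀ᵐ x ∂m, Tendsto (fun n : ℕ => Real.log (Ln (fr (wd x n))) / n) atTop (𝓝 γ)) ∧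
  (∀ᵐ x ∂m, Tendsto (fun n : ℕ => Real.log (Ht (fr (wd x n))) / n) atTop (𝓝 γ))

def S_LAWR : Prop := ∀ m : Measure (ℕ → Letter), IsProbabilityMeasure m →
  ReducedProcess m (fun n x => x n) → Good m (1 / 3)

def S_LAWP : Prop := ∀ (p : ℝ), 0 < p → p < 1 → ∀ m : Measure (ℕ → Letter),
  IsProbabilityMeasure m → PositiveProcess p m (fun n x => x n) → Good m (max p (1 - p))

def S_UNI : Prop :=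
  (∀ m₁ m₂ : Measure (ℕ → Letter), IsProbabilityMeasure m₁ → IsProbabilityMeasure m₂ →
    ReducedProcess m₁ (fun n x => x n) → ReducedProcess m₂ (fun n x => x n) → m₁ = m₂) ∧
  (∀ (p : ℝ), 0 < p → p < 1 → ∀ m₁ m₂ : Measure (ℕ → Letter), IsProbabilityMeasure m₁ →
    IsProbabilityMeasure m₂ → PositiveProcess p m₁ (fun n x => x n) →
    PositiveProcess p m₂ (fun n x => x n) → m₁ = m₂)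

end Pool.Agent.R667.TP
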